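import Pool.Agent.TH172.FV.Ch

/-! # The average over the Gaussian vectors in a chart -/

set_option autoImplicit false
set_option linter.unusedSectionVars false

open MeasureTheory ProbabilityTheory Metric Set Filter Topology
open Pool.Agent.H241R3.FV (E gnorm RChart)

namespace Pool.Agent.TH172.FV

variable {d : ℕ} {M : Type} [MetricSpace M]
variable {V : Type*} [NormedAddCommGroup V] [InnerProductSpace ℝ V] [FiniteDimensional ℝ V]
  [MeasurableSpace V] [BorelSpace V]

lemma inner_dw (C : RChart (d + 1) M) (w : M → V) (hw1 : ∀ q, ‖w q‖ = 1) (p x : E (d + 1)) :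
    inner ℝ (w (C.map p)) (dw C w p x) = 0 := by
  by_cases hd : DifferentiableAt ℝ (fun q => w (C.map q)) p
  · have h1 := hd.hasFDerivAt.inner ℝ hd.hasFDerivAt
    have h2 : (fun q => inner ℝ (w (C.map q)) (w (C.map q))) = fun _ : E (d + 1) => (1 : ℝ) := by
      funext q
      rw [real_inner_self_eq_norm_sq, hw1, one_pow]
    rw [h2] at h1
    have h3 := h1.unique (hasFDerivAt_const (1 : ℝ) p)
    have h4 := congrArg (fun T : E (d + 1) →L[ℝ] ℝ => T x) h3
    simp only [ContinuousLinearMap.comp_apply, ContinuousLinearMap.prod_apply,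
      fderivInnerCLM_apply, ContinuousLinearMap.zero_apply] at h4
    rw [real_inner_comm (w (C.map p)) (fderiv ℝ (fun q => w (C.map q)) p x)] at h4
    unfold dw
    rw [real_inner_comm] at h4
    linarith [h4, real_inner_comm (w (C.map p)) (fderiv ℝ (fun q => w (C.map q)) p x)]
  · unfold dw
    rw [fderiv_zero_of_not_differentiableAt hd]
    simp

lemma Wt_eq (W : E (d + 1) →L[ℝ] V) (v : V) :
    Wt W v = WithLp.toLp 2 fun j => inner ℝ (W (EuclideanSpace.single j 1)) v := by
  ext j
  rw [Wt, Um_apply]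

/-- a measurable version of the integrand -/
noncomputable def ft (C : RChart (d + 1) M) (w : M → V) (ε : ℝ) (v : Fin d → V)
    (p : E (d + 1)) : ENNReal := by
  classical
  exact Set.indicator {a : (Fin d → V) × E (d + 1) |
    ∀ i, |inner ℝ (C.D.piecewise (fun p => w (C.map p)) (fun _ => 0) a.2) (a.1 i)| < ε}
    (fun a => ENNReal.ofReal (√(∑ i, ∑ j, xi (fun i => Wt (dw C w a.2) (a.1 i)) i *
      C.D.piecewise (fun p => C.G p i j) (fun _ => 0) a.2 *
      xi (fun i => Wt (dw C w a.2) (a.1 i)) j))) (v, p)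

lemma measurable_ft (C : RChart (d + 1) M) (w : M → V) (L : ℝ) (hL : 0 ≤ L)
    (hw : ∀ q q', ‖w q - w q'‖ ≤ L * dist q q') (ε : ℝ) :
    Measurable (Function.uncurry (ft C w ε : (Fin d → V) → E (d + 1) → ENNReal)) := by
  classical
  have hwD : Measurable (C.D.piecewise (fun p => w (C.map p)) (fun _ => 0)) :=
    ((continuousOn_w C w L hL hw).mono C.D_sub).measurable_piecewise continuousOn_const C.meas_D
  have hGD : ∀ i j, Measurable (C.D.piecewise (fun p => C.G p i j) (fun _ => 0)) := by
    intro i j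
    have h1 : ContinuousOn (fun p => C.G p i j) C.D := by
      have h2 := C.cont_G.mono C.D_sub
      exact (continuous_id.matrix_elem i j :
        Continuous fun A : Matrix (Fin (d + 1)) (Fin (d + 1)) ℝ => A i j).comp_continuousOn h2
    exact h1.measurable_piecewise continuousOn_const C.meas_D
  have hWt : ∀ i : Fin d, Measurable fun a : (Fin d → V) × E (d + 1) =>
      Wt (dw C w a.2) (a.1 i) := by
    intro i
    simp_rw [Wt_eq]
    apply (PiLp.continuous_toLp 2 _).measurable.comp
    rw [measurable_pi_iff]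
    intro j
    have h1 : Measurable fun p : E (d + 1) => dw C w p (EuclideanSpace.single j 1) :=
      measurable_fderiv_apply_const ℝ (fun q => w (C.map q)) (EuclideanSpace.single j 1)
    have h2 : Measurable fun a : (Fin d → V) × E (d + 1) => a.1 i :=
      (measurable_pi_apply i).comp measurable_fst
    exact (h1.comp measurable_snd).inner h2
  have hxi : Measurable fun a : (Fin d → V) × E (d + 1) => xi fun i => Wt (dw C w a.2) (a.1 i) :=
    measurable_xi.comp (measurable_pi_iff.2 hWt)
  have hxij : ∀ j, Measurable fun a : (Fin d → V) × E (d + 1) =>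
      xi (fun i => Wt (dw C w a.2) (a.1 i)) j := fun j =>
    (PiLp.continuous_apply 2 _ j).measurable.comp hxi
  have hset : MeasurableSet {a : (Fin d → V) × E (d + 1) |
      ∀ i, |inner ℝ (C.D.piecewise (fun p => w (C.map p)) (fun _ => 0) a.2) (a.1 i)| < ε} := by
    have : {a : (Fin d → V) × E (d + 1) |
      ∀ i, |inner ℝ (C.D.piecewise (fun p => w (C.map p)) (fun _ => 0) a.2) (a.1 i)| < ε} =
      ⋂ i, {a : (Fin d → V) × E (d + 1) |
        |inner ℝ (C.D.piecewise (fun p => w (C.map p)) (fun _ => 0) a.2) (a.1 i)| < ε} := by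
      ext a; simp
    rw [this]
    refine MeasurableSet.iInter fun i => ?_
    refine measurableSet_lt ?_ measurable_const
    have h2 : Measurable fun a : (Fin d → V) × E (d + 1) => a.1 i :=
      (measurable_pi_apply i).comp measurable_fst
    exact ((hwD.comp measurable_snd).inner h2).abs
  have hmain : Measurable fun a : (Fin d → V) × E (d + 1) =>
      ENNReal.ofReal (√(∑ i, ∑ j, xi (fun i => Wt (dw C w a.2) (a.1 i)) i *
      C.D.piecewise (fun p => C.G p i j) (fun _ => 0) a.2 *
      xi (fun i => Wt (dw C w a.2) (a.1 i)) j)) := by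
    apply Measurable.ennreal_ofReal
    apply Measurable.sqrt
    refine Finset.measurable_sum _ fun i _ => Finset.measurable_sum _ fun j _ => ?_
    exact ((hxij i).mul ((hGD i j).comp measurable_snd)).mul (hxij j)
  have h := hmain.indicator hset
  have e : Function.uncurry (ft C w ε : (Fin d → V) → E (d + 1) → ENNReal) =
      Set.indicator {a : (Fin d → V) × E (d + 1) |
    ∀ i, |inner ℝ (C.D.piecewise (fun p => w (C.map p)) (fun _ => 0) a.2) (a.1 i)| < ε}
    (fun a => ENNReal.ofReal (√(∑ i, ∑ j, xi (fun i => Wt (dw C w a.2) (a.1 i)) i *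
      C.D.piecewise (fun p => C.G p i j) (fun _ => 0) a.2 *
      xi (fun i => Wt (dw C w a.2) (a.1 i)) j))) := by
    funext a
    rfl
  rw [e]
  exact h

lemma ft_eq (C : RChart (d + 1) M) (w : M → V) (ε : ℝ) (v : Fin d → V) {p : E (d + 1)}
    (hp : p ∈ C.D) : ft C w ε v p = Set.indicator {v : Fin d → V | ∀ i,
      |inner ℝ (w (C.map p)) (v i)| < ε}
      (fun v => ENNReal.ofReal (gnorm (C.G p) (xi fun i => Wt (dw C w p) (v i)))) v := by
  classical
  unfold ft
  have e1 : (v, p) ∈ {a : (Fin d → V) × E (d + 1) |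
      ∀ i, |inner ℝ (C.D.piecewise (fun p => w (C.map p)) (fun _ => 0) a.2) (a.1 i)| < ε} ↔
      v ∈ {v : Fin d → V | ∀ i, |inner ℝ (w (C.map p)) (v i)| < ε} := by
    simp only [mem_setOf_eq, Set.piecewise_eq_of_mem _ _ _ hp]
  by_cases hv : v ∈ {v : Fin d → V | ∀ i, |inner ℝ (w (C.map p)) (v i)| < ε}
  · rw [Set.indicator_of_mem (e1.2 hv), Set.indicator_of_mem hv]
    unfold gnorm
    simp only [Set.piecewise_eq_of_mem _ _ _ hp]
  · rw [Set.indicator_of_notMem (fun h => hv (e1.1 h)), Set.indicator_of_notMem hv]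

/-- the integral over the tube -/
noncomputable def It (C : RChart (d + 1) M) (w : M → V) (ε : ℝ) (v : Fin d → V) : ENNReal :=
  ∫⁻ p in C.D, ft C w ε v p

lemma It_eq (C : RChart (d + 1) M) (w : M → V) (L : ℝ) (hL : 0 ≤ L)
    (hw : ∀ q q', ‖w q - w q'‖ ≤ L * dist q q') (ε : ℝ) (v : Fin d → V) :
    It C w ε v = ∫⁻ p in C.D ∩ tube C w v ε,
        ENNReal.ofReal (gnorm (C.G p) (xi fun i => Wt (dw C w p) (v i))) := by
  unfold It
  rw [← lintegral_indicator (meas_tube C w L hL hw v ε), ← lintegral_indicator C.meas_D]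
  apply lintegral_congr
  intro p
  by_cases hp : p ∈ C.D
  · rw [Set.indicator_of_mem hp, ft_eq C w ε v hp]
    by_cases hv : v ∈ {v : Fin d → V | ∀ i, |inner ℝ (w (C.map p)) (v i)| < ε}
    · rw [Set.indicator_of_mem hv, Set.indicator_of_mem (show p ∈ C.D ∩ tube C w v ε from ⟨hp, hv⟩)]
    · rw [Set.indicator_of_notMem hv, Set.indicator_of_notMem
        (show p ∉ C.D ∩ tube C w v ε from fun h => hv h.2)]
  · rw [Set.indicator_of_notMem hp, Set.indicator_of_notMem
      (show p ∉ C.D ∩ tube C w v ε from fun h => hp h.1)]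

lemma measurable_It (C : RChart (d + 1) M) (w : M → V) (L : ℝ) (hL : 0 ≤ L)
    (hw : ∀ q q', ‖w q - w q'‖ ≤ L * dist q q') (ε : ℝ) :
    Measurable (It C w ε : (Fin d → V) → ENNReal) :=
  (measurable_ft C w L hL hw ε).lintegral_prod_right'

/-- The average over the Gaussian vectors. -/
lemma lintegral_It (C : RChart (d + 1) M) (w : M → V) (hw1 : ∀ q, ‖w q‖ = 1) (L : ℝ) (hL : 0 ≤ L)
    (hw : ∀ q q', ‖w q - w q'‖ ≤ L * dist q q') (ε : ℝ) :
    ∫⁻ v : Fin d → V, It C w ε v ∂(Measure.pi fun _ => stdGaussian V) ≤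
      ENNReal.ofReal (2 * ε / √(2 * Real.pi)) ^ d * cd d *
        ∫⁻ p in C.D, ENNReal.ofReal (√((etr (C.G p) (dw C w p) / (d + 1)) ^ d) *
          √(C.G p).det) := by
  unfold It
  rw [lintegral_lintegral_swap (measurable_ft C w L hL hw ε).aemeasurable]
  have hc : ENNReal.ofReal (2 * ε / √(2 * Real.pi)) ^ d * cd d ≠ ⊤ := by
    apply ENNReal.mul_ne_top (ENNReal.pow_ne_top ENNReal.ofReal_ne_top)
    intro h
    have h1 := cd_mul d
    rw [h, ENNReal.top_mul (sn_ne_zero _ (by omega))] at h1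
    have h2 : ENNReal.ofReal (2 * Real.pi) * ENNReal.ofReal (√(2 * Real.pi)) ^ d ≠ ⊤ :=
      ENNReal.mul_ne_top ENNReal.ofReal_ne_top (ENNReal.pow_ne_top ENNReal.ofReal_ne_top)
    exact h2 h1.symm
  rw [← lintegral_const_mul' _ _ hc]
  refine setLIntegral_mono' C.meas_D fun p hp => ?_
  have h1 := avg_point (d := d) (hw1 (C.map p)) (C.G p) (C.pos_G p (C.D_sub hp)) (dw C w p)
    (fun x => inner_dw C w hw1 p x) ε
  refine le_trans (le_of_eq ?_) h1
  apply lintegral_congr
  intro v
  exact ft_eq C w ε v hp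

end Pool.Agent.TH172.FV
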