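import Pool.Agent.TH172.FV.Pt

/-! # The area estimate in a chart -/

set_option autoImplicit false
set_option linter.unusedSectionVars false

open MeasureTheory Metric Set Filter Topology
open Pool.Agent.H241R3.FV (E gnorm RChart)
open Pool.Agent.H241R3.FV.TLoc (taskLoc)

namespace Pool.Agent.TH172.FV

variable {d : ℕ} {M : Type} [MetricSpace M]

lemma map_lip (C : RChart (d + 1) M) {p : E (d + 1)} (hp : p ∈ C.U) :
    ∃ r K : ℝ, 0 < r ∧ 0 ≤ K ∧ ball p r ⊆ C.U ∧ ∀ y ∈ ball p r, ∀ z ∈ ball p r,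
      dist (C.map y) (C.map z) ≤ K * ‖y - z‖ := by
  obtain ⟨r, hr, hr2, hr3⟩ := taskLoc (d + 1) M C p hp 1 one_pos
  refine ⟨r, √(∑ i, ∑ j, |C.G p i j|) + 1, hr, by positivity, hr2, fun y hy z hz => ?_⟩
  have h1 := hr3 y hy z hz
  have h2 := Pool.Agent.H241R3.FV.gnorm_le (C.G p) (y - z)
  linarith

/-- Rademacher's theorem in a chart -/
lemma ae_diff {F : Type*} [NormedAddCommGroup F] [NormedSpace ℝ F] [FiniteDimensional ℝ F]
    (C : RChart (d + 1) M) (f : M → F) (L : ℝ) (hL : 0 ≤ L)
    (hf : ∀ q q', ‖f q - f q'‖ ≤ L * dist q q') :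
    ∀ᵐ p ∂(volume : Measure (E (d + 1))), p ∈ C.U →
      DifferentiableAt ℝ (fun q => f (C.map q)) p := by
  rw [ae_iff]
  apply measure_null_of_locally_null
  intro p hp
  have hpU : p ∈ C.U := by
    by_contra h
    exact hp fun h' => absurd h' h
  obtain ⟨r, K, hr, hK0, hU, hK⟩ := map_lip C hpU
  refine ⟨{q | ¬(q ∈ C.U → DifferentiableAt ℝ (fun q => f (C.map q)) q)} ∩ ball p r, ?_, ?_⟩
  · exact inter_mem_nhdsWithin _ (ball_mem_nhds p hr)
  · have hlip : LipschitzOnWith (Real.toNNReal (L * K)) (fun q => f (C.map q)) (ball p r) := by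
      refine LipschitzOnWith.of_dist_le_mul fun y hy z hz => ?_
      rw [dist_eq_norm, dist_eq_norm, Real.coe_toNNReal _ (by positivity)]
      refine (hf _ _).trans ?_
      rw [mul_assoc]
      exact mul_le_mul_of_nonneg_left (hK y hy z hz) hL
    have h := hlip.ae_differentiableWithinAt (μ := (volume : Measure (E (d + 1))))
      measurableSet_ball
    rw [ae_restrict_iff' measurableSet_ball, ae_iff] at h
    refine measure_mono_null ?_ h
    rintro q ⟨hq1, hq2⟩
    intro hq3
    exact hq1 fun _ => (hq3 hq2).differentiableAt (isOpen_ball.mem_nhds hq2)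

/-- The differential of a `1`-Lipschitz function is bounded by the metric. -/
lemma fderiv_le (C : RChart (d + 1) M) (g : M → ℝ) (hg : ∀ q q', |g q - g q'| ≤ dist q q')
    {p : E (d + 1)} (hp : p ∈ C.U) (hd : DifferentiableAt ℝ (fun q => g (C.map q)) p)
    (x : E (d + 1)) : |fderiv ℝ (fun q => g (C.map q)) p x| ≤ gnorm (C.G p) x := by
  have key : ∀ v : E (d + 1), fderiv ℝ (fun q => g (C.map q)) p v ≤ gnorm (C.G p) v := by
    intro v
    have main : ∀ ε : ℝ, 0 < ε →
        fderiv ℝ (fun q => g (C.map q)) p v ≤ gnorm (C.G p) v + ε * ‖v‖ := by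
      intro ε hε
      obtain ⟨r, hr, hrU, h⟩ := taskLoc (d + 1) M C p hp ε hε
      have h1 : HasDerivAt (fun t : ℝ => g (C.map (p + t • v)))
          (fderiv ℝ (fun q => g (C.map q)) p v) 0 :=
        hd.hasFDerivAt.hasLineDerivAt v
      rw [hasDerivAt_iff_tendsto_slope_zero] at h1
      have h2 : Tendsto (fun t : ℝ => t⁻¹ • (g (C.map (p + (0 + t) • v)) -
          g (C.map (p + (0 : ℝ) • v)))) (𝓝[>] 0) (𝓝 (fderiv ℝ (fun q => g (C.map q)) p v)) :=
        h1.mono_left (nhdsWithin_mono _ fun t ht => ne_of_gt ht)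
      refine le_of_tendsto h2 ?_
      have h3 : ∀ᶠ t : ℝ in 𝓝[>] 0, p + t • v ∈ ball p r := by
        have hc : Continuous fun t : ℝ => p + t • v := by fun_prop
        have : (fun t : ℝ => p + t • v) ⁻¹' (ball p r) ∈ 𝓝 (0 : ℝ) := by
          apply hc.continuousAt.preimage_mem_nhds
          simpa using ball_mem_nhds p hr
        exact nhdsWithin_le_nhds this
      filter_upwards [h3, self_mem_nhdsWithin] with t ht1 ht2
      have ht : (0 : ℝ) < t := ht2
      rw [zero_add, zero_smul, add_zero, smul_eq_mul]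
      have h4 := (hg _ _).trans (h (p + t • v) ht1 p (mem_ball_self hr))
      rw [add_sub_cancel_left, gnorm_smul, norm_smul, Real.norm_eq_abs, abs_of_pos ht] at h4
      have h5 := le_abs_self (g (C.map (p + t • v)) - g (C.map p))
      rw [inv_mul_le_iff₀ ht]
      nlinarith
    refine le_of_forall_pos_le_add fun ε hε => ?_
    have h := main (ε / (‖v‖ + 1)) (by positivity)
    refine h.trans (add_le_add le_rfl ?_)
    rw [div_mul_eq_mul_div, div_le_iff₀ (by positivity)]
    nlinarith [norm_nonneg v]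
  rw [abs_le]
  constructor
  · have h := key (-x)
    have h2 : gnorm (C.G p) (-x) = gnorm (C.G p) x := by
      rw [← neg_one_smul ℝ x, gnorm_smul]
      simp
    rw [map_neg, h2] at h
    linarith
  · exact key x

section chart

variable {V : Type*} [NormedAddCommGroup V] [InnerProductSpace ℝ V] [FiniteDimensional ℝ V]
  [MeasurableSpace V] [BorelSpace V]

/-- the differential of `w` in a chart -/
noncomputable def dw (C : RChart (d + 1) M) (w : M → V) (p : E (d + 1)) : E (d + 1) →L[ℝ] V :=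
  fderiv ℝ (fun q => w (C.map q)) p

/-- the map `(g, ⟪w, v₁⟫, …, ⟪w, v_d⟫)` in a chart -/
noncomputable def psi (C : RChart (d + 1) M) (g : M → ℝ) (w : M → V) (v : Fin d → V)
    (p : E (d + 1)) : E (d + 1) :=
  WithLp.toLp 2 (Fin.cons (g (C.map p)) fun i => inner ℝ (w (C.map p)) (v i))

lemma psi_deriv (C : RChart (d + 1) M) (g : M → ℝ) (hg : ∀ q q', |g q - g q'| ≤ dist q q')
    (w : M → V) (v : Fin d → V) {p : E (d + 1)} (hp : p ∈ C.U)
    (hd : DifferentiableAt ℝ (fun q => g (C.map q)) p)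
    (hw : DifferentiableAt ℝ (fun q => w (C.map q)) p) :
    ∃ L : E (d + 1) →L[ℝ] E (d + 1), HasFDerivAt (psi C g w v) L p ∧
      |L.det| ≤ gnorm (C.G p) (xi fun i => Wt (dw C w p) (v i)) := by
  set g' := fderiv ℝ (fun q => g (C.map q)) p with hg'
  set W := dw C w p with hW
  set comps : Fin (d + 1) → (E (d + 1) →L[ℝ] ℝ) :=
    Fin.cons g' fun i => (innerSL ℝ (v i)).comp W with hcomps
  set L : E (d + 1) →L[ℝ] E (d + 1) :=
    ((PiLp.continuousLinearEquiv 2 ℝ (fun _ : Fin (d + 1) => ℝ)).symm :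
      (Fin (d + 1) → ℝ) →L[ℝ] E (d + 1)).comp (ContinuousLinearMap.pi comps) with hL
  have hLa : ∀ x i, L x i = comps i x := by
    intro x i
    simp [hL]
  refine ⟨L, ?_, ?_⟩
  · have h1 : HasFDerivAt (fun q => (Fin.cons (g (C.map q)) fun i =>
        inner ℝ (w (C.map q)) (v i) : Fin (d + 1) → ℝ)) (ContinuousLinearMap.pi comps) p := by
      rw [hasFDerivAt_pi]
      intro i
      refine Fin.cases ?_ (fun i' => ?_) i
      · simp only [Fin.cons_zero, hcomps]
        exact hd.hasFDerivAt
      · simp only [Fin.cons_succ, hcomps]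
        have h2 := (innerSL ℝ (v i')).hasFDerivAt.comp p hw.hasFDerivAt
        refine h2.congr_of_eventuallyEq (Eventually.of_forall fun q => ?_)
        simp [real_inner_comm]
    exact ((PiLp.continuousLinearEquiv 2 ℝ (fun _ : Fin (d + 1) => ℝ)).symm :
      (Fin (d + 1) → ℝ) →L[ℝ] E (d + 1)).hasFDerivAt.comp p h1
  · have hdet : L.det = g' (xi fun i => Wt W (v i)) := by
      rw [Pool.Agent.H241R3.FV.det_mat]
      have h1 : Pool.Agent.H241R3.FV.mat L = Matrix.of fun i j =>
          (Fin.cons (WithLp.toLp 2 fun j => g' (EuclideanSpace.single j 1) : E (d + 1))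
            (fun i => Wt W (v i)) : Fin (d + 1) → E (d + 1)) i j := by
        ext i j
        simp only [Pool.Agent.H241R3.FV.mat, Matrix.of_apply]
        rw [hLa]
        refine Fin.cases ?_ (fun i' => ?_) i
        · simp [hcomps]
        · simp only [hcomps, Fin.cons_succ, ContinuousLinearMap.comp_apply, innerSL_apply_apply]
          rw [Wt, Um_apply, real_inner_comm]
      rw [h1]
      have h2 := Dt_eq (WithLp.toLp 2 fun j => g' (EuclideanSpace.single j 1) : E (d + 1))
        (fun i => Wt W (v i))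
      unfold Dt at h2
      rw [h2, lin_eq g']
    rw [hdet]
    exact fderiv_le C g hg hp hd _

lemma continuousOn_w (C : RChart (d + 1) M) {F : Type*} [NormedAddCommGroup F]
    (w : M → F) (L : ℝ) (hL : 0 ≤ L)
    (hw : ∀ q q', ‖w q - w q'‖ ≤ L * dist q q') : ContinuousOn (fun q => w (C.map q)) C.U := by
  intro p hp
  apply ContinuousAt.continuousWithinAt
  obtain ⟨r, K, hr, hK0, hU, hK⟩ := map_lip C hp
  have hlip : LipschitzOnWith (Real.toNNReal (L * K)) (fun q => w (C.map q)) (ball p r) := by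
    refine LipschitzOnWith.of_dist_le_mul fun y hy z hz => ?_
    rw [dist_eq_norm, dist_eq_norm, Real.coe_toNNReal _ (by positivity)]
    refine (hw _ _).trans ?_
    rw [mul_assoc]
    exact mul_le_mul_of_nonneg_left (hK y hy z hz) hL
  exact hlip.continuousOn.continuousAt (ball_mem_nhds p hr)

/-- the tube in the chart -/
def tube (C : RChart (d + 1) M) (w : M → V) (v : Fin d → V) (ε : ℝ) : Set (E (d + 1)) :=
  {p | ∀ i, |inner ℝ (w (C.map p)) (v i)| < ε}

lemma meas_tube (C : RChart (d + 1) M) (w : M → V) (L : ℝ) (hL : 0 ≤ L)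
    (hw : ∀ q q', ‖w q - w q'‖ ≤ L * dist q q') (v : Fin d → V) (ε : ℝ) :
    MeasurableSet (C.D ∩ tube C w v ε) := by
  have hc := continuousOn_w C w L hL hw
  have h1 : C.D ∩ tube C w v ε = C.D ∩ (C.U ∩ (fun q => w (C.map q)) ⁻¹'
      {y : V | ∀ i, |inner ℝ y (v i)| < ε}) := by
    ext p
    constructor
    · rintro ⟨h1, h2⟩
      exact ⟨h1, C.D_sub h1, h2⟩
    · rintro ⟨h1, h2, h3⟩
      exact ⟨h1, h3⟩
  rw [h1]
  apply C.meas_D.inter
  apply IsOpen.measurableSet
  apply hc.isOpen_inter_preimage C.isOpen_U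
  have : {y : V | ∀ i, |inner ℝ y (v i)| < ε} = ⋂ i, {y : V | |inner ℝ y (v i)| < ε} := by
    ext y; simp
  rw [this]
  apply isOpen_iInter_of_finite
  intro i
  exact isOpen_lt (by fun_prop) continuous_const

/-- The area estimate. -/
lemma chart_area (C : RChart (d + 1) M) (g : M → ℝ) (hg : ∀ q q', |g q - g q'| ≤ dist q q')
    (w : M → V) (L : ℝ) (hL : 0 ≤ L) (hw : ∀ q q', ‖w q - w q'‖ ≤ L * dist q q')
    (v : Fin d → V) (ε : ℝ) :
    volume (psi C g w v '' (C.D ∩ tube C w v ε)) ≤
      ∫⁻ p in C.D ∩ tube C w v ε,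
        ENNReal.ofReal (gnorm (C.G p) (xi fun i => Wt (dw C w p) (v i))) := by
  set D' := C.D ∩ tube C w v ε with hD'
  have hD'm : MeasurableSet D' := meas_tube C w L hL hw v ε
  have hD'U : D' ⊆ C.U := fun p hp => C.D_sub hp.1
  let good : E (d + 1) → (E (d + 1) →L[ℝ] E (d + 1)) → Prop := fun p T =>
    HasFDerivAt (psi C g w v) T p ∧
      |T.det| ≤ gnorm (C.G p) (xi fun i => Wt (dw C w p) (v i))
  have hgood : ∀ᵐ p ∂(volume : Measure (E (d + 1))), p ∈ C.U → ∃ T, good p T := by
    filter_upwards [ae_diff C g 1 zero_le_one (fun q q' => by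
      rw [Real.norm_eq_abs, one_mul]; exact hg q q'), ae_diff C w L hL hw] with p h1 h2 hp
    exact psi_deriv C g hg w v hp (h1 hp) (h2 hp)
  let bad : Set (E (d + 1)) := {p | ¬ (p ∈ C.U → ∃ T, good p T)}
  have hbad : volume bad = 0 := hgood
  let N : Set (E (d + 1)) := toMeasurable volume bad
  have hN0 : volume N = 0 := by rw [measure_toMeasurable, hbad]
  have hNm : MeasurableSet N := measurableSet_toMeasurable _ _
  have hbN : bad ⊆ N := subset_toMeasurable _ _
  have hex : ∀ p ∈ D' \ N, ∃ T, good p T := by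
    intro p hp
    by_contra hcon
    apply hp.2
    apply hbN
    show ¬ (p ∈ C.U → ∃ T, good p T)
    intro h
    exact hcon (h (hD'U hp.1))
  classical
  let f' : E (d + 1) → (E (d + 1) →L[ℝ] E (d + 1)) := fun p =>
    if h : ∃ T, good p T then h.choose else 0
  have hf' : ∀ p ∈ D' \ N, good p (f' p) := by
    intro p hp
    have h := hex p hp
    simp only [f', dif_pos h]
    exact h.choose_spec
  have step1 : volume (psi C g w v '' (D' \ N)) ≤
      ∫⁻ p in D' \ N, ENNReal.ofReal |(f' p).det| :=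
    addHaar_image_le_lintegral_abs_det_fderiv volume (hD'm.diff hNm)
      (fun p hp => (hf' p hp).1.hasFDerivWithinAt)
  have step2 : ∫⁻ p in D' \ N, ENNReal.ofReal |(f' p).det| ≤
      ∫⁻ p in D', ENNReal.ofReal (gnorm (C.G p) (xi fun i => Wt (dw C w p) (v i))) := by
    calc ∫⁻ p in D' \ N, ENNReal.ofReal |(f' p).det|
        ≤ ∫⁻ p in D' \ N, ENNReal.ofReal (gnorm (C.G p) (xi fun i => Wt (dw C w p) (v i))) := by
          refine setLIntegral_mono' (hD'm.diff hNm) fun p hp => ?_
          exact ENNReal.ofReal_le_ofReal (hf' p hp).2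
      _ ≤ _ := lintegral_mono_set sdiff_subset
  have step3 : volume (psi C g w v '' (D' ∩ N)) = 0 := by
    refine Pool.Agent.H241R3.FV.TNull.taskNull (d + 1) C.U (psi C g w v) ?_ _
      (fun p hp => hD'U hp.1) ?_
    · intro p hp
      obtain ⟨r, K, hr, hK0, hU, hK⟩ := map_lip C hp
      refine ⟨r, hr, K + ∑ i, L * K * ‖v i‖, ?_⟩
      intro y hy z hz
      have h0 : ∀ x : E (d + 1), ‖x‖ ≤ ∑ i, |x i| := by
        intro x
        rw [EuclideanSpace.norm_eq]
        apply Real.sqrt_le_iff.mpr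
        refine ⟨Finset.sum_nonneg fun i _ => abs_nonneg _, ?_⟩
        have := Finset.sum_sq_le_sq_sum_of_nonneg (s := Finset.univ) (f := fun i => |x i|)
          (fun i _ => abs_nonneg _)
        simpa [Real.norm_eq_abs] using this
      refine (h0 _).trans ?_
      rw [Fin.sum_univ_succ, add_mul, Finset.sum_mul]
      apply add_le_add
      · have e : (psi C g w v y - psi C g w v z) 0 = g (C.map y) - g (C.map z) := by
          simp [psi]
        rw [e]
        exact (hg _ _).trans (hK y hy z hz)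
      · refine Finset.sum_le_sum fun i _ => ?_
        have e : (psi C g w v y - psi C g w v z) i.succ =
            inner ℝ (w (C.map y) - w (C.map z)) (v i) := by
          simp [psi, inner_sub_left]
        rw [e]
        refine (abs_real_inner_le_norm _ _).trans ?_
        have h1 := hw (C.map y) (C.map z)
        have h2 := hK y hy z hz
        calc ‖w (C.map y) - w (C.map z)‖ * ‖v i‖ ≤ (L * (K * ‖y - z‖)) * ‖v i‖ := by
              apply mul_le_mul_of_nonneg_right _ (norm_nonneg _)
              exact h1.trans (mul_le_mul_of_nonneg_left h2 hL)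
          _ = _ := by ring
    · exact measure_mono_null inter_subset_right hN0
  calc volume (psi C g w v '' D') ≤ volume (psi C g w v '' (D' \ N) ∪
        psi C g w v '' (D' ∩ N)) := by
        apply measure_mono
        rw [← image_union, sdiff_union_inter]
    _ ≤ volume (psi C g w v '' (D' \ N)) + volume (psi C g w v '' (D' ∩ N)) :=
        measure_union_le _ _
    _ = volume (psi C g w v '' (D' \ N)) := by rw [step3, add_zero]
    _ ≤ _ := step1.trans step2

end chart

end Pool.Agent.TH172.FV
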