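import Pool.Agent.H241R3.FV.Asm

/-! # The vector product of `d` vectors of `ℝ^(d+1)` -/

set_option autoImplicit false

open Pool.Agent.H241R3.FV

namespace Pool.Agent.TH172.FV

variable {d : ℕ}

/-- The determinant with first row `b` and the other rows `a i`. -/
noncomputable def Dt (b : E (d + 1)) (a : Fin d → E (d + 1)) : ℝ :=
  Matrix.det (Matrix.of fun i j => (Fin.cons b a : Fin (d + 1) → E (d + 1)) i j)

/-- The vector product of `d` vectors of `ℝ^(d+1)` (the vector of cofactors). -/
noncomputable def xi (a : Fin d → E (d + 1)) : E (d + 1) :=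
  WithLp.toLp 2 fun j => (-1) ^ (j : ℕ) * Matrix.det (Matrix.of fun i k : Fin d => a i (j.succAbove k))

lemma xi_apply (a : Fin d → E (d + 1)) (j : Fin (d + 1)) :
    xi a j = (-1) ^ (j : ℕ) * Matrix.det (Matrix.of fun i k : Fin d => a i (j.succAbove k)) := rfl

lemma Dt_eq (b : E (d + 1)) (a : Fin d → E (d + 1)) : Dt b a = ∑ j, b j * xi a j := by
  unfold Dt
  rw [Matrix.det_succ_row_zero]
  refine Finset.sum_congr rfl fun j _ => ?_
  rw [xi_apply]
  have : (Matrix.of fun i j => (Fin.cons b a : Fin (d + 1) → E (d + 1)) i j).submatrix Fin.succ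
      j.succAbove = Matrix.of fun i k : Fin d => a i (j.succAbove k) := by
    ext i k
    simp
  rw [this]
  simp only [Matrix.of_apply, Fin.cons_zero]
  ring

lemma Dt_inner (b : E (d + 1)) (a : Fin d → E (d + 1)) : Dt b a = inner ℝ b (xi a) := by
  rw [Dt_eq, PiLp.inner_apply]
  refine Finset.sum_congr rfl fun j _ => ?_
  simp [mul_comm]

lemma inner_xi_self (a : Fin d → E (d + 1)) (i : Fin d) : inner ℝ (a i) (xi a) = 0 := by
  rw [← Dt_inner]
  unfold Dt
  apply Matrix.det_zero_of_row_eq (i := 0) (j := i.succ) (Fin.succ_ne_zero i).symm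
  ext j
  simp

lemma measurable_xi : Measurable (fun a : Fin d → E (d + 1) => xi a) := by
  unfold xi
  apply (PiLp.continuous_toLp 2 _).measurable.comp
  rw [measurable_pi_iff]
  intro j
  apply Measurable.const_mul
  have : Continuous (fun a : Fin d → E (d + 1) =>
      Matrix.det (Matrix.of fun i k : Fin d => a i (j.succAbove k))) := by
    apply Continuous.matrix_det
    apply continuous_matrix
    intro i k
    have h1 : Continuous fun a : Fin d → E (d + 1) => a i := continuous_apply i
    exact (PiLp.continuous_apply 2 _ (j.succAbove k)).comp h1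
  exact this.measurable

/-- scaling of the coordinates -/
lemma xi_scale (l : Fin (d + 1) → ℝ) (a : Fin d → E (d + 1)) (j : Fin (d + 1)) :
    xi (fun i => WithLp.toLp 2 fun k => l k * a i k) j = (∏ k, l (j.succAbove k)) * xi a j := by
  rw [xi_apply, xi_apply]
  have h := Matrix.det_mul_row (fun k => l (j.succAbove k))
    (Matrix.of fun i k : Fin d => a i (j.succAbove k))
  have e : (Matrix.of fun i k : Fin d => (fun i => (WithLp.toLp 2 fun k => l k * a i k : E (d + 1))) i
      (j.succAbove k)) = Matrix.of fun i k : Fin d => l (j.succAbove k) *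
        (Matrix.of fun i k : Fin d => a i (j.succAbove k)) i k := by
    ext i k
    simp
  rw [e, h]
  ring

/-- permutation of the coordinates -/
lemma xi_perm (σ : Equiv.Perm (Fin (d + 1))) (a : Fin d → E (d + 1)) (j : Fin (d + 1)) :
    xi (fun i => WithLp.toLp 2 fun k => a i (σ k)) j ^ 2 = xi a (σ j) ^ 2 := by
  have h1 : Dt (WithLp.toLp 2 fun k => (EuclideanSpace.single (σ j) (1 : ℝ) : E (d + 1)) (σ k))
      (fun i => WithLp.toLp 2 fun k => a i (σ k)) =
      ((Equiv.Perm.sign σ : ℤ) : ℝ) * Dt (EuclideanSpace.single (σ j) 1) a := by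
    unfold Dt
    rw [← Matrix.det_permute' σ]
    congr 1
    ext i k
    refine Fin.cases ?_ (fun i' => ?_) i
    · simp
    · simp
  rw [Dt_eq, Dt_eq] at h1
  have e1 : ∑ k, (WithLp.toLp 2 fun k => (EuclideanSpace.single (σ j) (1 : ℝ) : E (d + 1)) (σ k) :
      E (d + 1)) k * xi (fun i => WithLp.toLp 2 fun k => a i (σ k)) k =
      xi (fun i => WithLp.toLp 2 fun k => a i (σ k)) j := by
    rw [Finset.sum_eq_single j]
    · simp
    · intro k _ hk
      simp [hk]
    · simp
  have e2 : ∑ k, (EuclideanSpace.single (σ j) (1 : ℝ) : E (d + 1)) k * xi a k = xi a (σ j) := by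
    rw [Finset.sum_eq_single (σ j)]
    · simp
    · intro k _ hk
      simp [hk]
    · simp
  rw [e1, e2] at h1
  rw [h1, mul_pow]
  have h2 : ((Equiv.Perm.sign σ : ℤ) : ℝ) ^ 2 = 1 := by
    rcases Int.units_eq_one_or (Equiv.Perm.sign σ) with h | h <;> rw [h] <;> simp
  rw [h2, one_mul]

/-- a linear map acting on the rows -/
lemma Dt_map (f : E (d + 1) →ₗ[ℝ] E (d + 1)) (b : E (d + 1)) (a : Fin d → E (d + 1)) :
    Dt (f b) (fun i => f (a i)) = LinearMap.det f * Dt b a := by
  have h0 : ∀ (b : E (d + 1)) (a : Fin d → E (d + 1)), Dt b a =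
      (EuclideanSpace.basisFun (Fin (d + 1)) ℝ).toBasis.det (Fin.cons b a) := by
    intro b a
    unfold Dt
    rw [Module.Basis.det_apply, ← Matrix.det_transpose]
    congr 1
  rw [h0, h0, ← Module.Basis.det_comp]
  congr 1
  funext i
  refine Fin.cases ?_ (fun i' => ?_) i
  · simp
  · simp

lemma abs_Dt_isometry (f : E (d + 1) ≃ₗᵢ[ℝ] E (d + 1)) (b : E (d + 1)) (a : Fin d → E (d + 1)) :
    |Dt (f b) (fun i => f (a i))| = |Dt b a| := by
  have h1 := Dt_map (f.toLinearEquiv : E (d + 1) →ₗ[ℝ] E (d + 1)) b a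
  have h2 : |LinearMap.det (f.toLinearEquiv : E (d + 1) →ₗ[ℝ] E (d + 1))| = 1 := by
    set e := EuclideanSpace.basisFun (Fin (d + 1)) ℝ with he
    have h3 := e.det_to_matrix_orthonormalBasis_real (e.map f)
    have h4 : e.toBasis.det (e.map f) =
        LinearMap.det (f.toLinearEquiv : E (d + 1) →ₗ[ℝ] E (d + 1)) := by
      have h5 := Module.Basis.det_comp e.toBasis (f.toLinearEquiv : E (d + 1) →ₗ[ℝ] E (d + 1)) e
      have h6 : e.toBasis.det e = 1 := by
        rw [← OrthonormalBasis.coe_toBasis]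
        exact Module.Basis.det_self _
      rw [h6, mul_one] at h5
      rw [← h5]
      congr 1
    rw [h4] at h3
    rcases h3 with h | h <;> rw [h] <;> simp
  have h7 : Dt (f b) (fun i => f (a i)) =
      LinearMap.det (f.toLinearEquiv : E (d + 1) →ₗ[ℝ] E (d + 1)) * Dt b a := h1
  rw [h7, abs_mul, h2, one_mul]

end Pool.Agent.TH172.FV
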