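import Pool.Agent.TH172.FV.Pt
import Pool.Agent.H241R3.FV.TEven
import Pool.Agent.H241R3.FV.TGen
import Pool.Agent.H241R3.FV.TParity
import Pool.Agent.H241R3.FV.TCoverT

/-! # Covering of a thin box -/

set_option autoImplicit false
set_option linter.unusedSectionVars false

open MeasureTheory Metric Set Filter Topology InnerProductGeometry
open Pool.Agent.H241R3.FV (E Sph Fill ext taskExt norm_sph)

namespace Pool.Agent.TH172.FV

variable {d : ℕ} {M : Type} [MetricSpace M]

lemma norm_le_sum {n : ℕ} (x : E n) : ‖x‖ ≤ ∑ i, |x i| := by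
  rw [EuclideanSpace.norm_eq]
  apply Real.sqrt_le_iff.mpr
  refine ⟨Finset.sum_nonneg fun i _ => abs_nonneg _, ?_⟩
  have := Finset.sum_sq_le_sq_sum_of_nonneg (s := Finset.univ) (f := fun i => |x i|)
    (fun i _ => abs_nonneg _)
  simpa [Real.norm_eq_abs] using this

lemma ball_sub (hd : 1 ≤ d) [CompactSpace M] (S : Fill d M) (hS : S.NonShort)
    (htop : S.Triangulated ∨ S.NoRetraction) (Φ : M → E (d + 1)) (K : ℝ) (hK : 0 ≤ K)
    (hΦ : ∀ q q', ‖Φ q - Φ q'‖ ≤ dist q q' * K) (hb : ∀ x, Φ (S.bd x) = (x : E (d + 1))) :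
    ball (0 : E (d + 1)) 1 ⊆ range Φ := by
  have hc : Continuous Φ := by
    have : LipschitzWith (Real.toNNReal K) Φ := by
      refine LipschitzWith.of_dist_le_mul fun q q' => ?_
      rw [dist_eq_norm, Real.coe_toNNReal _ hK, mul_comm]
      exact hΦ q q'
    exact this.continuous
  have hb' : ∀ x, Φ (S.bd x) = (1 : ℝ) • (x : E (d + 1)) := by
    intro x
    rw [hb, one_smul]
  rcases htop with htri | hno
  · exact Pool.Agent.H241R3.FV.TCoverT.taskCoverT Pool.Agent.H241R3.FV.TGen.taskGen
      Pool.Agent.H241R3.FV.TParity.taskParity Pool.Agent.H241R3.FV.TEven.taskEven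
      d hd M S.bd hS htri Φ 1 K one_pos hc hΦ hb'
  · exact Pool.Agent.H241R3.FV.TCover.taskCover (d + 1) (Nat.succ_pos d) M S.bd hno Φ 1
      one_pos hc hb'

section

variable {V : Type*} [NormedAddCommGroup V] [InnerProductSpace ℝ V] [FiniteDimensional ℝ V]
  [MeasurableSpace V] [BorelSpace V]

lemma inner_Wt (W : E (d + 1) →L[ℝ] V) (v : V) (x : E (d + 1)) :
    inner ℝ (Wt W v) x = inner ℝ (W x) v := by
  have hx : x = ∑ j, x j • (EuclideanSpace.single j (1 : ℝ) : E (d + 1)) := by
    ext k
    simp [Finset.sum_apply, Pi.single_apply]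
  rw [PiLp.inner_apply]
  conv_rhs => rw [hx]
  rw [map_sum, sum_inner]
  refine Finset.sum_congr rfl fun j _ => ?_
  rw [map_smul, real_inner_smul_left, Wt, Um_apply]
  simp

/-- The covering of a thin box. -/
lemma cover_box (hd : 1 ≤ d) [CompactSpace M] (S : Fill d M) (hS : S.NonShort)
    (htop : S.Triangulated ∨ S.NoRetraction) (J : E (d + 1) →L[ℝ] V) (w : M → V)
    (L : ℝ) (hL : 0 ≤ L) (hw : ∀ q q', ‖w q - w q'‖ ≤ L * dist q q')
    (hwJ : ∀ x, w (S.bd x) = J x) (v : Fin d → V) (hv : xi (fun i => Wt J (v i)) ≠ 0)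
    (δ : ℝ) (hδ : 0 < δ) (hδ2 : δ < Real.pi / 2) :
    ∃ g : M → ℝ, (∀ q q', |g q - g q'| ≤ dist q q') ∧ ∃ ε₀ : ℝ, 0 < ε₀ ∧
      ∀ z : E (d + 1), δ ≤ z 0 → z 0 ≤ Real.pi - δ → (∀ i : Fin d, |z i.succ| < ε₀) →
        ∃ q, (∀ x, q ≠ S.bd x) ∧ g q = z 0 ∧ ∀ i, inner ℝ (w q) (v i) = z i.succ := by
  classical
  set a : Fin d → E (d + 1) := fun i => Wt J (v i) with ha
  set X := xi a with hX
  have hXpos : 0 < ‖X‖ := norm_pos_iff.mpr hv
  set p0 : E (d + 1) := ‖X‖⁻¹ • X with hp0
  have hp1 : ‖p0‖ = 1 := by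
    rw [hp0, norm_smul, norm_inv, norm_norm]
    field_simp
  set p : Sph (d + 1) := ⟨p0, by simp [hp1]⟩ with hp
  have hpX : inner ℝ p0 X = ‖X‖ := by
    rw [hp0, real_inner_smul_left, real_inner_self_eq_norm_sq]
    field_simp
  have hap : ∀ i, inner ℝ (a i) p0 = 0 := by
    intro i
    rw [hp0, real_inner_smul_right, inner_xi_self, mul_zero]
  -- the matrix
  set A : Matrix (Fin (d + 1)) (Fin (d + 1)) ℝ :=
    Matrix.of fun i j => (Fin.cons p0 a : Fin (d + 1) → E (d + 1)) i j with hA
  have hAdet : A.det = ‖X‖ := by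
    have h1 : A.det = Dt p0 a := rfl
    rw [h1, Dt_inner, hpX]
  have hAu : IsUnit A.det := by
    rw [isUnit_iff_ne_zero, hAdet]
    exact hXpos.ne'
  have hAmv : ∀ x : E (d + 1), ∀ i, mv A x i =
      (Fin.cons (inner ℝ p0 x) (fun i => inner ℝ (a i) x) : Fin (d + 1) → ℝ) i := by
    intro x i
    simp only [mv, Matrix.mulVec, dotProduct, hA, Matrix.of_apply]
    refine Fin.cases ?_ (fun i' => ?_) i
    · simp [PiLp.inner_apply, mul_comm]
    · simp [PiLp.inner_apply, mul_comm]
  have hinv1 : ∀ x : E (d + 1), mv A⁻¹ (mv A x) = x := by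
    intro x
    ext k
    simp only [mv]
    rw [Matrix.mulVec_mulVec, Matrix.nonsing_inv_mul _ hAu, Matrix.one_mulVec]
  have hinv2 : ∀ x : E (d + 1), mv A (mv A⁻¹ x) = x := by
    intro x
    ext k
    simp only [mv]
    rw [Matrix.mulVec_mulVec, Matrix.mul_nonsing_inv _ hAu, Matrix.one_mulVec]
  -- `mv A⁻¹` as a continuous linear map
  set T : E (d + 1) →L[ℝ] E (d + 1) := LinearMap.toContinuousLinearMap
    { toFun := fun x => mv A⁻¹ x
      map_add' := by
        intro x y
        ext k
        simp only [mv, PiLp.add_apply]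
        have : (fun k => x k + y k) = (fun k => x k) + fun k => y k := rfl
        rw [this, Matrix.mulVec_add]
        rfl
      map_smul' := by
        intro c x
        ext k
        simp only [mv, PiLp.smul_apply, RingHom.id_apply]
        have : (fun k => c • x k) = c • fun k => x k := rfl
        rw [this, Matrix.mulVec_smul]
        rfl } with hT
  have hTa : ∀ x, T x = mv A⁻¹ x := fun x => rfl
  -- the function g
  obtain ⟨fa, fb, fc⟩ := taskExt (d + 1) (Nat.succ_pos d) M S.bd hS
  set g : M → ℝ := fun q => min (ext S.bd p q) Real.pi with hg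
  have hglip : ∀ q q', |g q - g q'| ≤ dist q q' := by
    intro q q'
    have h1 := abs_min_sub_min_le_max (ext S.bd p q) Real.pi (ext S.bd p q') Real.pi
    rw [sub_self, abs_zero, max_eq_left (abs_nonneg _)] at h1
    exact h1.trans (fa p q q')
  have hg0 : ∀ q, 0 ≤ g q := by
    intro q
    refine le_min ?_ Real.pi_pos.le
    unfold Pool.Agent.H241R3.FV.ext
    apply Real.iInf_nonneg
    intro x
    exact add_nonneg (angle_nonneg _ _) dist_nonneg
  have hgpi : ∀ q, g q ≤ Real.pi := fun q => min_le_right _ _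
  have hgb : ∀ x : Sph (d + 1), g (S.bd x) = angle p0 (x : E (d + 1)) := by
    intro x
    simp only [hg]
    rw [fc p x]
    exact min_eq_left (angle_le_pi _ _)
  -- the map Φ
  set F : M → E (d + 1) := fun q =>
    WithLp.toLp 2 (Fin.cons (Real.cos (g q)) fun i => inner ℝ (w q) (v i)) with hF
  have hFlip : ∀ q q', ‖F q - F q'‖ ≤ dist q q' * (1 + ∑ i, L * ‖v i‖) := by
    intro q q'
    refine (norm_le_sum _).trans ?_
    rw [Fin.sum_univ_succ, mul_add, mul_one, Finset.mul_sum]
    apply add_le_add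
    · have e : (F q - F q') 0 = Real.cos (g q) - Real.cos (g q') := by simp [hF]
      rw [e]
      have h1 : |Real.cos (g q) - Real.cos (g q')| ≤ |g q - g q'| := by
        have := Real.abs_cos_sub_cos_le (g q) (g q')
        exact this
      exact h1.trans (hglip q q')
    · refine Finset.sum_le_sum fun i _ => ?_
      have e : (F q - F q') i.succ = inner ℝ (w q - w q') (v i) := by
        simp [hF, inner_sub_left]
      rw [e]
      refine (abs_real_inner_le_norm _ _).trans ?_
      have h1 := hw q q'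
      calc ‖w q - w q'‖ * ‖v i‖ ≤ (L * dist q q') * ‖v i‖ :=
            mul_le_mul_of_nonneg_right h1 (norm_nonneg _)
        _ = _ := by ring
  have hFb : ∀ x : Sph (d + 1), F (S.bd x) = mv A (x : E (d + 1)) := by
    intro x
    ext i
    rw [hAmv]
    simp only [hF]
    refine Fin.cases ?_ (fun i' => ?_) i
    · simp only [Fin.cons_zero]
      rw [hgb, cos_angle, hp1, norm_sph]
      simp
    · simp only [Fin.cons_succ]
      rw [ha, inner_Wt, hwJ]
  have hcov : ball (0 : E (d + 1)) 1 ⊆ range fun q => T (F q) := by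
    refine ball_sub hd S hS htop _ (‖T‖ * (1 + ∑ i, L * ‖v i‖)) (by positivity) ?_ ?_
    · intro q q'
      rw [← map_sub]
      refine (T.le_opNorm _).trans ?_
      refine (mul_le_mul_of_nonneg_left (hFlip q q') (norm_nonneg _)).trans (le_of_eq ?_)
      ring
    · intro x
      rw [hFb, hTa, hinv1]
  refine ⟨g, hglip, (1 - Real.cos δ) / ((‖T‖ + 1) * (d + 1)), ?_, ?_⟩
  · have hcos : Real.cos δ < 1 := by
      have := Real.cos_lt_cos_of_nonneg_of_le_pi (le_refl 0) (by linarith [Real.pi_pos]) hδ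
      rwa [Real.cos_zero] at this
    apply div_pos (by linarith)
    positivity
  · intro z hz1 hz2 hz3
    have hcos : Real.cos δ < 1 := by
      have := Real.cos_lt_cos_of_nonneg_of_le_pi (le_refl 0) (by linarith [Real.pi_pos]) hδ
      rwa [Real.cos_zero] at this
    set c : ℝ := Real.cos (z 0) with hc
    have hcabs : |c| ≤ Real.cos δ := by
      rw [abs_le]
      constructor
      · rw [← Real.cos_pi_sub, hc]
        exact Real.cos_le_cos_of_nonneg_of_le_pi (by linarith) (by linarith) hz2
      · exact Real.cos_le_cos_of_nonneg_of_le_pi hδ.le (by linarith) hz1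
    set y : E (d + 1) := WithLp.toLp 2 (Fin.cons c fun i => z i.succ) with hy
    have hy2 : y = c • mv A p0 + WithLp.toLp 2 (Fin.cons 0 fun i => z i.succ) := by
      ext i
      simp only [PiLp.add_apply, PiLp.smul_apply, smul_eq_mul]
      rw [hAmv]
      refine Fin.cases ?_ (fun i' => ?_) i
      · simp only [hy, Fin.cons_zero]
        rw [real_inner_self_eq_norm_sq, hp1]
        ring
      · simp only [hy, Fin.cons_succ]
        rw [hap]
        ring
    have hTy : ‖T y‖ < 1 := by
      rw [hy2, map_add, map_smul]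
      have h1 : T (mv A p0) = p0 := by rw [hTa, hinv1]
      rw [h1]
      have h2 : ‖(WithLp.toLp 2 (Fin.cons 0 fun i => z i.succ) : E (d + 1))‖ ≤
          d * ((1 - Real.cos δ) / ((‖T‖ + 1) * (d + 1))) := by
        refine (norm_le_sum _).trans ?_
        rw [Fin.sum_univ_succ]
        simp only [Fin.cons_zero, abs_zero, zero_add, Fin.cons_succ]
        refine (Finset.sum_le_sum fun i _ => (hz3 i).le).trans ?_
        simp
      have h3 : ‖T (WithLp.toLp 2 (Fin.cons 0 fun i => z i.succ) : E (d + 1))‖ <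
          1 - Real.cos δ := by
        refine (T.le_opNorm _).trans_lt ?_
        refine (mul_le_mul_of_nonneg_left h2 (norm_nonneg _)).trans_lt ?_
        have hpos : 0 < 1 - Real.cos δ := by linarith
        have e : ‖T‖ * (d * ((1 - Real.cos δ) / ((‖T‖ + 1) * (d + 1)))) =
            (1 - Real.cos δ) * ((‖T‖ * d) / ((‖T‖ + 1) * (d + 1))) := by ring
        rw [e]
        have h4 : (‖T‖ * d) / ((‖T‖ + 1) * (d + 1)) < 1 := by
          rw [div_lt_one (by positivity)]
          have := norm_nonneg T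
          nlinarith
        nlinarith
      calc ‖c • p0 + T (WithLp.toLp 2 (Fin.cons 0 fun i => z i.succ) : E (d + 1))‖
          ≤ ‖c • p0‖ + ‖T (WithLp.toLp 2 (Fin.cons 0 fun i => z i.succ) : E (d + 1))‖ :=
            norm_add_le _ _
        _ < Real.cos δ + (1 - Real.cos δ) := by
            rw [norm_smul, hp1, mul_one, Real.norm_eq_abs]
            linarith
        _ = 1 := by ring
    obtain ⟨q, hq⟩ := hcov (by simpa using hTy : T y ∈ ball (0 : E (d + 1)) 1)
    simp only at hq
    have hFy : F q = y := by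
      have := congrArg (mv A) hq
      rw [hTa, hTa, hinv2, hinv2] at this
      exact this
    refine ⟨q, ?_, ?_, ?_⟩
    · rintro x rfl
      rw [← hFy, hFb, hTa, hinv1, norm_sph] at hTy
      exact lt_irrefl _ hTy
    · have h1 : Real.cos (g q) = c := by
        have := congrFun (congrArg WithLp.ofLp hFy) 0
        simpa [hF, hy] using this
      exact Real.injOn_cos ⟨hg0 q, hgpi q⟩ ⟨by linarith, by linarith⟩ h1
    · intro i
      have := congrFun (congrArg WithLp.ofLp hFy) i.succ
      simpa [hF, hy] using this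

end

end Pool.Agent.TH172.FV
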