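import Pool.Agent.TH172.FV.Rad

/-! # The criterion -/

set_option autoImplicit false
set_option linter.unusedSectionVars false

open MeasureTheory ProbabilityTheory Metric Set Filter Topology InnerProductGeometry
open Pool.Agent.H241R3.FV (E Sph gnorm RChart Fill norm_sph)

namespace Pool.Agent.TH172.FV

variable {d : ℕ} {M : Type} [MetricSpace M]

/-- the isometric embedding defined by a tight frame -/
noncomputable def frameIso {K : ℕ} (c : Fin K → ℝ) (hc : ∀ k, 0 ≤ c k) (x : Fin K → Sph (d + 1))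
    (hx : ∀ y : E (d + 1), ∑ k, c k * (inner ℝ (x k : E (d + 1)) y) ^ 2 = ‖y‖ ^ 2) :
    E (d + 1) →ₗᵢ[ℝ] E (K + 1) where
  toFun y := WithLp.toLp 2 (Fin.cons 0 fun k => √(c k) * inner ℝ (x k : E (d + 1)) y)
  map_add' y z := by
    ext i
    refine Fin.cases ?_ (fun i' => ?_) i
    · simp
    · simp [inner_add_right, mul_add]
  map_smul' t y := by
    ext i
    refine Fin.cases ?_ (fun i' => ?_) i
    · simp
    · simp only [Fin.cons_succ, RingHom.id_apply, PiLp.smul_apply, smul_eq_mul,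
        real_inner_smul_right]
      ring
  norm_map' y := by
    have h1 : ‖(WithLp.toLp 2 (Fin.cons 0 fun k => √(c k) * inner ℝ (x k : E (d + 1)) y) :
        E (K + 1))‖ ^ 2 = ‖y‖ ^ 2 := by
      rw [EuclideanSpace.real_norm_sq_eq, Fin.sum_univ_succ, ← hx y]
      simp only [Fin.cons_zero, Fin.cons_succ]
      rw [zero_pow two_ne_zero, zero_add]
      refine Finset.sum_congr rfl fun k _ => ?_
      rw [mul_pow, Real.sq_sqrt (hc k)]
    exact (sq_eq_sq₀ (norm_nonneg _) (norm_nonneg _)).mp h1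

lemma frame_sum {K : ℕ} (c : Fin K → ℝ) (x : Fin K → Sph (d + 1))
    (hx : ∀ y : E (d + 1), ∑ k, c k * (inner ℝ (x k : E (d + 1)) y) ^ 2 = ‖y‖ ^ 2) :
    ∑ k, c k = d + 1 := by
  have h1 : ∑ j : Fin (d + 1), ∑ k, c k * (inner ℝ (x k : E (d + 1))
      (EuclideanSpace.single j (1 : ℝ))) ^ 2 = d + 1 := by
    rw [Finset.sum_congr rfl fun j _ => hx (EuclideanSpace.single j (1 : ℝ))]
    simp
  rw [Finset.sum_comm] at h1
  rw [← h1]
  refine Finset.sum_congr rfl fun k _ => ?_
  rw [← Finset.mul_sum]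
  have h2 : ∑ j : Fin (d + 1), (inner ℝ (x k : E (d + 1))
      (EuclideanSpace.single j (1 : ℝ))) ^ 2 = 1 := by
    have h3 : ∀ j : Fin (d + 1), inner ℝ (x k : E (d + 1))
        (EuclideanSpace.single j (1 : ℝ)) = (x k : E (d + 1)) j := by
      intro j
      rw [real_inner_comm, EuclideanSpace.inner_single_left]
      simp
    simp_rw [h3]
    rw [← EuclideanSpace.real_norm_sq_eq, norm_sph, one_pow]
  rw [h2, mul_one]

lemma energy_le_vol (S : Fill d M) {N : ℕ} (F : M → E N) (m : ℝ)
    (h : ∀ i, ∀ᵐ p ∂(volume : Measure (E (d + 1))), p ∈ (S.chart i).U →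
      normSq (S.chart i) F p / (d + 1) ≤ m) :
    energy S F d ≤ ENNReal.ofReal (m ^ ((d : ℝ) / 2)) * S.vol := by
  unfold energy Pool.Agent.H241R3.FV.Fill.vol
  rw [← ENNReal.tsum_mul_left]
  refine ENNReal.tsum_le_tsum fun i => ?_
  rw [← lintegral_const_mul' _ _ ENNReal.ofReal_ne_top]
  refine setLIntegral_mono_ae' (S.chart i).meas_D ?_
  filter_upwards [h i] with p hp hpD
  have hp' := hp ((S.chart i).D_sub hpD)
  have h0 : 0 ≤ normSq (S.chart i) F p / (d + 1) :=
    div_nonneg (normSq_nonneg _ F hpD) (by positivity)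
  have hm : 0 ≤ m := h0.trans hp'
  rw [← ENNReal.ofReal_mul (by positivity)]
  apply ENNReal.ofReal_le_ofReal
  apply mul_le_mul_of_nonneg_right _ (Real.sqrt_nonneg _)
  exact Real.rpow_le_rpow h0 hp' (by positivity)

/-- The criterion: `1`-Lipschitz extensions `f k` of the distance functions from the points `x k`
of a tight frame and a `1`-Lipschitz function `b` which vanishes on the boundary. -/
theorem frame_vol (hd : 1 ≤ d) [CompactSpace M] (S : Fill d M) (hS : S.NonShort)
    (htop : S.Triangulated ∨ S.NoRetraction) (K : ℕ) (c : Fin K → ℝ) (hc : ∀ k, 0 ≤ c k)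
    (x : Fin K → Sph (d + 1))
    (hx : ∀ y : E (d + 1), ∑ k, c k * (inner ℝ (x k : E (d + 1)) y) ^ 2 = ‖y‖ ^ 2)
    (f : Fin K → M → ℝ) (hf : ∀ k, LipschitzWith 1 (f k))
    (hfb : ∀ k y, f k (S.bd y) = angle (x k : E (d + 1)) (y : E (d + 1)))
    (b : M → ℝ) (hb : LipschitzWith 1 b) (hbb : ∀ y, b (S.bd y) = 0)
    (ρ : ℝ) (hρ : 0 < ρ)
    (hR : ∀ q, ρ ≤ Real.sin (b q) ^ 2 + ∑ k, c k * Real.cos (f k q) ^ 2) :
    (volume : Measure (EuclideanSpace ℝ (Fin (d + 2)))).toSphere Set.univ / 2 ≤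
      ENNReal.ofReal (((d + 2 - ρ) / ((d + 1) * ρ)) ^ ((d : ℝ) / 2)) * S.vol := by
  have hf' : ∀ k q q', |f k q - f k q'| ≤ dist q q' := by
    intro k q q'
    have := (hf k).dist_le_mul q q'
    rwa [Real.dist_eq, NNReal.coe_one, one_mul] at this
  have hb' : ∀ q q', |b q - b q'| ≤ dist q q' := by
    intro q q'
    have := hb.dist_le_mul q q'
    rwa [Real.dist_eq, NNReal.coe_one, one_mul] at this
  set a : ℝ := (√ρ)⁻¹ with ha
  have hsρ : 0 < √ρ := Real.sqrt_pos.mpr hρ
  have ha0 : 0 < a := by rw [ha]; positivity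
  have ha2 : a ^ 2 = ρ⁻¹ := by rw [ha, inv_pow, Real.sq_sqrt hρ.le]
  set F := frameMap a c f b with hF
  have h1 := energy_ge' hd S hS htop (frameIso c hc x hx) F (by
      intro q
      have h2 := frameMap_normSq a c hc f b q
      have h3 := hR q
      rw [← hF, ha2] at h2
      have h5 : 1 ≤ ‖F q‖ ^ 2 := by
        rw [h2, ← inv_mul_cancel₀ hρ.ne']
        exact mul_le_mul_of_nonneg_left h3 (by positivity)
      nlinarith [norm_nonneg (F q)]) (a + ∑ k, √(c k) * a) (by positivity) (by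
      intro q q'
      refine (norm_le_sum _).trans ?_
      rw [Fin.sum_univ_succ, add_mul, Finset.sum_mul]
      apply add_le_add
      · have e : (F q - F q') 0 = a * (Real.sin (b q) - Real.sin (b q')) := by
          simp [hF, frameMap, mul_sub]
        rw [e, abs_mul, abs_of_pos ha0]
        exact mul_le_mul_of_nonneg_left
          ((Real.abs_sin_sub_sin_le (b q) (b q')).trans (hb' q q')) ha0.le
      · refine Finset.sum_le_sum fun k _ => ?_
        have e : (F q - F q') k.succ =
            √(c k) * a * (Real.cos (f k q) - Real.cos (f k q')) := by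
          simp [hF, frameMap, mul_sub, mul_assoc]
        rw [e, abs_mul, abs_of_nonneg (by positivity : 0 ≤ √(c k) * a)]
        exact mul_le_mul_of_nonneg_left
          ((Real.abs_cos_sub_cos_le _ _).trans (hf' k q q')) (by positivity)) a ha0 (by
      intro y
      ext i
      simp only [PiLp.smul_apply, smul_eq_mul]
      refine Fin.cases ?_ (fun k => ?_) i
      · simp [hF, frameMap, frameIso, hbb]
      · show √(c k) * (a * Real.cos (f k (S.bd y))) =
          a * (√(c k) * inner ℝ (x k : E (d + 1)) (y : E (d + 1)))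
        rw [hfb, cos_angle, norm_sph, norm_sph, mul_one, div_one]
        ring)
  refine h1.trans (energy_le_vol S F _ fun i => ?_)
  have hae : ∀ᵐ p ∂(volume : Measure (E (d + 1))), ∀ k, p ∈ (S.chart i).U →
      DifferentiableAt ℝ (fun q => f k ((S.chart i).map q)) p := by
    rw [ae_all_iff]
    intro k
    exact ae_diff (S.chart i) (f k) 1 zero_le_one fun q q' => by
      rw [Real.norm_eq_abs, one_mul]; exact hf' k q q'
  filter_upwards [hae, ae_diff (S.chart i) b 1 zero_le_one fun q q' => by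
      rw [Real.norm_eq_abs, one_mul]; exact hb' q q'] with p hp1 hp2 hpU
  have h2 := frame_grad (S.chart i) a c hc (frame_sum c x hx) f b hf' hb' ρ hR hpU
    (fun k => hp1 k hpU) (hp2 hpU)
  rw [ha2] at h2
  have e : (d + 2 - ρ) / ((d + 1) * ρ) = ρ⁻¹ * (d + 2 - ρ) / (d + 1) := by
    field_simp
  rw [e]
  exact div_le_div_of_nonneg_right h2 (by positivity)

/-- The energy inequalities. -/
theorem energy_all (hd : 1 ≤ d) [CompactSpace M] (S : Fill d M) (hS : S.NonShort)
    (htop : S.Triangulated ∨ S.NoRetraction) {N : ℕ} (J : E (d + 1) →ₗᵢ[ℝ] E N) (F : M → E N)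
    (hF : ∀ q, 1 ≤ ‖F q‖) (K : NNReal) (hFL : LipschitzWith K F)
    (hFJ : ∀ x, F (S.bd x) = J x) :
    ((volume : Measure (EuclideanSpace ℝ (Fin (d + 2)))).toSphere Set.univ / 2 ≤
      energy S F d) ∧
    ((volume : Measure (EuclideanSpace ℝ (Fin (d + 2)))).toSphere Set.univ / 2) ^ (d + 1) ≤
      S.vol * (energy S F ((d : ℝ) + 1)) ^ d ∧
    (energy S F ((d : ℝ) + 1) ≤
      (volume : Measure (EuclideanSpace ℝ (Fin (d + 2)))).toSphere Set.univ / 2 →
      (volume : Measure (EuclideanSpace ℝ (Fin (d + 2)))).toSphere Set.univ / 2 ≤ S.vol) ∧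
    (volume : Measure (EuclideanSpace ℝ (Fin (d + 2)))).toSphere Set.univ / 2 ≤
      (K : ENNReal) ^ d * S.vol := by
  have hFL' : ∀ q q', ‖F q - F q'‖ ≤ (K : ℝ) * dist q q' := by
    intro q q'
    have := hFL.dist_le_mul q q'
    rwa [dist_eq_norm] at this
  have hd' : (0 : ℝ) < d := by exact_mod_cast hd
  set H : ENNReal := (volume : Measure (EuclideanSpace ℝ (Fin (d + 2)))).toSphere Set.univ / 2
    with hH
  have h1 : H ≤ energy S F d := energy_ge' hd S hS htop J F hF K K.2 hFL' 1 one_pos fun x => by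
    rw [one_smul, hFJ]
  have h2 : H ^ (d + 1) ≤ S.vol * (energy S F ((d : ℝ) + 1)) ^ d := by
    have h3 := pow_le_pow_left₀ (by simp) (h1.trans (energy_holder hd S F)) (d + 1)
    refine h3.trans (le_of_eq ?_)
    rw [mul_pow, ← ENNReal.rpow_natCast, ← ENNReal.rpow_natCast, ← ENNReal.rpow_mul,
      ← ENNReal.rpow_mul]
    have e1 : 1 / (((d : ℝ) + 1) / d) * ((d + 1 : ℕ) : ℝ) = ((d : ℕ) : ℝ) := by
      push_cast
      field_simp
    have e2 : 1 / ((d : ℝ) + 1) * ((d + 1 : ℕ) : ℝ) = 1 := by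
      push_cast
      field_simp
    rw [e1, e2, ENNReal.rpow_one, ENNReal.rpow_natCast, mul_comm]
  have hHt : H ≠ ⊤ := by
    have : H = sn (d + 2) / 2 := rfl
    rw [this]
    exact ENNReal.div_ne_top (sn_ne_top _) (by norm_num)
  have hH0 : H ≠ 0 := by
    have : H = sn (d + 2) / 2 := rfl
    rw [this, Ne, ENNReal.div_eq_zero_iff, not_or]
    exact ⟨sn_ne_zero _ (by omega), by norm_num⟩
  refine ⟨h1, h2, ?_, ?_⟩
  · intro h3
    have h4 : H * H ^ d ≤ S.vol * H ^ d := by
      calc H * H ^ d = H ^ (d + 1) := by rw [pow_succ, mul_comm]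
        _ ≤ S.vol * (energy S F ((d : ℝ) + 1)) ^ d := h2
        _ ≤ S.vol * H ^ d := mul_le_mul_right (pow_le_pow_left₀ (by simp) h3 d) _
    exact (ENNReal.mul_le_mul_iff_left (pow_ne_zero _ hH0) (ENNReal.pow_ne_top hHt)).mp h4
  · rcases eq_or_lt_of_le (zero_le (a := K)) with hK | hK
    · -- a constant map
      exfalso
      have hc : ∀ q q', F q = F q' := by
        intro q q'
        have := hFL' q q'
        rw [← hK, NNReal.coe_zero, zero_mul] at this
        exact sub_eq_zero.mp (norm_le_zero_iff.mp this)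
      have hne : Nonempty (Sph (d + 1)) := ⟨⟨EuclideanSpace.single 0 1, by simp⟩⟩
      obtain ⟨x⟩ := hne
      have h3 := hc (S.bd x) (S.bd (-x))
      rw [hFJ, hFJ] at h3
      have h4 := J.injective h3
      have h5 : ((-x : Sph (d + 1)) : E (d + 1)) = -(x : E (d + 1)) := rfl
      rw [h5] at h4
      have h8 : (x : E (d + 1)) + x = 0 := by
        nth_rewrite 2 [h4]
        exact add_neg_cancel _
      rw [← two_smul ℝ] at h8
      have h6 : (x : E (d + 1)) = 0 := (smul_eq_zero.mp h8).resolve_left two_ne_zero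
      have h7 := norm_sph x
      rw [h6, norm_zero] at h7
      exact zero_ne_one h7
    · have hK' : (0 : ℝ) < K := by exact_mod_cast hK
      have h3 := energy_le S F K hK' hFL'
      rw [ENNReal.ofReal_coe_nnreal] at h3
      exact h1.trans h3

end Pool.Agent.TH172.FV
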