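import Pool.Agent.TH172.FV.Pt

/-! # The vector product of independent Gaussian vectors is almost surely nonzero -/

set_option autoImplicit false
set_option linter.unusedSectionVars false

open MeasureTheory ProbabilityTheory Real Set
open Pool.Agent.H241R3.FV (E)
open Pool.Agent.TH172.FA (gam law_one)

namespace Pool.Agent.TH172.FV

variable {d : ℕ}

lemma std_null (x : E (d + 1)) (hx : x ≠ 0) :
    stdGaussian (E (d + 1)) {b | inner ℝ b x = 0} = 0 := by
  have hx' : 0 < ‖x‖ := norm_pos_iff.mpr hx
  set w : E (d + 1) := ‖x‖⁻¹ • x with hw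
  have hw1 : ‖w‖ = 1 := by
    rw [hw, norm_smul, norm_inv, norm_norm]
    field_simp
  have h1 : gam {0} = 0 := by
    have := nullSingletonClass_gaussianReal (μ := 0) (v := 1) one_ne_zero
    exact measure_singleton 0
  rw [← law_one hw1, Measure.map_apply (by fun_prop) (measurableSet_singleton 0)] at h1
  refine measure_mono_null ?_ h1
  intro b hb
  simp only [mem_preimage, mem_singleton_iff]
  rw [hw, real_inner_smul_left, real_inner_comm b x]
  have : inner ℝ b x = 0 := hb
  rw [this, mul_zero]

lemma null_of_det (h : PM d d {a | Matrix.det (Matrix.of fun i j : Fin d => a i j) = 0} = 0) :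
    PM d (d + 1) {a | xi a = 0} = 0 := by
  have hm : MeasurableSet {a : Fin d → E d |
      Matrix.det (Matrix.of fun i j : Fin d => a i j) = 0} :=
    measurable_det (measurableSet_singleton 0)
  have h1 := (mp_tail (d := d)).measure_preimage hm.nullMeasurableSet
  rw [h] at h1
  refine measure_mono_null ?_ h1
  intro a ha
  simp only [mem_preimage, mem_ofPred_eq]
  have h2 : xi a 0 = 0 := by
    have : xi a = 0 := ha
    rw [this]; rfl
  rw [xi_apply] at h2
  simpa using h2

lemma det_null (n : ℕ) :
    PM n n {a | Matrix.det (Matrix.of fun i j : Fin n => a i j) = 0} = 0 := by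
  induction n with
  | zero => simp
  | succ d ih =>
    have hY := null_of_det ih
    have hm : MeasurableSet {a : Fin (d + 1) → E (d + 1) |
        Matrix.det (Matrix.of fun i j : Fin (d + 1) => a i j) = 0} :=
      measurable_det (measurableSet_singleton 0)
    have h := (measurePreserving_piFinSuccAbove (α := fun _ : Fin (d + 1) => E (d + 1))
      (fun _ : Fin (d + 1) => (stdGaussian (E (d + 1)))) 0).symm
    rw [← h.measure_preimage hm.nullMeasurableSet, Measure.prod_apply_symm (h.measurable hm)]
    rw [lintegral_eq_zero_iff (measurable_measure_prodMk_right (h.measurable hm))]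
    have h2 : ∀ᵐ a ∂(PM d (d + 1)), xi a ≠ 0 := by
      rw [ae_iff]
      simpa using hY
    filter_upwards [h2] with a ha
    simp only [Pi.zero_apply]
    refine measure_mono_null ?_ (std_null (xi a) ha)
    intro b hb
    simp only [mem_preimage, mem_ofPred_eq] at hb
    rw [mem_ofPred_eq, ← Dt_inner]
    unfold Dt
    rw [← hb]
    congr 1
    ext i j
    simp only [Matrix.of_apply]
    refine Fin.cases ?_ (fun i' => ?_) i
    · simp [MeasurableEquiv.piFinSuccAbove_symm_apply, Fin.insertNthEquiv]
    · simp [MeasurableEquiv.piFinSuccAbove_symm_apply, Fin.insertNthEquiv]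

section law

variable {V : Type*} [NormedAddCommGroup V] [InnerProductSpace ℝ V] [FiniteDimensional ℝ V]
  [MeasurableSpace V] [BorelSpace V]

lemma law_orth {n : ℕ} (u : Fin n → V) (hu : Orthonormal ℝ u) :
    (stdGaussian V).map (Um u) = stdGaussian (E n) := by
  have i1 : IsFiniteMeasure ((stdGaussian V).map (Um u)) := Measure.isFiniteMeasure_map _ _
  apply Measure.ext_of_charFunDual
  funext L
  rw [charFunDual_map, charFunDual_stdGaussian, charFunDual_stdGaussian]
  set c : Fin n → ℝ := fun j => L (EuclideanSpace.single j 1) with hc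
  have h1 : L.comp (Um u) = innerSL ℝ (∑ j, c j • u j) := by
    ext v
    simp only [ContinuousLinearMap.comp_apply, innerSL_apply_apply, sum_inner,
      real_inner_smul_left]
    rw [lin_eq L]
    refine Finset.sum_congr rfl fun j _ => ?_
    rw [Um_apply]
  have h2 : L = innerSL ℝ (WithLp.toLp 2 c : E n) := by
    ext v
    simp only [innerSL_apply_apply]
    rw [lin_eq L, PiLp.inner_apply]
    refine Finset.sum_congr rfl fun j _ => ?_
    simp [hc, mul_comm]
  have h3 : ‖L.comp (Um u)‖ ^ 2 = ∑ j, c j ^ 2 := by
    rw [h1, innerSL_apply_norm, ← real_inner_self_eq_norm_sq, hu.inner_sum]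
    refine Finset.sum_congr rfl fun j _ => ?_
    simp [sq]
  have h4 : ‖L‖ ^ 2 = ∑ j, c j ^ 2 := by
    rw [h2, innerSL_apply_norm, EuclideanSpace.real_norm_sq_eq]
  have h5 : ‖L.comp (Um u)‖ = ‖L‖ := by
    have := h3.trans h4.symm
    exact (sq_eq_sq₀ (norm_nonneg _) (norm_nonneg _)).mp this
  rw [h5]

lemma ae_xi_ne (J : E (d + 1) →ₗᵢ[ℝ] V) :
    ∀ᵐ v ∂(Measure.pi fun _ : Fin d => stdGaussian V),
      xi (fun i => Wt J.toContinuousLinearMap (v i)) ≠ 0 := by
  have horth : Orthonormal ℝ fun j : Fin (d + 1) => J.toContinuousLinearMap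
      (EuclideanSpace.single j (1 : ℝ)) := by
    have h1 : Orthonormal ℝ fun j : Fin (d + 1) => (EuclideanSpace.single j (1 : ℝ) : E (d + 1)) :=
      EuclideanSpace.orthonormal_single
    exact h1.comp_linearIsometry J
  have hT : MeasurePreserving (fun v : V => Wt J.toContinuousLinearMap v) (stdGaussian V)
      (stdGaussian (E (d + 1))) := ⟨(Um _).continuous.measurable, law_orth _ horth⟩
  have hpi : MeasurePreserving (fun (v : Fin d → V) i => Wt J.toContinuousLinearMap (v i))
      (Measure.pi fun _ => stdGaussian V) (PM d (d + 1)) :=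
    measurePreserving_pi _ _ fun _ => hT
  have hm : MeasurableSet {a : Fin d → E (d + 1) | xi a = 0} :=
    measurable_xi (measurableSet_singleton 0)
  have h1 := hpi.measure_preimage hm.nullMeasurableSet
  rw [null_of_det (det_null d)] at h1
  rw [ae_iff]
  simpa using h1

end law

end Pool.Agent.TH172.FV
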