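import Pool.Agent.TH172.FV.Avg
import Pool.Agent.TH172.FV.Cov
import Pool.Agent.TH172.FV.Zer

/-! # The energy inequality for all fillings -/

set_option autoImplicit false
set_option linter.unusedSectionVars false

open MeasureTheory ProbabilityTheory Metric Set Filter Topology
open Pool.Agent.H241R3.FV (E Sph gnorm RChart Fill)

namespace Pool.Agent.TH172.FV

variable {d : ℕ} {M : Type} [MetricSpace M]
variable {V : Type*} [NormedAddCommGroup V] [InnerProductSpace ℝ V] [FiniteDimensional ℝ V]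
  [MeasurableSpace V] [BorelSpace V]

/-- The squared norm `|dw|²` of the differential of a map `w` in a chart: the trace of
`G⁻¹ (dw)ᵀ dw`, where `dw` is the Fréchet derivative of `w` in the chart. -/
noncomputable def normSq (C : RChart (d + 1) M) (w : M → V) (p : E (d + 1)) : ℝ :=
  ∑ i, ∑ j, (C.G p)⁻¹ i j * inner ℝ
    (fderiv ℝ (fun q => w (C.map q)) p (EuclideanSpace.single i 1))
    (fderiv ℝ (fun q => w (C.map q)) p (EuclideanSpace.single j 1))

/-- The `s`-energy of `w`, with `n = d + 1`: the integral over the filling of `(|dw|²/n)^(s/2)`. -/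
noncomputable def energy (S : Fill d M) (w : M → V) (s : ℝ) : ENNReal :=
  ∑' i, ∫⁻ p in (S.chart i).D,
    ENNReal.ofReal ((normSq (S.chart i) w p / (d + 1)) ^ (s / 2) * √((S.chart i).G p).det)

lemma normSq_eq (C : RChart (d + 1) M) (w : M → V) (p : E (d + 1)) :
    normSq C w p = etr (C.G p) (dw C w p) := rfl

lemma etr_nonneg (G : Matrix (Fin (d + 1)) (Fin (d + 1)) ℝ) (hG : G.PosDef)
    (W : E (d + 1) →L[ℝ] V) : 0 ≤ etr G W := by
  have h := hG.inv.posSemidef
  have h1 : ∀ k, ∃ b : OrthonormalBasis (Fin (Module.finrank ℝ V)) ℝ V, b = k := fun k => ⟨k, rfl⟩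
  set b := stdOrthonormalBasis ℝ V
  have h2 : etr G W = ∑ k, ∑ i, ∑ j, inner ℝ (b k) (W (EuclideanSpace.single i 1)) * G⁻¹ i j *
      inner ℝ (b k) (W (EuclideanSpace.single j 1)) := by
    unfold etr
    rw [Finset.sum_comm' (s := Finset.univ) (t := fun _ => Finset.univ) (t' := Finset.univ)
      (s' := fun _ => Finset.univ) (by simp)]
    have e : ∀ i j : Fin (d + 1), inner ℝ (W (EuclideanSpace.single i 1))
        (W (EuclideanSpace.single j 1)) = ∑ k, inner ℝ (b k) (W (EuclideanSpace.single i 1)) *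
          inner ℝ (b k) (W (EuclideanSpace.single j 1)) := by
      intro i j
      rw [← b.sum_inner_mul_inner]
      refine Finset.sum_congr rfl fun k _ => ?_
      rw [real_inner_comm]
    simp_rw [e, Finset.mul_sum]
    rw [Finset.sum_comm]
    have e3 : ∀ f : Fin (d + 1) → Fin (d + 1) → Fin (Module.finrank ℝ V) → ℝ,
        ∑ x, ∑ y, ∑ k, f x y k = ∑ k, ∑ x, ∑ y, f x y k := by
      intro f
      rw [Finset.sum_congr rfl fun x _ => Finset.sum_comm, Finset.sum_comm]
    rw [e3]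
    refine Finset.sum_congr rfl fun k _ => Finset.sum_congr rfl fun i _ =>
      Finset.sum_congr rfl fun j _ => ?_
    ring
  rw [h2]
  refine Finset.sum_nonneg fun k _ => ?_
  have h3 := h.dotProduct_mulVec_nonneg (fun i => inner ℝ (b k) (W (EuclideanSpace.single i 1)))
  refine h3.trans (le_of_eq ?_)
  simp only [dotProduct, Matrix.mulVec, Finset.mul_sum, star_trivial, mul_assoc]

/-- the box -/
def box (d : ℕ) (δ ε : ℝ) : Set (E (d + 1)) :=
  {z | δ ≤ z 0 ∧ z 0 ≤ Real.pi - δ ∧ ∀ i : Fin d, |z i.succ| < ε}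

lemma volume_box (δ ε : ℝ) :
    volume (box d δ ε) = ENNReal.ofReal (Real.pi - 2 * δ) * ENNReal.ofReal (2 * ε) ^ d := by
  set s : Fin (d + 1) → Set ℝ := Fin.cons (Icc δ (Real.pi - δ)) fun _ => Ioo (-ε) ε with hs
  have hpre : (WithLp.toLp 2 : (Fin (d + 1) → ℝ) → E (d + 1)) ⁻¹' (box d δ ε) = univ.pi s := by
    ext z
    rw [mem_univ_pi]
    constructor
    · rintro ⟨h1, h2, h3⟩ i
      refine Fin.cases ?_ (fun i' => ?_) i
      · exact ⟨h1, h2⟩
      · have := h3 i'
        rw [abs_lt] at this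
        exact this
    · intro h
      refine ⟨(h 0).1, (h 0).2, fun i => ?_⟩
      have := h i.succ
      simp only [hs, Fin.cons_succ] at this
      rw [abs_lt]
      exact this
  have hbm : MeasurableSet (box d δ ε) := by
    have : box d δ ε = {z | δ ≤ z 0} ∩ ({z | z 0 ≤ Real.pi - δ} ∩
        ⋂ i : Fin d, {z | |z i.succ| < ε}) := by
      ext z
      simp [box]
    rw [this]
    have hm : ∀ i, Measurable fun z : E (d + 1) => z i := fun i =>
      (PiLp.continuous_apply 2 _ i).measurable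
    refine (measurableSet_le measurable_const (hm 0)).inter
      ((measurableSet_le (hm 0) measurable_const).inter (MeasurableSet.iInter fun i => ?_))
    exact measurableSet_lt (hm i.succ).abs measurable_const
  rw [← (PiLp.volume_preserving_toLp (Fin (d + 1))).measure_preimage hbm.nullMeasurableSet, hpre,
    volume_pi_pi, Fin.prod_univ_succ]
  simp only [hs, Fin.cons_zero, Fin.cons_succ, Real.volume_Icc, Real.volume_Ioo,
    Finset.prod_const, Finset.card_univ, Fintype.card_fin]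
  congr 2
  · ring_nf
  · congr 1
    ring

lemma box_le (hd : 1 ≤ d) [CompactSpace M] (S : Fill d M) (hS : S.NonShort)
    (htop : S.Triangulated ∨ S.NoRetraction) (J : E (d + 1) →ₗᵢ[ℝ] V) (w : M → V)
    (L : ℝ) (hL : 0 ≤ L) (hw : ∀ q q', ‖w q - w q'‖ ≤ L * dist q q')
    (hwJ : ∀ x, w (S.bd x) = J x) (v : Fin d → V)
    (hv : xi (fun i => Wt J.toContinuousLinearMap (v i)) ≠ 0)
    (δ : ℝ) (hδ : 0 < δ) (hδ2 : δ < Real.pi / 2) :
    ∃ ε₀ : ℝ, 0 < ε₀ ∧ ∀ ε : ℝ, ε < ε₀ →
      ENNReal.ofReal (Real.pi - 2 * δ) * ENNReal.ofReal (2 * ε) ^ d ≤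
        ∑' i, It (S.chart i) w ε v := by
  obtain ⟨g, hg, ε₀, hε₀, hcov⟩ := cover_box hd S hS htop J.toContinuousLinearMap w L hL hw
    (fun x => hwJ x) v hv δ hδ hδ2
  refine ⟨ε₀, hε₀, fun ε hε => ?_⟩
  rw [← volume_box]
  have := S.countable
  have hsub : box d δ ε ⊆ ⋃ i, psi (S.chart i) g w v '' ((S.chart i).D ∩ tube (S.chart i) w v ε) := by
    rintro z ⟨h1, h2, h3⟩
    obtain ⟨q, hq1, hq2, hq3⟩ := hcov z h1 h2 fun i => (h3 i).trans hε
    rcases S.cover q with ⟨x, hx⟩ | ⟨i, p, hp, hpq⟩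
    · exact absurd hx.symm (hq1 x)
    · refine mem_iUnion.mpr ⟨i, p, ⟨hp, ?_⟩, ?_⟩
      · intro k
        rw [hpq, hq3]
        exact h3 k
      · unfold psi
        ext k
        rw [hpq]
        refine Fin.cases ?_ (fun k' => ?_) k
        · simp [hq2]
        · simp [hq3]
  calc volume (box d δ ε)
      ≤ volume (⋃ i, psi (S.chart i) g w v '' ((S.chart i).D ∩ tube (S.chart i) w v ε)) :=
        measure_mono hsub
    _ ≤ ∑' i, volume (psi (S.chart i) g w v '' ((S.chart i).D ∩ tube (S.chart i) w v ε)) :=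
        measure_iUnion_le _
    _ ≤ _ := by
        refine ENNReal.tsum_le_tsum fun i => ?_
        rw [It_eq _ w L hL hw]
        exact chart_area (S.chart i) g hg w L hL hw v ε

lemma pi_le (hd : 1 ≤ d) [CompactSpace M] (S : Fill d M) (hS : S.NonShort)
    (htop : S.Triangulated ∨ S.NoRetraction) (J : E (d + 1) →ₗᵢ[ℝ] V) (w : M → V)
    (hw1 : ∀ q, ‖w q‖ = 1) (L : ℝ) (hL : 0 ≤ L) (hw : ∀ q q', ‖w q - w q'‖ ≤ L * dist q q')
    (hwJ : ∀ x, w (S.bd x) = J x) :
    ENNReal.ofReal Real.pi ≤ (ENNReal.ofReal (√(2 * Real.pi)) ^ d)⁻¹ * cd d *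
      energy S w d := by
  have := S.countable
  have hs0 : ENNReal.ofReal (√(2 * Real.pi)) ≠ 0 := by
    rw [Ne, ENNReal.ofReal_eq_zero, not_le]
    positivity
  -- the energies
  have hE : energy S w d = ∑' i, ∫⁻ p in (S.chart i).D,
      ENNReal.ofReal (√((etr ((S.chart i).G p) (dw (S.chart i) w p) / (d + 1)) ^ d) *
          √((S.chart i).G p).det) := by
    unfold energy
    refine tsum_congr fun i => ?_
    refine setLIntegral_congr_fun (S.chart i).meas_D fun p hp => ?_
    rw [normSq_eq]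
    have h0 : 0 ≤ etr ((S.chart i).G p) (dw (S.chart i) w p) / (d + 1) :=
      div_nonneg (etr_nonneg _ ((S.chart i).pos_G p ((S.chart i).D_sub hp)) _) (by positivity)
    congr 2
    rw [Real.sqrt_eq_rpow, ← Real.rpow_natCast, ← Real.rpow_mul h0]
    congr 1
    ring
  set P : Measure (Fin d → V) := Measure.pi fun _ => stdGaussian V with hP
  -- the normalised integrals
  set ek : ℕ → ℝ := fun k => 1 / ((k : ℝ) + 1) with hek
  have hekpos : ∀ k, 0 < ek k := fun k => by simp only [hek]; positivity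
  set Q : ℕ → (Fin d → V) → ENNReal := fun k v =>
    (ENNReal.ofReal (2 * ek k) ^ d)⁻¹ * ∑' i, It (S.chart i) w (ek k) v with hQ
  have hQm : ∀ k, Measurable (Q k) := by
    intro k
    apply Measurable.const_mul
    exact Measurable.tsum fun i => measurable_It (S.chart i) w L hL hw (ek k)
  have he0 : ∀ k, ENNReal.ofReal (2 * ek k) ^ d ≠ 0 := by
    intro k
    apply pow_ne_zero
    rw [Ne, ENNReal.ofReal_eq_zero, not_le]
    have := hekpos k
    positivity
  have het : ∀ k, ENNReal.ofReal (2 * ek k) ^ d ≠ ⊤ := fun k =>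
    ENNReal.pow_ne_top ENNReal.ofReal_ne_top
  have hQint : ∀ k, ∫⁻ v, Q k v ∂P ≤ (ENNReal.ofReal (√(2 * Real.pi)) ^ d)⁻¹ * cd d *
      energy S w d := by
    intro k
    simp only [hQ]
    rw [lintegral_const_mul _ (Measurable.tsum fun i => measurable_It (S.chart i) w L hL hw (ek k)),
      lintegral_tsum fun i => (measurable_It (S.chart i) w L hL hw (ek k)).aemeasurable]
    have h1 : ∑' i, ∫⁻ v, It (S.chart i) w (ek k) v ∂P ≤
        ENNReal.ofReal (2 * ek k / √(2 * Real.pi)) ^ d * cd d * energy S w d := by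
      rw [hE, ← ENNReal.tsum_mul_left]
      exact ENNReal.tsum_le_tsum fun i => lintegral_It (S.chart i) w hw1 L hL hw (ek k)
    refine (mul_le_mul_right h1 _).trans (le_of_eq ?_)
    rw [ENNReal.ofReal_div_of_pos (by positivity), ENNReal.div_eq_inv_mul, mul_pow,
      ENNReal.inv_pow]
    have h2 : (ENNReal.ofReal (2 * ek k) ^ d)⁻¹ * ENNReal.ofReal (2 * ek k) ^ d = 1 :=
      ENNReal.inv_mul_cancel (he0 k) (het k)
    calc _ = ((ENNReal.ofReal (2 * ek k) ^ d)⁻¹ * ENNReal.ofReal (2 * ek k) ^ d) *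
          ((ENNReal.ofReal (√(2 * Real.pi)) ^ d)⁻¹ * cd d * energy S w d) := by
          rw [ENNReal.inv_pow, ENNReal.inv_pow]; ring
      _ = _ := by rw [h2, one_mul]
  have hmain : ∀ δ : ℝ, 0 < δ → δ < Real.pi / 2 → ENNReal.ofReal (Real.pi - 2 * δ) ≤
      (ENNReal.ofReal (√(2 * Real.pi)) ^ d)⁻¹ * cd d * energy S w d := by
    intro δ hδ hδ2
    have hlim : ∀ᵐ v ∂P, ENNReal.ofReal (Real.pi - 2 * δ) ≤ liminf (fun k => Q k v) atTop := by
      filter_upwards [ae_xi_ne (d := d) J] with v hv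
      obtain ⟨ε₀, hε₀, h⟩ := box_le hd S hS htop J w L hL hw hwJ v hv δ hδ hδ2
      refine le_liminf_of_le (by isBoundedDefault) ?_
      have h1 : Tendsto ek atTop (𝓝 0) := tendsto_one_div_add_atTop_nhds_zero_nat
      filter_upwards [h1.eventually (gt_mem_nhds hε₀)] with k hk
      simp only [hQ]
      have h2 := h (ek k) hk
      calc ENNReal.ofReal (Real.pi - 2 * δ) = (ENNReal.ofReal (2 * ek k) ^ d)⁻¹ *
            (ENNReal.ofReal (Real.pi - 2 * δ) * ENNReal.ofReal (2 * ek k) ^ d) := by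
            rw [mul_comm (ENNReal.ofReal (Real.pi - 2 * δ)), ← mul_assoc,
              ENNReal.inv_mul_cancel (he0 k) (het k), one_mul]
        _ ≤ _ := mul_le_mul_right h2 _
    calc ENNReal.ofReal (Real.pi - 2 * δ) = ∫⁻ _v, ENNReal.ofReal (Real.pi - 2 * δ) ∂P := by simp
      _ ≤ ∫⁻ v, liminf (fun k => Q k v) atTop ∂P := lintegral_mono_ae hlim
      _ ≤ liminf (fun k => ∫⁻ v, Q k v ∂P) atTop := lintegral_liminf_le hQm
      _ ≤ liminf (fun _ : ℕ => (ENNReal.ofReal (√(2 * Real.pi)) ^ d)⁻¹ * cd d *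
            energy S w d) atTop := liminf_le_liminf (Eventually.of_forall hQint)
      _ = _ := by simp
  have hlim2 : Tendsto (fun k : ℕ => ENNReal.ofReal (Real.pi - 2 * ek k)) atTop
      (𝓝 (ENNReal.ofReal Real.pi)) := by
    have h1 : Tendsto ek atTop (𝓝 0) := tendsto_one_div_add_atTop_nhds_zero_nat
    have h2 := (h1.const_mul 2).const_sub Real.pi
    rw [mul_zero, sub_zero] at h2
    exact (ENNReal.continuous_ofReal.tendsto _).comp h2
  refine le_of_tendsto hlim2 ?_
  have h1 : Tendsto ek atTop (𝓝 0) := tendsto_one_div_add_atTop_nhds_zero_nat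
  filter_upwards [h1.eventually (gt_mem_nhds (by positivity : 0 < Real.pi / 2))] with k hk
  exact hmain (ek k) (hekpos k) hk

/-- The energy inequality. -/
theorem energy_ge (hd : 1 ≤ d) [CompactSpace M] (S : Fill d M) (hS : S.NonShort)
    (htop : S.Triangulated ∨ S.NoRetraction) (J : E (d + 1) →ₗᵢ[ℝ] V) (w : M → V)
    (hw1 : ∀ q, ‖w q‖ = 1) (L : ℝ) (hL : 0 ≤ L) (hw : ∀ q q', ‖w q - w q'‖ ≤ L * dist q q')
    (hwJ : ∀ x, w (S.bd x) = J x) :
    (volume : Measure (EuclideanSpace ℝ (Fin (d + 2)))).toSphere Set.univ / 2 ≤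
      energy S w d := by
  have h := pi_le hd S hS htop J w hw1 L hL hw hwJ
  have hs0 : ENNReal.ofReal (√(2 * Real.pi)) ^ d ≠ 0 := by
    apply pow_ne_zero
    rw [Ne, ENNReal.ofReal_eq_zero, not_le]
    positivity
  have hst : ENNReal.ofReal (√(2 * Real.pi)) ^ d ≠ ⊤ := ENNReal.pow_ne_top ENNReal.ofReal_ne_top
  have h1 : ENNReal.ofReal Real.pi * sn (d + 2) ≤ ENNReal.ofReal Real.pi *
      (2 * energy S w d) := by
    calc ENNReal.ofReal Real.pi * sn (d + 2)
        ≤ ((ENNReal.ofReal (√(2 * Real.pi)) ^ d)⁻¹ * cd d * energy S w d) * sn (d + 2) :=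
          mul_le_mul_left h _
      _ = (ENNReal.ofReal (√(2 * Real.pi)) ^ d)⁻¹ * (cd d * sn (d + 2)) * energy S w d := by ring
      _ = ((ENNReal.ofReal (√(2 * Real.pi)) ^ d)⁻¹ * ENNReal.ofReal (√(2 * Real.pi)) ^ d) *
            ENNReal.ofReal (2 * Real.pi) * energy S w d := by rw [cd_mul]; ring
      _ = ENNReal.ofReal (2 * Real.pi) * energy S w d := by
          rw [ENNReal.inv_mul_cancel hs0 hst, one_mul]
      _ = _ := by
          rw [ENNReal.ofReal_mul (by norm_num)]
          simp only [ENNReal.ofReal_ofNat]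
          ring
  have h2 : sn (d + 2) ≤ 2 * energy S w d := by
    refine (ENNReal.mul_le_mul_iff_right ?_ ENNReal.ofReal_ne_top).mp h1
    rw [Ne, ENNReal.ofReal_eq_zero, not_le]
    exact Real.pi_pos
  have h3 : (volume : Measure (EuclideanSpace ℝ (Fin (d + 2)))).toSphere Set.univ =
      sn (d + 2) := rfl
  rw [h3]
  exact ENNReal.div_le_of_le_mul' h2

end Pool.Agent.TH172.FV
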