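import Pool.Agent.TH172.FV.Cof
import Pool.Agent.TH172.FA.Gauss

/-! # Gaussian averages of the vector product -/

set_option autoImplicit false

open MeasureTheory ProbabilityTheory Real
open Pool.Agent.H241R3.FV (E)
open Pool.Agent.TH172.FA (gam charFunDual_gam)

namespace Pool.Agent.TH172.FV

section law

set_option linter.unusedSectionVars false

variable {V : Type*} [NormedAddCommGroup V] [InnerProductSpace ℝ V] [FiniteDimensional ℝ V]
  [MeasurableSpace V] [BorelSpace V]

/-- `v ↦ (⟪u j, v⟫)_j` -/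
noncomputable def Um {n : ℕ} (u : Fin n → V) : V →L[ℝ] E n :=
  ((PiLp.continuousLinearEquiv 2 ℝ (fun _ : Fin n => ℝ)).symm : (Fin n → ℝ) →L[ℝ] E n).comp
    (ContinuousLinearMap.pi fun j => innerSL ℝ (u j))

lemma Um_apply {n : ℕ} (u : Fin n → V) (v : V) (j : Fin n) : Um u v j = inner ℝ (u j) v := by
  simp [Um]

/-- the diagonal map -/
noncomputable def Dm {n : ℕ} (l : Fin n → ℝ) : E n →L[ℝ] E n :=
  ((PiLp.continuousLinearEquiv 2 ℝ (fun _ : Fin n => ℝ)).symm : (Fin n → ℝ) →L[ℝ] E n).comp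
    (ContinuousLinearMap.pi fun j => l j • (PiLp.proj 2 (fun _ : Fin n => ℝ) j : E n →L[ℝ] ℝ))

lemma Dm_apply {n : ℕ} (l : Fin n → ℝ) (z : E n) (j : Fin n) : Dm l z j = l j * z j := by
  simp [Dm]

lemma Dm_eq {n : ℕ} (l : Fin n → ℝ) (z : E n) : Dm l z = WithLp.toLp 2 fun j => l j * z j := by
  ext j
  rw [Dm_apply]

lemma lin_eq {n : ℕ} (b : StrongDual ℝ (E n)) (x : E n) :
    b x = ∑ j, b (EuclideanSpace.single j 1) * x j := by
  have hx : x = ∑ j, x j • (EuclideanSpace.single j (1 : ℝ) : E n) := by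
    ext k
    simp [Finset.sum_apply, Pi.single_apply]
  conv_lhs => rw [hx]
  rw [map_sum]
  refine Finset.sum_congr rfl fun j _ => ?_
  rw [map_smul, smul_eq_mul, mul_comm]

/-- The joint law of a family of orthogonal linear functionals of a standard Gaussian vector. -/
lemma law_gen {n : ℕ} {w : V} (hw : ‖w‖ = 1) (u : Fin n → V) (hwu : ∀ j, inner ℝ w (u j) = 0)
    (hu : ∀ j k, j ≠ k → inner ℝ (u j) (u k) = 0) (l : Fin n → ℝ) (hl : ∀ j, l j ^ 2 = ‖u j‖ ^ 2) :
    (stdGaussian V).map (fun v => (inner ℝ w v, Um u v)) =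
      gam.prod ((stdGaussian (E n)).map (Dm l)) := by
  set T : V →L[ℝ] ℝ × E n := (innerSL ℝ w).prod (Um u) with hT
  have e1 : (fun v => (inner ℝ w v, Um u v)) = T := by
    funext v
    simp [hT]
  rw [e1]
  have i1 : IsFiniteMeasure ((stdGaussian V).map T) := Measure.isFiniteMeasure_map _ _
  have i2 : IsFiniteMeasure ((stdGaussian (E n)).map (Dm l)) := Measure.isFiniteMeasure_map _ _
  apply Measure.ext_of_charFunDual
  funext L
  rw [charFunDual_map, charFunDual_prod, charFunDual_map, charFunDual_stdGaussian,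
    charFunDual_stdGaussian, charFunDual_gam, ← Complex.exp_add]
  congr 1
  set a : ℝ := L (1, 0) with ha
  set b : StrongDual ℝ (E n) := L.comp (ContinuousLinearMap.inr ℝ ℝ (E n)) with hb
  set c : Fin n → ℝ := fun j => b (EuclideanSpace.single j 1) with hc
  have hL : ∀ (x : ℝ) (y : E n), L (x, y) = a * x + ∑ j, c j * y j := by
    intro x y
    have : ((x, y) : ℝ × E n) = x • ((1, 0) : ℝ × E n) + (0, y) := by simp
    rw [this, map_add, map_smul, smul_eq_mul, ← ha, mul_comm x a]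
    have h2 : L (0, y) = b y := by simp [hb]
    rw [h2, lin_eq b y]
  have k1 : (L.comp (ContinuousLinearMap.inl ℝ ℝ (E n))) 1 = a := by
    simp [ha]
  have hLT : L.comp T = innerSL ℝ (a • w + ∑ j, c j • u j) := by
    ext v
    simp only [ContinuousLinearMap.comp_apply, hT, ContinuousLinearMap.prod_apply,
      innerSL_apply_apply, hL, inner_add_left, real_inner_smul_left, sum_inner, Um_apply]
  have hbD : b.comp (Dm l) = innerSL ℝ (WithLp.toLp 2 fun j => c j * l j : E n) := by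
    ext v
    simp only [ContinuousLinearMap.comp_apply, innerSL_apply_apply]
    rw [lin_eq b, PiLp.inner_apply]
    refine Finset.sum_congr rfl fun j _ => ?_
    rw [Dm_apply]
    simp only [hc]
    simp
    ring
  rw [k1, hLT, hbD, innerSL_apply_norm, innerSL_apply_norm]
  have hn : ‖a • w + ∑ j, c j • u j‖ ^ 2 = a ^ 2 + ∑ j, (c j * l j) ^ 2 := by
    rw [← real_inner_self_eq_norm_sq]
    have hws : inner ℝ w (∑ j, c j • u j) = 0 := by
      rw [inner_sum]
      refine Finset.sum_eq_zero fun j _ => ?_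
      rw [real_inner_smul_right, hwu, mul_zero]
    have hss : inner ℝ (∑ j, c j • u j) (∑ j, c j • u j) = ∑ j, (c j * l j) ^ 2 := by
      rw [sum_inner]
      refine Finset.sum_congr rfl fun j _ => ?_
      rw [inner_sum, Finset.sum_eq_single j]
      · rw [real_inner_smul_left, real_inner_smul_right, real_inner_self_eq_norm_sq, ← hl]
        ring
      · intro k _ hk
        rw [real_inner_smul_left, real_inner_smul_right, hu j k hk.symm, mul_zero, mul_zero]
      · simp
    have hsw : inner ℝ (∑ j, c j • u j) (a • w) = 0 := by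
      rw [real_inner_comm, real_inner_smul_left, hws, mul_zero]
    rw [inner_add_left, inner_add_right, inner_add_right, hss, hsw, real_inner_smul_left,
      real_inner_smul_left, real_inner_smul_right, hws, real_inner_self_eq_norm_sq, hw]
    ring
  have hn2 : ‖(WithLp.toLp 2 fun j => c j * l j : E n)‖ ^ 2 = ∑ j, (c j * l j) ^ 2 := by
    rw [EuclideanSpace.real_norm_sq_eq]
  have hn' : ((‖a • w + ∑ j, c j • u j‖ : ℝ) : ℂ) ^ 2 =
      ((a ^ 2 + ∑ j, (c j * l j) ^ 2 : ℝ) : ℂ) := by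
    rw [← hn]; push_cast; rfl
  have hn2' : ((‖(WithLp.toLp 2 fun j => c j * l j : E n)‖ : ℝ) : ℂ) ^ 2 =
      ((∑ j, (c j * l j) ^ 2 : ℝ) : ℂ) := by
    rw [← hn2]; push_cast; rfl
  rw [hn', hn2']
  push_cast
  ring

end law

/-- `d` independent standard Gaussian vectors of `ℝ^n` -/
noncomputable abbrev PM (d n : ℕ) : Measure (Fin d → E n) :=
  Measure.pi fun _ => stdGaussian (E n)

/-- The mean of the norm of the vector product of `d` Gaussian vectors of `ℝ^(d+1)`. -/
noncomputable def cd (d : ℕ) : ENNReal := ∫⁻ a, ENNReal.ofReal ‖xi a‖ ∂(PM d (d + 1))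

lemma mp_iso {d n : ℕ} (f : E n ≃ₗᵢ[ℝ] E n) :
    MeasurePreserving (fun (a : Fin d → E n) i => f (a i)) (PM d n) (PM d n) := by
  refine measurePreserving_pi _ _ fun i => ⟨f.continuous.measurable, ?_⟩
  exact stdGaussian_map f

lemma mp_perm {d n : ℕ} (σ : Equiv.Perm (Fin n)) :
    MeasurePreserving (fun (a : Fin d → E n) i => (WithLp.toLp 2 fun k => a i (σ k) : E n))
      (PM d n) (PM d n) := by
  have h := mp_iso (d := d) (LinearIsometryEquiv.piLpCongrLeft 2 ℝ ℝ σ.symm)
  convert h using 3 with a i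
  ext k
  rw [LinearIsometryEquiv.piLpCongrLeft_apply]
  simp [Equiv.piCongrLeft']

variable {d : ℕ}

lemma measurable_weighted (m : Fin (d + 1) → ℝ) (σ : Fin (d + 1) → Fin (d + 1)) :
    Measurable fun a : Fin d → E (d + 1) =>
      ENNReal.ofReal (√(∑ j, m j ^ 2 * xi a (σ j) ^ 2)) := by
  apply Measurable.ennreal_ofReal
  apply Measurable.sqrt
  apply Finset.measurable_sum
  intro j _
  apply Measurable.const_mul
  apply Measurable.pow_const
  exact (PiLp.continuous_apply 2 _ (σ j)).measurable.comp measurable_xi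

lemma lintegral_weighted (m : Fin (d + 1) → ℝ) :
    ∫⁻ a, ENNReal.ofReal (√(∑ j, m j ^ 2 * xi a j ^ 2)) ∂(PM d (d + 1)) ≤
      ENNReal.ofReal (√((∑ j, m j ^ 2) / (d + 1))) * cd d := by
  have hinv : ∀ c : Fin (d + 1),
      ∫⁻ a, ENNReal.ofReal (√(∑ j, m j ^ 2 * xi a j ^ 2)) ∂(PM d (d + 1)) =
      ∫⁻ a, ENNReal.ofReal (√(∑ j, m j ^ 2 * xi a (j + c) ^ 2)) ∂(PM d (d + 1)) := by
    intro c
    have h1 := (mp_perm (d := d) (Equiv.addRight c : Equiv.Perm (Fin (d + 1)))).lintegral_comp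
      (measurable_weighted m id)
    simp only [id] at h1
    rw [← h1]
    apply lintegral_congr
    intro a
    congr 2
    refine Finset.sum_congr rfl fun j _ => ?_
    rw [xi_perm]
    simp
  have hpt : ∀ a : Fin d → E (d + 1),
      ∑ c : Fin (d + 1), ENNReal.ofReal (√(∑ j, m j ^ 2 * xi a (j + c) ^ 2)) ≤
      ENNReal.ofReal ((d + 1) * √((∑ j, m j ^ 2) / (d + 1))) * ENNReal.ofReal ‖xi a‖ := by
    intro a
    rw [← ENNReal.ofReal_sum_of_nonneg (fun c _ => Real.sqrt_nonneg _),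
      ← ENNReal.ofReal_mul (by positivity)]
    apply ENNReal.ofReal_le_ofReal
    have hnn : ∀ c : Fin (d + 1), 0 ≤ ∑ j, m j ^ 2 * xi a (j + c) ^ 2 := fun c => by positivity
    have h2 : (∑ c : Fin (d + 1), √(∑ j, m j ^ 2 * xi a (j + c) ^ 2)) ^ 2 ≤
        (d + 1) * ∑ c : Fin (d + 1), ∑ j, m j ^ 2 * xi a (j + c) ^ 2 := by
      have h3 := sq_sum_le_card_mul_sum_sq (s := (Finset.univ : Finset (Fin (d + 1))))
        (f := fun c => √(∑ j, m j ^ 2 * xi a (j + c) ^ 2))
      simp only [Finset.card_univ, Fintype.card_fin, Nat.cast_add, Nat.cast_one] at h3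
      refine h3.trans (le_of_eq ?_)
      congr 1
      refine Finset.sum_congr rfl fun c _ => ?_
      rw [Real.sq_sqrt (hnn c)]
    have h4 : ∑ c : Fin (d + 1), ∑ j, m j ^ 2 * xi a (j + c) ^ 2 =
        (∑ j, m j ^ 2) * ‖xi a‖ ^ 2 := by
      rw [Finset.sum_comm, Finset.sum_mul]
      refine Finset.sum_congr rfl fun j _ => ?_
      rw [← Finset.mul_sum, EuclideanSpace.real_norm_sq_eq]
      congr 1
      exact Equiv.sum_comp (Equiv.addLeft j) fun k => xi a k ^ 2
    rw [h4] at h2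
    have h5 : 0 ≤ (d + 1) * √((∑ j, m j ^ 2) / (d + 1)) * ‖xi a‖ := by positivity
    apply le_of_sq_le_sq _ h5 |> fun h => h
    rw [mul_pow, mul_pow, Real.sq_sqrt (by positivity)]
    refine h2.trans (le_of_eq ?_)
    field_simp
  have hsum : (d + 1 : ENNReal) *
      ∫⁻ a, ENNReal.ofReal (√(∑ j, m j ^ 2 * xi a j ^ 2)) ∂(PM d (d + 1)) ≤
      ENNReal.ofReal ((d + 1) * √((∑ j, m j ^ 2) / (d + 1))) * cd d := by
    calc (d + 1 : ENNReal) *
        ∫⁻ a, ENNReal.ofReal (√(∑ j, m j ^ 2 * xi a j ^ 2)) ∂(PM d (d + 1))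
        = ∑ c : Fin (d + 1), ∫⁻ a, ENNReal.ofReal (√(∑ j, m j ^ 2 * xi a (j + c) ^ 2))
            ∂(PM d (d + 1)) := by
          rw [Finset.sum_congr rfl fun c _ => (hinv c).symm]
          simp
      _ = ∫⁻ a, ∑ c : Fin (d + 1), ENNReal.ofReal (√(∑ j, m j ^ 2 * xi a (j + c) ^ 2))
            ∂(PM d (d + 1)) := by
          rw [lintegral_finsetSum]
          intro c _
          exact measurable_weighted m fun j => j + c
      _ ≤ ∫⁻ a, ENNReal.ofReal ((d + 1) * √((∑ j, m j ^ 2) / (d + 1))) * ENNReal.ofReal ‖xi a‖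
            ∂(PM d (d + 1)) := lintegral_mono hpt
      _ = _ := by
          rw [lintegral_const_mul]
          · rfl
          · exact (measurable_xi.norm).ennreal_ofReal
  rw [ENNReal.ofReal_mul (by positivity), mul_assoc] at hsum
  have h6 : ENNReal.ofReal ((d : ℝ) + 1) = (d : ENNReal) + 1 := by
    rw [ENNReal.ofReal_add (by positivity) (by norm_num)]
    simp
  rw [h6] at hsum
  have h7 : (d : ENNReal) + 1 ≠ 0 := by simp
  have h8 : (d : ENNReal) + 1 ≠ ⊤ := by
    rw [← h6]; exact ENNReal.ofReal_ne_top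
  exact (ENNReal.mul_le_mul_iff_right h7 h8).mp hsum

end Pool.Agent.TH172.FV
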