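import Pool.Agent.TH172.FV.Gau1

/-! # The mean norm of the vector product: the constant -/

set_option autoImplicit false

open MeasureTheory ProbabilityTheory Real
open Pool.Agent.H241R3.FV (E)
open Pool.Agent.TH172.FA (gam law_one)

namespace Pool.Agent.TH172.FV

/-- mean norm of a Gaussian vector -/
noncomputable def Xn (n : ℕ) : ENNReal := ∫⁻ b, ENNReal.ofReal ‖b‖ ∂(stdGaussian (E n))

/-- mean absolute value of a Gaussian variable -/
noncomputable def X1 : ENNReal := ∫⁻ z, ENNReal.ofReal |z| ∂gam

/-- area of the unit sphere of `ℝ^n` -/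
noncomputable def sn (n : ℕ) : ENNReal := (volume : Measure (E n)).toSphere Set.univ

/-- mean absolute value of a Gaussian determinant -/
noncomputable def DD (n : ℕ) : ENNReal :=
  ∫⁻ a, ENNReal.ofReal |Matrix.det (Matrix.of fun i j : Fin n => a i j)| ∂(PM n n)

variable {d : ℕ}

lemma measurable_Dt (b : E (d + 1)) : Measurable fun a : Fin d → E (d + 1) => Dt b a := by
  simp_rw [Dt_inner]
  exact (continuous_const.inner continuous_id).measurable.comp measurable_xi

lemma measurable_det {n : ℕ} : Measurable fun a : Fin n → E n =>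
    Matrix.det (Matrix.of fun i j : Fin n => a i j) := by
  apply Continuous.measurable
  apply Continuous.matrix_det
  apply continuous_matrix
  intro i k
  have h1 : Continuous fun a : Fin n → E n => a i := continuous_apply i
  exact (PiLp.continuous_apply 2 _ k).comp h1

/-- the marginal: forgetting the first coordinate -/
lemma mp_tail : MeasurePreserving
    (fun (a : Fin d → E (d + 1)) i => (WithLp.toLp 2 fun k : Fin d => a i k.succ : E d))
      (PM d (d + 1)) (PM d d) := by
  refine measurePreserving_pi (fun _ : Fin d => stdGaussian (E (d + 1)))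
    (fun _ : Fin d => stdGaussian (E d))
    (f := fun _ x => (WithLp.toLp 2 fun k : Fin d => x k.succ : E d)) fun i => ?_
  have hT : (fun x : E (d + 1) => (WithLp.toLp 2 fun k : Fin d => x k.succ : E d)) =
      Um (fun k : Fin d => (EuclideanSpace.single k.succ (1 : ℝ) : E (d + 1))) := by
    funext x
    ext k
    rw [Um_apply]
    simp [EuclideanSpace.inner_single_left]
  rw [hT]
  refine ⟨(Um _).continuous.measurable, ?_⟩
  have h := law_gen (V := E (d + 1)) (w := EuclideanSpace.single 0 (1 : ℝ)) (by simp)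
    (fun k : Fin d => (EuclideanSpace.single k.succ (1 : ℝ) : E (d + 1)))
    (by intro j; simp [EuclideanSpace.inner_single_left])
    (by
      intro j k hjk
      simp [EuclideanSpace.inner_single_left, hjk.symm])
    (fun _ => 1) (by intro j; simp)
  have h1 : Measure.map Prod.snd _ = Measure.map Prod.snd _ :=
    congrArg (fun μ : Measure (ℝ × E d) => μ.map Prod.snd) h
  rw [Measure.map_map measurable_snd (by fun_prop)] at h1
  have e1 : (Prod.snd ∘ fun v : E (d + 1) => ((inner ℝ (EuclideanSpace.single 0 (1 : ℝ)) v : ℝ),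
      Um (fun k : Fin d => (EuclideanSpace.single k.succ (1 : ℝ) : E (d + 1))) v)) =
      fun v => Um (fun k : Fin d => (EuclideanSpace.single k.succ (1 : ℝ) : E (d + 1))) v := rfl
  rw [e1] at h1
  have i2 : IsProbabilityMeasure ((stdGaussian (E d)).map (Dm (fun _ : Fin d => (1 : ℝ)))) :=
    Measure.isProbabilityMeasure_map (by fun_prop)
  rw [Measure.map_snd_prod] at h1
  have e2 : (Dm (fun _ : Fin d => (1 : ℝ)) : E d → E d) = id := by
    funext z
    ext k
    rw [Dm_apply]
    simp
  rw [h1]
  simp [e2]

lemma lintegral_xi_zero :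
    ∫⁻ a, ENNReal.ofReal |xi a 0| ∂(PM d (d + 1)) = DD d := by
  unfold DD
  rw [← mp_tail.lintegral_comp (measurable_det.abs.ennreal_ofReal)]
  apply lintegral_congr
  intro a
  congr 1
  rw [xi_apply]
  simp

/-- the rotation -/
lemma lintegral_Dt (b : E (d + 1)) :
    ∫⁻ a, ENNReal.ofReal |Dt b a| ∂(PM d (d + 1)) = ENNReal.ofReal ‖b‖ * DD d := by
  have h0 : ∀ r : ℝ, 0 ≤ r → ∀ a : Fin d → E (d + 1),
      |Dt (r • EuclideanSpace.single 0 (1 : ℝ)) a| = r * |xi a 0| := by
    intro r hr a
    rw [Dt_eq, Finset.sum_eq_single 0]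
    · simp [abs_mul, abs_of_nonneg hr]
    · intro j _ hj
      simp [hj]
    · simp
  set e : E (d + 1) := ‖b‖ • EuclideanSpace.single 0 (1 : ℝ) with he
  have hnorm : ‖b‖ = ‖e‖ := by
    rw [he, norm_smul]
    simp
  set f : E (d + 1) ≃ₗᵢ[ℝ] E (d + 1) := (Submodule.span ℝ {b - e})ᗮ.reflection with hf
  have hfb : f b = e := Submodule.reflection_sub hnorm
  have h1 : ∫⁻ a, ENNReal.ofReal |Dt b a| ∂(PM d (d + 1)) =
      ∫⁻ a, ENNReal.ofReal |Dt e a| ∂(PM d (d + 1)) := by
    rw [← (mp_iso (d := d) f).lintegral_comp ((measurable_Dt e).abs.ennreal_ofReal)]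
    apply lintegral_congr
    intro a
    rw [← hfb, abs_Dt_isometry]
  rw [h1, ← lintegral_xi_zero, ← lintegral_const_mul]
  · apply lintegral_congr
    intro a
    rw [he, h0 _ (norm_nonneg _), ENNReal.ofReal_mul (norm_nonneg _)]
  · apply Measurable.ennreal_ofReal
    apply Measurable.abs
    exact (PiLp.continuous_apply 2 _ 0).measurable.comp measurable_xi

lemma lintegral_inner (x : E (d + 1)) :
    ∫⁻ b, ENNReal.ofReal |inner ℝ b x| ∂(stdGaussian (E (d + 1))) = ENNReal.ofReal ‖x‖ * X1 := by
  by_cases hx : x = 0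
  · simp [hx]
  · have hx' : 0 < ‖x‖ := norm_pos_iff.mpr hx
    set w : E (d + 1) := ‖x‖⁻¹ • x with hw
    have hw1 : ‖w‖ = 1 := by
      rw [hw, norm_smul, norm_inv, norm_norm]
      field_simp
    unfold X1
    rw [← law_one hw1, lintegral_map (by fun_prop) (by fun_prop), ← lintegral_const_mul]
    · apply lintegral_congr
      intro b
      rw [← ENNReal.ofReal_mul (norm_nonneg _)]
      congr 1
      rw [hw, real_inner_smul_left, abs_mul, abs_of_pos (by positivity : 0 < ‖x‖⁻¹),
        real_inner_comm x b]
      field_simp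
    · fun_prop

/-- the measure on the matrices with one more row -/
lemma DD_succ_eq :
    DD (d + 1) = ∫⁻ b, ∫⁻ a, ENNReal.ofReal |Dt b a| ∂(PM d (d + 1))
      ∂(stdGaussian (E (d + 1))) := by
  unfold DD
  have h := (measurePreserving_piFinSuccAbove (α := fun _ : Fin (d + 1) => E (d + 1))
    (fun _ : Fin (d + 1) => (stdGaussian (E (d + 1)))) 0).symm
  rw [← h.lintegral_comp_emb (MeasurableEquiv.measurableEmbedding _), lintegral_prod]
  · apply lintegral_congr
    intro b
    apply lintegral_congr
    intro a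
    unfold Dt
    congr 3
    ext i j
    simp only [Matrix.of_apply]
    refine Fin.cases ?_ (fun i' => ?_) i
    · simp [MeasurableEquiv.piFinSuccAbove_symm_apply, Fin.insertNthEquiv]
    · simp [MeasurableEquiv.piFinSuccAbove_symm_apply, Fin.insertNthEquiv]
  · exact ((measurable_det.abs.ennreal_ofReal).comp h.measurable).aemeasurable

lemma DD_succ : DD (d + 1) = Xn (d + 1) * DD d := by
  rw [DD_succ_eq]
  simp_rw [lintegral_Dt]
  rw [lintegral_mul_const]
  · rfl
  · fun_prop

lemma DD_succ' : DD (d + 1) = cd d * X1 := by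
  rw [DD_succ_eq, lintegral_lintegral_swap]
  · simp_rw [Dt_inner, lintegral_inner]
    rw [lintegral_mul_const]
    · rfl
    · exact (measurable_xi.norm).ennreal_ofReal
  · apply Measurable.aemeasurable
    simp_rw [Dt_inner]
    apply Measurable.ennreal_ofReal
    apply Measurable.abs
    exact continuous_inner.measurable.comp
      (measurable_fst.prodMk (measurable_xi.comp measurable_snd))

lemma DD_zero : DD 0 = 1 := by
  unfold DD
  simp

end Pool.Agent.TH172.FV
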