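import Pool.Agent.TH172.FV.Gau2

/-! # The value of the constant -/

set_option autoImplicit false

open MeasureTheory ProbabilityTheory Real
open Pool.Agent.H241R3.FV (E)
open Pool.Agent.TH172.FA (gam law_one)

namespace Pool.Agent.TH172.FV

theorem lintegral_fin_prod {n : ℕ} (μ : Fin n → Measure ℝ) [∀ i, SigmaFinite (μ i)]
    (f : Fin n → ℝ → ENNReal) (hf : ∀ i, Measurable (f i)) :
    ∫⁻ x : Fin n → ℝ, ∏ i, f i (x i) ∂(Measure.pi μ) = ∏ i, ∫⁻ x, f i x ∂(μ i) := by
  induction n with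
  | zero => simp
  | succ n n_ih =>
      calc
        _ = ∫⁻ x : ℝ × (Fin n → ℝ),
            f 0 x.1 * ∏ i : Fin n, f (Fin.succ i) (x.2 i)
            ∂((μ 0).prod (Measure.pi (fun i ↦ μ i.succ))) := by
          rw [← ((measurePreserving_piFinSuccAbove μ 0).symm).lintegral_comp_emb
            (MeasurableEquiv.measurableEmbedding _)]
          simp_rw [MeasurableEquiv.piFinSuccAbove_symm_apply, Fin.insertNthEquiv,
            Fin.prod_univ_succ, Fin.insertNth_zero, Equiv.coe_fn_mk, Fin.cons_succ,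
            Fin.zero_succAbove, cast_eq, Fin.cons_zero]
        _ = (∫⁻ x, f 0 x ∂μ 0)
            * ∏ i : Fin n, ∫⁻ (x : ℝ), f (Fin.succ i) x ∂(μ i.succ) := by
          rw [← n_ih (fun i => μ i.succ) (fun i => f i.succ) (fun i => hf _)]
          exact lintegral_prod_mul (hf 0).aemeasurable (Finset.measurable_prod _ (fun i _ =>
            (hf _).comp (measurable_pi_apply i))).aemeasurable
        _ = ∏ i, ∫⁻ x, f i x ∂(μ i) := by rw [Fin.prod_univ_succ]

theorem pi_withDensity {n : ℕ} (g : Fin n → ℝ → ENNReal) (hg : ∀ i, Measurable (g i))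
    [∀ i, SigmaFinite ((volume : Measure ℝ).withDensity (g i))] :
    Measure.pi (fun i => (volume : Measure ℝ).withDensity (g i)) =
      (Measure.pi (fun _ : Fin n => (volume : Measure ℝ))).withDensity (fun y => ∏ i, g i (y i)) := by
  apply Measure.pi_eq
  intro s hs
  rw [withDensity_apply _ (MeasurableSet.univ_pi hs), Measure.restrict_pi_pi,
    lintegral_fin_prod _ _ hg]
  apply Finset.prod_congr rfl
  intro i _
  rw [withDensity_apply _ (hs i)]

/-- the Gaussian density -/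
lemma lintegral_std (n : ℕ) (f : ℝ → ℝ) (hf : Continuous f) (hf0 : ∀ r, 0 ≤ r → 0 ≤ f r) :
    ∫⁻ b, ENNReal.ofReal (f ‖b‖) ∂(stdGaussian (E n)) =
      ∫⁻ x : E n, ENNReal.ofReal (((√(2 * π))⁻¹) ^ n * (rexp (-‖x‖ ^ 2 / 2) * f ‖x‖)) := by
  have h0 : gam = volume.withDensity (gaussianPDF 0 1) :=
    gaussianReal_of_var_ne_zero 0 one_ne_zero
  have hsf : SigmaFinite ((volume : Measure ℝ).withDensity (gaussianPDF 0 1)) := by
    rw [← h0]; infer_instance
  have hmf : Measurable fun b : E n => ENNReal.ofReal (f ‖b‖) := by fun_prop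
  rw [← map_pi_eq_stdGaussian, lintegral_map hmf (by fun_prop)]
  have h1 : (Measure.pi fun _ : Fin n => gaussianReal 0 1) =
      (Measure.pi (fun _ : Fin n => (volume : Measure ℝ))).withDensity
        (fun y => ∏ i, gaussianPDF 0 1 (y i)) := by
    have h2 : (Measure.pi fun _ : Fin n => gaussianReal 0 1) =
        Measure.pi fun _ : Fin n => (volume : Measure ℝ).withDensity (gaussianPDF 0 1) := by
      congr 1
      funext i
      exact h0
    rw [h2]
    exact pi_withDensity (fun _ => gaussianPDF 0 1) (fun _ => measurable_gaussianPDF 0 1)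
  have hmp : Measurable fun y : Fin n → ℝ => ∏ i, gaussianPDF 0 1 (y i) :=
    Finset.measurable_prod _ fun i _ => (measurable_gaussianPDF 0 1).comp (measurable_pi_apply i)
  rw [h1, lintegral_withDensity_eq_lintegral_mul _ hmp (by fun_prop)]
  have hvol := (PiLp.volume_preserving_toLp (Fin n)).lintegral_comp
    (f := fun x : E n => ENNReal.ofReal (((√(2 * π))⁻¹) ^ n * (rexp (-‖x‖ ^ 2 / 2) * f ‖x‖)))
    (by fun_prop)
  rw [← hvol, volume_pi]
  apply lintegral_congr
  intro y
  simp only [Pi.mul_apply]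
  have h3 : ∏ i, gaussianPDF 0 1 (y i) = ENNReal.ofReal (∏ i, gaussianPDFReal 0 1 (y i)) := by
    rw [ENNReal.ofReal_prod_of_nonneg fun i _ => gaussianPDFReal_nonneg 0 1 _]
    rfl
  rw [h3, ← ENNReal.ofReal_mul (Finset.prod_nonneg fun i _ => gaussianPDFReal_nonneg 0 1 _)]
  congr 1
  have h4 : ∏ i, gaussianPDFReal 0 1 (y i) =
      ((√(2 * π))⁻¹) ^ n * rexp (-‖(WithLp.toLp 2 y : E n)‖ ^ 2 / 2) := by
    simp only [gaussianPDFReal, NNReal.coe_one, mul_one, sub_zero]
    rw [Finset.prod_mul_distrib, Finset.prod_const, Finset.card_univ, Fintype.card_fin,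
      ← Real.exp_sum, EuclideanSpace.real_norm_sq_eq]
    congr 2
    rw [neg_div, Finset.sum_div, ← Finset.sum_neg_distrib]
    refine Finset.sum_congr rfl fun i _ => ?_
    ring
  rw [h4]
  ring

/-- the radial integral -/
noncomputable def II (n : ℕ) : ℝ := ∫ y in Set.Ioi (0 : ℝ), y ^ n * rexp (-y ^ 2 / 2)

lemma II_pos (n : ℕ) : 0 < II n := by
  have h := integral_rpow_mul_exp_neg_mul_rpow (p := 2) (q := n) (b := 1 / 2) (by norm_num)
    (by have : (0 : ℝ) ≤ n := Nat.cast_nonneg n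
        linarith) (by norm_num)
  have e : II n = ∫ x in Set.Ioi (0 : ℝ), x ^ (n : ℝ) * rexp (-(1 / 2) * x ^ (2 : ℝ)) := by
    unfold II
    apply setIntegral_congr_fun measurableSet_Ioi
    intro x _
    simp only [Real.rpow_natCast, Real.rpow_two]
    congr 2
    ring
  rw [e, h]
  have hg : 0 < Real.Gamma (((n : ℝ) + 1) / 2) := Real.Gamma_pos_of_pos (by positivity)
  positivity

lemma finrank_E (n : ℕ) : Module.finrank ℝ (E n) = n := by simp

/-- the volume of the unit ball -/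
noncomputable def om (n : ℕ) : ℝ := (volume : Measure (E n)).real (Metric.ball 0 1)

lemma sn_eq (n : ℕ) : sn n = ENNReal.ofReal (n * om n) := by
  unfold sn om
  rw [Measure.toSphere_apply_univ, finrank_E, ENNReal.ofReal_mul (by positivity), Measure.real,
    ENNReal.ofReal_toReal measure_ball_lt_top.ne]
  simp

lemma om_pos (n : ℕ) : 0 < om n := by
  unfold om
  rw [Measure.real, ENNReal.toReal_pos_iff]
  exact ⟨Metric.measure_ball_pos _ _ one_pos, measure_ball_lt_top⟩

lemma lintegral_radial (n : ℕ) (hn : 0 < n) (f : ℝ → ℝ) (hf : Continuous f)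
    (hf0 : ∀ r, 0 ≤ r → 0 ≤ f r)
    (hpos : 0 < ∫ y in Set.Ioi (0 : ℝ), y ^ (n - 1) * (rexp (-y ^ 2 / 2) * f y)) :
    ∫⁻ b, ENNReal.ofReal (f ‖b‖) ∂(stdGaussian (E n)) =
      ENNReal.ofReal (((√(2 * π))⁻¹) ^ n *
        (n * om n * ∫ y in Set.Ioi (0 : ℝ), y ^ (n - 1) * (rexp (-y ^ 2 / 2) * f y))) := by
  have : Nonempty (Fin n) := ⟨⟨0, hn⟩⟩
  have hnt : Nontrivial (E n) := inferInstance
  rw [lintegral_std n f hf hf0]
  have h1 := integral_fun_norm_addHaar (volume : Measure (E n))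
    (fun r => rexp (-r ^ 2 / 2) * f r)
  rw [finrank_E] at h1
  simp only [nsmul_eq_mul, smul_eq_mul] at h1
  have h2 : (volume : Measure (E n)).real (Metric.ball 0 1) = om n := rfl
  rw [h2] at h1
  have hn' : (0 : ℝ) < n := by exact_mod_cast hn
  have hint : Integrable fun x : E n => rexp (-‖x‖ ^ 2 / 2) * f ‖x‖ := by
    by_contra h
    rw [integral_undef h] at h1
    have := mul_pos hn' (mul_pos (om_pos n) hpos)
    linarith
  rw [← ofReal_integral_eq_lintegral_ofReal (hint.const_mul _)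
    (Filter.Eventually.of_forall fun x => by
      have := hf0 ‖x‖ (norm_nonneg x)
      positivity), integral_const_mul, h1, ← mul_assoc (n : ℝ)]

lemma Xn_eq (n : ℕ) (hn : 0 < n) :
    Xn n = ENNReal.ofReal (((√(2 * π))⁻¹) ^ n * (n * om n * II n)) := by
  have e : ∫ y in Set.Ioi (0 : ℝ), y ^ (n - 1) * (rexp (-y ^ 2 / 2) * y) = II n := by
    unfold II
    apply setIntegral_congr_fun measurableSet_Ioi
    intro x _
    obtain ⟨m, rfl⟩ : ∃ m, n = m + 1 := ⟨n - 1, by omega⟩
    simp only [Nat.add_sub_cancel]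
    ring
  unfold Xn
  have h := lintegral_radial n hn (fun r => r) continuous_id (fun r hr => hr)
    (by rw [e]; exact II_pos n)
  rw [e] at h
  exact h

lemma one_eq (n : ℕ) :
    (1 : ENNReal) = ENNReal.ofReal (((√(2 * π))⁻¹) ^ (n + 1) * ((n + 1 : ℕ) * om (n + 1) * II n)) := by
  have e : ∫ y in Set.Ioi (0 : ℝ), y ^ (n + 1 - 1) * (rexp (-y ^ 2 / 2) * 1) = II n := by
    unfold II
    apply setIntegral_congr_fun measurableSet_Ioi
    intro x _
    simp only [Nat.add_sub_cancel, mul_one]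
  have h := lintegral_radial (n + 1) (Nat.succ_pos n) (fun _ => 1) continuous_const
    (fun r hr => zero_le_one) (by rw [e]; exact II_pos n)
  rw [e] at h
  rw [← h]
  simp

lemma Xn_mul_sn (n : ℕ) (hn : 0 < n) : Xn n * sn (n + 1) = ENNReal.ofReal (√(2 * π)) * sn n := by
  have h1 := one_eq n
  have hI := II_pos n
  have ho := om_pos n
  have ho1 := om_pos (n + 1)
  have hs : 0 < √(2 * π) := by positivity
  have h2 : ((√(2 * π))⁻¹) ^ (n + 1) * ((n + 1 : ℕ) * om (n + 1) * II n) = 1 := by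
    have h3 := congrArg ENNReal.toReal h1
    rw [ENNReal.toReal_one, ENNReal.toReal_ofReal (by positivity)] at h3
    exact h3.symm
  rw [Xn_eq n hn, sn_eq, sn_eq, ← ENNReal.ofReal_mul (by positivity),
    ← ENNReal.ofReal_mul (by positivity)]
  congr 1
  have h4 : ((√(2 * π))⁻¹) ^ n * (n * om n * II n) * (((n + 1 : ℕ) : ℝ) * om (n + 1)) =
      √(2 * π) * (n * om n) * (((√(2 * π))⁻¹) ^ (n + 1) * ((n + 1 : ℕ) * om (n + 1) * II n)) := by
    rw [pow_succ]
    field_simp
  rw [h4, h2, mul_one]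

lemma sn_one : sn 1 = 2 := by
  unfold sn
  rw [Measure.toSphere_apply_univ, finrank_E, EuclideanSpace.volume_ball]
  have h1 : Real.Gamma (1 / 2 + 1) = √π / 2 := by
    rw [Real.Gamma_add_one (by norm_num), Real.Gamma_one_half_eq]
    ring
  simp only [Fintype.card_fin, Nat.cast_one, one_mul, pow_one, ENNReal.ofReal_one, h1]
  have : √π ≠ 0 := by positivity
  rw [show √π / (√π / 2) = 2 by field_simp]
  simp

lemma sn_two : sn 2 = ENNReal.ofReal (2 * π) := by
  unfold sn
  rw [Measure.toSphere_apply_univ, finrank_E, EuclideanSpace.volume_ball]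
  simp only [Fintype.card_fin, ENNReal.ofReal_one, one_pow, one_mul]
  rw [Real.sq_sqrt pi_pos.le]
  have : Real.Gamma (((2 : ℕ) : ℝ) / 2 + 1) = 1 := by
    norm_num
  rw [this, div_one, ENNReal.ofReal_mul (by norm_num)]
  simp

lemma sn_ne_zero (n : ℕ) (hn : 0 < n) : sn n ≠ 0 := by
  rw [sn_eq, Ne, ENNReal.ofReal_eq_zero, not_le]
  have := om_pos n
  positivity

lemma sn_ne_top (n : ℕ) : sn n ≠ ⊤ := by
  rw [sn_eq]; exact ENNReal.ofReal_ne_top

lemma DD_mul (d : ℕ) : DD d * sn (d + 1) = 2 * ENNReal.ofReal (√(2 * π)) ^ d := by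
  induction d with
  | zero => rw [DD_zero, sn_one]; simp
  | succ d ih =>
    rw [DD_succ, mul_comm (Xn (d + 1)), mul_assoc, Xn_mul_sn (d + 1) (Nat.succ_pos d)]
    rw [mul_comm (ENNReal.ofReal _), ← mul_assoc, ih, pow_succ]
    ring

lemma Xn_one : Xn 1 = X1 := by
  have h1 := DD_succ (d := 0)
  have h2 := DD_succ' (d := 0)
  rw [DD_zero, mul_one] at h1
  have h3 : cd 0 = 1 := by
    unfold cd
    have : ∀ a : Fin 0 → E (0 + 1), ENNReal.ofReal ‖xi a‖ = 1 := by
      intro a
      have : ‖xi a‖ = 1 := by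
        rw [EuclideanSpace.norm_eq]
        simp [xi_apply]
      rw [this]; simp
    simp_rw [this]
    simp
  rw [h3, one_mul] at h2
  rw [← h1, ← h2]

/-- The value of the constant. -/
lemma cd_mul (d : ℕ) :
    cd d * sn (d + 2) = ENNReal.ofReal (2 * π) * ENNReal.ofReal (√(2 * π)) ^ d := by
  have h1 : X1 * sn 2 = ENNReal.ofReal (√(2 * π)) * sn 1 := by
    rw [← Xn_one]
    exact Xn_mul_sn 1 one_pos
  have h2 := DD_mul (d + 1)
  rw [DD_succ'] at h2
  rw [sn_one, sn_two] at h1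
  have hs0 : ENNReal.ofReal (√(2 * π)) * 2 ≠ 0 := by
    apply mul_ne_zero _ two_ne_zero
    rw [Ne, ENNReal.ofReal_eq_zero, not_le]
    positivity
  have hst : ENNReal.ofReal (√(2 * π)) * 2 ≠ ⊤ :=
    ENNReal.mul_ne_top ENNReal.ofReal_ne_top (by norm_num)
  have h3 : (ENNReal.ofReal (√(2 * π)) * 2) * (cd d * sn (d + 2)) =
      (ENNReal.ofReal (√(2 * π)) * 2) *
        (ENNReal.ofReal (2 * π) * ENNReal.ofReal (√(2 * π)) ^ d) := by
    calc (ENNReal.ofReal (√(2 * π)) * 2) * (cd d * sn (d + 2))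
        = (X1 * ENNReal.ofReal (2 * π)) * (cd d * sn (d + 2)) := by rw [h1]
      _ = ENNReal.ofReal (2 * π) * (cd d * X1 * sn (d + 1 + 1)) := by ring
      _ = ENNReal.ofReal (2 * π) * (2 * ENNReal.ofReal (√(2 * π)) ^ (d + 1)) := by rw [h2]
      _ = _ := by rw [pow_succ]; ring
  exact (ENNReal.mul_right_inj hs0 hst).mp h3

end Pool.Agent.TH172.FV
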