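import Pool.Agent.TH172.FV.Fin

/-! # The volume and the conformal energy -/

set_option autoImplicit false
set_option linter.unusedSectionVars false

open MeasureTheory ProbabilityTheory Metric Set Filter Topology
open Pool.Agent.H241R3.FV (E Sph gnorm RChart Fill)

namespace Pool.Agent.TH172.FV

variable {d : ℕ} {M : Type} [MetricSpace M]
variable {V : Type*} [NormedAddCommGroup V] [InnerProductSpace ℝ V] [FiniteDimensional ℝ V]
  [MeasurableSpace V] [BorelSpace V]

/-- Hölder's inequality for series in `[0, ∞]` -/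
lemma tsum_holder {ι : Type} [Countable ι] (a b : ι → ENNReal) {p q : ℝ}
    (hpq : p.HolderConjugate q) :
    ∑' i, a i ^ (1 / p) * b i ^ (1 / q) ≤ (∑' i, a i) ^ (1 / p) * (∑' i, b i) ^ (1 / q) := by
  let _ : MeasurableSpace ι := ⊤
  have hp := hpq.pos
  have hq := hpq.symm.pos
  have h := ENNReal.lintegral_mul_le_Lp_mul_Lq (Measure.count : Measure ι) hpq
    (f := fun i => a i ^ (1 / p)) (g := fun i => b i ^ (1 / q))
    (measurable_of_countable _).aemeasurable (measurable_of_countable _).aemeasurable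
  rw [lintegral_count, lintegral_count, lintegral_count] at h
  have e1 : ∀ i, (a i ^ (1 / p)) ^ p = a i := by
    intro i
    rw [← ENNReal.rpow_mul, one_div, inv_mul_cancel₀ hp.ne', ENNReal.rpow_one]
  have e2 : ∀ i, (b i ^ (1 / q)) ^ q = b i := by
    intro i
    rw [← ENNReal.rpow_mul, one_div, inv_mul_cancel₀ hq.ne', ENNReal.rpow_one]
  simp only [Pi.mul_apply, e1, e2] at h
  exact h

lemma normSq_nonneg (C : RChart (d + 1) M) (w : M → V) {p : E (d + 1)} (hp : p ∈ C.D) :
    0 ≤ normSq C w p := by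
  rw [normSq_eq]
  exact etr_nonneg _ (C.pos_G p (C.D_sub hp)) _

lemma aemeasurable_entry (C : RChart (d + 1) M) (f : Matrix (Fin (d + 1)) (Fin (d + 1)) ℝ → ℝ)
    (hf : ContinuousOn f {A | A.det ≠ 0}) :
    AEMeasurable (fun p => f (C.G p)) ((volume : Measure (E (d + 1))).restrict C.D) := by
  have h1 : ContinuousOn (fun p => f (C.G p)) C.D := by
    apply hf.comp (C.cont_G.mono C.D_sub)
    intro p hp
    exact (C.pos_G p (C.D_sub hp)).det_pos.ne'
  exact h1.aemeasurable C.meas_D

lemma aemeasurable_normSq (C : RChart (d + 1) M) (w : M → V) :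
    AEMeasurable (normSq C w) ((volume : Measure (E (d + 1))).restrict C.D) := by
  unfold normSq
  refine Finset.aemeasurable_fun_sum _ fun i _ => Finset.aemeasurable_fun_sum _ fun j _ => ?_
  apply AEMeasurable.mul
  · apply aemeasurable_entry C (fun A => A⁻¹ i j)
    have h1 : ContinuousOn (fun A : Matrix (Fin (d + 1)) (Fin (d + 1)) ℝ =>
        A.det⁻¹ * A.adjugate i j) {A | A.det ≠ 0} := by
      apply ContinuousOn.mul
      · exact (Continuous.matrix_det continuous_id).continuousOn.inv₀ fun A hA => hA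
      · exact ((Continuous.matrix_adjugate continuous_id).matrix_elem i j).continuousOn
    refine h1.congr fun A _ => ?_
    simp [Matrix.inv_def, Ring.inverse_eq_inv']
  · apply Measurable.aemeasurable
    have h1 : ∀ j : Fin (d + 1), Measurable fun p : E (d + 1) =>
        fderiv ℝ (fun q => w (C.map q)) p (EuclideanSpace.single j 1) := fun j =>
      measurable_fderiv_apply_const ℝ (fun q => w (C.map q)) (EuclideanSpace.single j 1)
    exact (h1 i).inner (h1 j)

/-- Hölder's inequality in a chart. -/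
lemma chart_holder (hd : 1 ≤ d) (C : RChart (d + 1) M) (w : M → V) :
    ∫⁻ p in C.D, ENNReal.ofReal ((normSq C w p / (d + 1)) ^ ((d : ℝ) / 2) * √(C.G p).det) ≤
      (∫⁻ p in C.D, ENNReal.ofReal ((normSq C w p / (d + 1)) ^ (((d : ℝ) + 1) / 2) *
        √(C.G p).det)) ^ (1 / (((d : ℝ) + 1) / d)) *
      (∫⁻ p in C.D, ENNReal.ofReal √(C.G p).det) ^ (1 / ((d : ℝ) + 1)) := by
  have hd' : (0 : ℝ) < d := by exact_mod_cast hd
  have hpq : (((d : ℝ) + 1) / d).HolderConjugate ((d : ℝ) + 1) := by
    rw [Real.holderConjugate_iff]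
    constructor
    · rw [lt_div_iff₀ hd']; linarith
    · field_simp
  have hm1 := aemeasurable_normSq C w
  have hm2 : AEMeasurable (fun p => √(C.G p).det)
      ((volume : Measure (E (d + 1))).restrict C.D) := by
    apply aemeasurable_entry C (fun A => √A.det)
    exact (Continuous.matrix_det continuous_id).sqrt.continuousOn
  set f : E (d + 1) → ENNReal := fun p =>
    (ENNReal.ofReal ((normSq C w p / (d + 1)) ^ (((d : ℝ) + 1) / 2) * √(C.G p).det)) ^
      (1 / (((d : ℝ) + 1) / d)) with hf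
  set g : E (d + 1) → ENNReal := fun p =>
    (ENNReal.ofReal √(C.G p).det) ^ (1 / ((d : ℝ) + 1)) with hg
  have hfm : AEMeasurable f ((volume : Measure (E (d + 1))).restrict C.D) := by
    apply AEMeasurable.pow_const
    apply AEMeasurable.ennreal_ofReal
    exact ((hm1.div_const _).pow_const _).mul hm2
  have hgm : AEMeasurable g ((volume : Measure (E (d + 1))).restrict C.D) := by
    apply AEMeasurable.pow_const
    exact hm2.ennreal_ofReal
  have h := ENNReal.lintegral_mul_le_Lp_mul_Lq ((volume : Measure (E (d + 1))).restrict C.D) hpq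
    hfm hgm
  have hp := hpq.pos
  have hq := hpq.symm.pos
  have e1 : ∀ p, f p ^ (((d : ℝ) + 1) / d) =
      ENNReal.ofReal ((normSq C w p / (d + 1)) ^ (((d : ℝ) + 1) / 2) * √(C.G p).det) := by
    intro p
    simp only [hf]
    rw [← ENNReal.rpow_mul, one_div, inv_mul_cancel₀ hp.ne', ENNReal.rpow_one]
  have e2 : ∀ p, g p ^ ((d : ℝ) + 1) = ENNReal.ofReal √(C.G p).det := by
    intro p
    simp only [hg]
    rw [← ENNReal.rpow_mul, one_div, inv_mul_cancel₀ hq.ne', ENNReal.rpow_one]
  simp only [e1, e2] at h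
  refine le_trans (le_of_eq ?_) h
  refine setLIntegral_congr_fun C.meas_D fun p hp' => ?_
  simp only [Pi.mul_apply, hf, hg]
  have hx : 0 ≤ normSq C w p / (d + 1) := div_nonneg (normSq_nonneg C w hp') (by positivity)
  have hD : 0 < √(C.G p).det := Real.sqrt_pos.mpr (C.pos_G p (C.D_sub hp')).det_pos
  rw [ENNReal.ofReal_rpow_of_nonneg (by positivity) (by positivity),
    ENNReal.ofReal_rpow_of_nonneg (by positivity) (by positivity),
    ← ENNReal.ofReal_mul (by positivity)]
  congr 1
  rw [Real.mul_rpow (by positivity) hD.le, ← Real.rpow_mul hx, mul_assoc, ← Real.rpow_add hD]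
  have e3 : ((d : ℝ) + 1) / 2 * (1 / (((d : ℝ) + 1) / d)) = (d : ℝ) / 2 := by
    field_simp
  have e4 : 1 / (((d : ℝ) + 1) / d) + 1 / ((d : ℝ) + 1) = 1 := by
    field_simp
  rw [e3, e4, Real.rpow_one]

/-- Hölder's inequality on the filling. -/
lemma energy_holder (hd : 1 ≤ d) (S : Fill d M) (w : M → V) :
    energy S w d ≤ (energy S w ((d : ℝ) + 1)) ^ (1 / (((d : ℝ) + 1) / d)) *
      S.vol ^ (1 / ((d : ℝ) + 1)) := by
  have hd' : (0 : ℝ) < d := by exact_mod_cast hd
  have := S.countable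
  have hpq : (((d : ℝ) + 1) / d).HolderConjugate ((d : ℝ) + 1) := by
    rw [Real.holderConjugate_iff]
    constructor
    · rw [lt_div_iff₀ hd']; linarith
    · field_simp
  unfold energy Pool.Agent.H241R3.FV.Fill.vol
  refine le_trans (ENNReal.tsum_le_tsum fun i => chart_holder hd (S.chart i) w) ?_
  exact tsum_holder _ _ hpq

/-- The volume and the conformal energy. -/
theorem vol_mul_energy (hd : 1 ≤ d) [CompactSpace M] (S : Fill d M) (hS : S.NonShort)
    (htop : S.Triangulated ∨ S.NoRetraction) (J : E (d + 1) →ₗᵢ[ℝ] V) (w : M → V)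
    (hw1 : ∀ q, ‖w q‖ = 1) (L : ℝ) (hL : 0 ≤ L) (hw : ∀ q q', ‖w q - w q'‖ ≤ L * dist q q')
    (hwJ : ∀ x, w (S.bd x) = J x) :
    ((volume : Measure (EuclideanSpace ℝ (Fin (d + 2)))).toSphere Set.univ / 2) ^ (d + 1) ≤
      S.vol * (energy S w ((d : ℝ) + 1)) ^ d := by
  have hd' : (0 : ℝ) < d := by exact_mod_cast hd
  have h1 := (energy_ge hd S hS htop J w hw1 L hL hw hwJ).trans (energy_holder hd S w)
  have h2 := pow_le_pow_left₀ (by simp) h1 (d + 1)
  refine h2.trans (le_of_eq ?_)
  rw [mul_pow, ← ENNReal.rpow_natCast, ← ENNReal.rpow_natCast, ← ENNReal.rpow_mul,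
    ← ENNReal.rpow_mul]
  have e1 : 1 / (((d : ℝ) + 1) / d) * ((d + 1 : ℕ) : ℝ) = ((d : ℕ) : ℝ) := by
    push_cast
    field_simp
  have e2 : 1 / ((d : ℝ) + 1) * ((d + 1 : ℕ) : ℝ) = 1 := by
    push_cast
    field_simp
  rw [e1, e2, ENNReal.rpow_one, ENNReal.rpow_natCast, mul_comm]

end Pool.Agent.TH172.FV
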