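import Pool.Agent.TH172.FV.Hol

/-! # Lipschitz maps -/

set_option autoImplicit false
set_option linter.unusedSectionVars false

open MeasureTheory ProbabilityTheory Metric Set Filter Topology
open Pool.Agent.H241R3.FV (E Sph gnorm RChart Fill)

namespace Pool.Agent.TH172.FV

variable {d : ℕ} {M : Type} [MetricSpace M]
variable {V : Type*} [NormedAddCommGroup V] [InnerProductSpace ℝ V] [FiniteDimensional ℝ V]
  [MeasurableSpace V] [BorelSpace V]

open Matrix in
lemma etr_frame (G R : Matrix (Fin (d + 1)) (Fin (d + 1)) ℝ) (h : Rᵀ * G * R = 1)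
    (W : E (d + 1) →L[ℝ] V) :
    etr G W = ∑ j, ‖W (mv R (EuclideanSpace.single j 1))‖ ^ 2 := by
  have h1 : (Rᵀ * G) * R = 1 := h
  have h2 : R * (Rᵀ * G) = 1 := mul_eq_one_comm.mp h1
  have h3 : (R * Rᵀ) * G = 1 := by rw [Matrix.mul_assoc]; exact h2
  have hGinv : G⁻¹ = R * Rᵀ := Matrix.inv_eq_left_inv h3
  have h4 : ∀ j, W (mv R (EuclideanSpace.single j 1)) =
      ∑ l, R l j • W (EuclideanSpace.single l 1) := by
    intro j
    have e : mv R (EuclideanSpace.single j 1) =
        ∑ l, R l j • (EuclideanSpace.single l (1 : ℝ) : E (d + 1)) := by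
      ext k
      simp [mv, Matrix.mulVec, dotProduct, Finset.sum_apply, Pi.single_apply]
    rw [e, map_sum]
    refine Finset.sum_congr rfl fun l _ => ?_
    rw [map_smul]
  unfold etr
  rw [hGinv]
  simp_rw [h4, ← real_inner_self_eq_norm_sq, sum_inner, inner_sum, real_inner_smul_left,
    real_inner_smul_right]
  simp_rw [Matrix.mul_apply, Matrix.transpose_apply, Finset.sum_mul]
  have e3 : ∀ f : Fin (d + 1) → Fin (d + 1) → Fin (d + 1) → ℝ,
      ∑ x, ∑ y, ∑ k, f x y k = ∑ k, ∑ x, ∑ y, f x y k := by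
    intro f
    rw [Finset.sum_congr rfl fun x _ => Finset.sum_comm, Finset.sum_comm]
  rw [e3]
  refine Finset.sum_congr rfl fun k _ => Finset.sum_congr rfl fun i _ =>
    Finset.sum_congr rfl fun j _ => ?_
  ring

lemma dw_le (C : RChart (d + 1) M) (w : M → V) (L : ℝ) (hL : 0 < L)
    (hw : ∀ q q', ‖w q - w q'‖ ≤ L * dist q q') {p : E (d + 1)} (hp : p ∈ C.U)
    (x : E (d + 1)) : ‖dw C w p x‖ ≤ L * gnorm (C.G p) x := by
  have hg0 : 0 ≤ gnorm (C.G p) x := Real.sqrt_nonneg _
  by_cases hd : DifferentiableAt ℝ (fun q => w (C.map q)) p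
  · by_cases hx : dw C w p x = 0
    · rw [hx, norm_zero]
      positivity
    · have hpos : 0 < ‖dw C w p x‖ := norm_pos_iff.mpr hx
      set e : V := ‖dw C w p x‖⁻¹ • dw C w p x with he
      have he1 : ‖e‖ = 1 := by
        rw [he, norm_smul, norm_inv, norm_norm]
        field_simp
      set g : M → ℝ := fun q => L⁻¹ * inner ℝ e (w q) with hg
      have hgl : ∀ q q', |g q - g q'| ≤ dist q q' := by
        intro q q'
        simp only [hg]
        rw [← mul_sub, ← inner_sub_right, abs_mul, abs_of_pos (by positivity : 0 < L⁻¹)]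
        have h1 := abs_real_inner_le_norm e (w q - w q')
        rw [he1, one_mul] at h1
        have h2 := h1.trans (hw q q')
        calc L⁻¹ * |inner ℝ e (w q - w q')| ≤ L⁻¹ * (L * dist q q') :=
              mul_le_mul_of_nonneg_left h2 (by positivity)
          _ = dist q q' := by field_simp
      have hder : HasFDerivAt (fun q => g (C.map q)) (L⁻¹ • (innerSL ℝ e).comp (dw C w p)) p := by
        have h1 := ((innerSL ℝ e).hasFDerivAt.comp p hd.hasFDerivAt).const_mul L⁻¹
        exact h1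
      have h2 := fderiv_le C g hgl hp hder.differentiableAt x
      rw [hder.fderiv] at h2
      simp only [ContinuousLinearMap.smul_apply, ContinuousLinearMap.comp_apply,
        innerSL_apply_apply, smul_eq_mul] at h2
      have h3 : inner ℝ e (dw C w p x) = ‖dw C w p x‖ := by
        rw [he, real_inner_smul_left, real_inner_self_eq_norm_sq]
        field_simp
      rw [h3, abs_of_nonneg (by positivity)] at h2
      calc ‖dw C w p x‖ = L * (L⁻¹ * ‖dw C w p x‖) := by field_simp
        _ ≤ L * gnorm (C.G p) x := mul_le_mul_of_nonneg_left h2 hL.le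
  · have : dw C w p = 0 := fderiv_zero_of_not_differentiableAt hd
    rw [this]
    simp only [_root_.zero_apply, norm_zero]
    positivity

lemma normSq_le (C : RChart (d + 1) M) (w : M → V) (L : ℝ) (hL : 0 < L)
    (hw : ∀ q q', ‖w q - w q'‖ ≤ L * dist q q') {p : E (d + 1)} (hp : p ∈ C.U) :
    normSq C w p ≤ (d + 1) * L ^ 2 := by
  obtain ⟨R, s, hR1, -⟩ := exists_frame (C.G p) (0 : Matrix _ _ ℝ) (C.pos_G p hp)
    (Matrix.transpose_zero)
  rw [normSq_eq, etr_frame (C.G p) R hR1]
  have h1 : ∀ j ∈ (Finset.univ : Finset (Fin (d + 1))),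
      ‖dw C w p (mv R (EuclideanSpace.single j 1))‖ ^ 2 ≤ L ^ 2 := by
    intro j _
    have h2 := dw_le C w L hL hw hp (mv R (EuclideanSpace.single j 1))
    rw [gnorm_mv _ _ hR1] at h2
    have h3 : ‖(EuclideanSpace.single j (1 : ℝ) : E (d + 1))‖ = 1 := by simp
    rw [h3, mul_one] at h2
    exact pow_le_pow_left₀ (norm_nonneg _) h2 2
  refine (Finset.sum_le_sum h1).trans (le_of_eq ?_)
  simp

lemma energy_le (S : Fill d M) (w : M → V) (L : ℝ) (hL : 0 < L)
    (hw : ∀ q q', ‖w q - w q'‖ ≤ L * dist q q') :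
    energy S w d ≤ ENNReal.ofReal L ^ d * S.vol := by
  unfold energy Pool.Agent.H241R3.FV.Fill.vol
  rw [← ENNReal.tsum_mul_left]
  refine ENNReal.tsum_le_tsum fun i => ?_
  rw [← lintegral_const_mul' _ _ (ENNReal.pow_ne_top ENNReal.ofReal_ne_top)]
  refine setLIntegral_mono' (S.chart i).meas_D fun p hp => ?_
  rw [← ENNReal.ofReal_pow hL.le, ← ENNReal.ofReal_mul (by positivity)]
  apply ENNReal.ofReal_le_ofReal
  apply mul_le_mul_of_nonneg_right _ (Real.sqrt_nonneg _)
  have h0 : 0 ≤ normSq (S.chart i) w p / (d + 1) :=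
    div_nonneg (normSq_nonneg _ w hp) (by positivity)
  have h1 : normSq (S.chart i) w p / (d + 1) ≤ L ^ 2 := by
    rw [div_le_iff₀ (by positivity), mul_comm]
    exact normSq_le _ w L hL hw ((S.chart i).D_sub hp)
  calc (normSq (S.chart i) w p / (d + 1)) ^ ((d : ℝ) / 2) ≤ (L ^ 2) ^ ((d : ℝ) / 2) :=
        Real.rpow_le_rpow h0 h1 (by positivity)
    _ = L ^ d := by
        rw [← Real.rpow_natCast L 2, ← Real.rpow_mul hL.le, ← Real.rpow_natCast L d]
        congr 1
        push_cast
        ring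

end Pool.Agent.TH172.FV
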