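import Mathlib

/-! # The last elementary symmetric means -/

set_option autoImplicit false

namespace Pool.Agent.TH172.FV

lemma tangent (A B : ℝ) (hA : 0 ≤ A) (hB : 0 ≤ B) (m : ℕ) :
    (m + 1) * B ^ m * A - m * B ^ (m + 1) ≤ A ^ (m + 1) := by
  induction m with
  | zero => simp
  | succ m ih =>
    have h1 := mul_le_mul_of_nonneg_left ih hA
    have h2 : 0 ≤ ((m : ℝ) + 1) * B ^ m * (A - B) ^ 2 := by positivity
    push_cast
    have e1 : A * A ^ (m + 1) = A ^ (m + 1 + 1) := by ring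
    rw [e1] at h1
    refine le_trans ?_ h1
    have e2 : A * ((m + 1) * B ^ m * A - m * B ^ (m + 1)) -
        (((m : ℝ) + 1 + 1) * B ^ (m + 1) * A - (m + 1) * B ^ (m + 1 + 1)) =
        ((m : ℝ) + 1) * B ^ m * (A - B) ^ 2 := by ring
    linarith

lemma amgm {n : ℕ} (x : Fin (n + 1) → ℝ) (hx : ∀ i, 0 ≤ x i) :
    ∏ i, x i ≤ ((∑ i, x i) / (n + 1)) ^ (n + 1) := by
  induction n with
  | zero => simp
  | succ n ih =>
    rw [Fin.prod_univ_succ, Fin.sum_univ_succ]
    have h1 := ih (fun i => x i.succ) (fun i => hx _)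
    set B : ℝ := (∑ i : Fin (n + 1), x i.succ) / (n + 1) with hB
    have hS : ∑ i : Fin (n + 1), x i.succ = (n + 1) * B := by
      rw [hB]; field_simp
    rw [hS]
    have hB0 : 0 ≤ B := by
      rw [hB]
      exact div_nonneg (Finset.sum_nonneg fun i _ => hx _) (by positivity)
    have ht := hx 0
    set A : ℝ := (x 0 + (n + 1) * B) / (((n + 1 : ℕ) : ℝ) + 1) with hA
    have hA0 : 0 ≤ A := by rw [hA]; positivity
    have hAe : ((n : ℝ) + 2) * A = x 0 + (n + 1) * B := by
      rw [hA]; push_cast; field_simp; ring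
    have h2 := tangent A B hA0 hB0 (n + 1)
    have h3 : x 0 * ∏ i : Fin (n + 1), x i.succ ≤ x 0 * B ^ (n + 1) :=
      mul_le_mul_of_nonneg_left h1 ht
    refine h3.trans (le_trans (le_of_eq ?_) h2)
    push_cast
    have e : ((n : ℝ) + 1 + 1) * B ^ (n + 1) * A = B ^ (n + 1) * (((n : ℝ) + 2) * A) := by ring
    rw [e, hAe]
    ring

lemma maclaurin {d : ℕ} (x : Fin (d + 1) → ℝ) (hx : ∀ i, 0 ≤ x i) :
    ∑ j : Fin (d + 1), ∏ k : Fin d, x (j.succAbove k) ≤ (d + 1) * ((∑ i, x i) / (d + 1)) ^ d := by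
  induction d with
  | zero => simp
  | succ d ih =>
    rw [Fin.sum_univ_succ, Fin.sum_univ_succ (f := x)]
    have h1 := ih (fun i => x i.succ) (fun i => hx _)
    have h0 := amgm (fun i => x i.succ) (fun i => hx _)
    have e1 : ∀ i : Fin (d + 1), ∏ k, x (i.succ.succAbove k) =
        x 0 * ∏ k, x (i.succAbove k).succ := by
      intro i
      rw [Fin.prod_univ_succ]
      congr 1
      refine Finset.prod_congr rfl fun k _ => ?_
      rw [Fin.succ_succAbove_succ]
    simp_rw [e1]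
    rw [← Finset.mul_sum]
    simp only [Fin.zero_succAbove]
    set B : ℝ := (∑ i : Fin (d + 1), x i.succ) / (d + 1) with hB
    have hS : ∑ i : Fin (d + 1), x i.succ = (d + 1) * B := by
      rw [hB]; field_simp
    rw [hS]
    have hB0 : 0 ≤ B := by
      rw [hB]
      exact div_nonneg (Finset.sum_nonneg fun i _ => hx _) (by positivity)
    have ht := hx 0
    set A : ℝ := (x 0 + (d + 1) * B) / (((d + 1 : ℕ) : ℝ) + 1) with hA
    have hA0 : 0 ≤ A := by rw [hA]; positivity
    have hAe : ((d : ℝ) + 2) * A = x 0 + (d + 1) * B := by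
      rw [hA]; push_cast; field_simp; ring
    have h2 := tangent A B hA0 hB0 d
    have h3 := mul_le_mul_of_nonneg_left h1 ht
    have h4 : (((d + 1 : ℕ) : ℝ) + 1) * A ^ (d + 1) ≥
        ((d : ℝ) + 2) * ((d + 1) * B ^ d * A - d * B ^ (d + 1)) := by
      push_cast
      have : ((d : ℝ) + 1 + 1) = d + 2 := by ring
      rw [this]
      exact mul_le_mul_of_nonneg_left h2 (by positivity)
    have h5 : ((d : ℝ) + 2) * ((d + 1) * B ^ d * A - d * B ^ (d + 1)) =
        x 0 * ((d + 1) * B ^ d) + B ^ (d + 1) := by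
      have e : ((d : ℝ) + 2) * ((d + 1) * B ^ d * A - d * B ^ (d + 1)) =
        (d + 1) * B ^ d * (((d : ℝ) + 2) * A) - d * (d + 2) * B ^ (d + 1) := by ring
      rw [e, hAe]
      ring
    linarith

end Pool.Agent.TH172.FV
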