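import Pool.Agent.TH172.FV.Gau3
import Pool.Agent.TH172.FV.Mac

/-! # The pointwise average -/

set_option autoImplicit false

open MeasureTheory ProbabilityTheory Real Matrix
open Pool.Agent.H241R3.FV (E gnorm)
open Pool.Agent.TH172.FA (gam)
open scoped MatrixOrder

namespace Pool.Agent.TH172.FV

variable {d : ℕ}

/-- simultaneous diagonalisation of a positive definite and a symmetric matrix -/
lemma exists_frame {n : ℕ} (G S : Matrix (Fin n) (Fin n) ℝ) (hG : G.PosDef) (hS : Sᵀ = S) :
    ∃ (R : Matrix (Fin n) (Fin n) ℝ) (s : Fin n → ℝ), Rᵀ * G * R = 1 ∧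
      Rᵀ * S * R = Matrix.diagonal s := by
  classical
  obtain ⟨S0, hS0⟩ := CStarAlgebra.nonneg_iff_eq_star_mul_self.mp hG.posSemidef.nonneg
  rw [star_eq_conjTranspose, conjTranspose_eq_transpose_of_trivial] at hS0
  have hSd : S0.det ^ 2 = G.det := by
    rw [hS0, det_mul, det_transpose, sq]
  have hGd := hG.det_pos
  have hSne : S0.det ≠ 0 := by
    intro h0
    rw [h0] at hSd
    rw [← hSd] at hGd
    simp at hGd
  have hSu : IsUnit S0.det := isUnit_iff_ne_zero.2 hSne
  set H := S0⁻¹ᵀ * S * S0⁻¹ with hH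
  have hHh : H.IsHermitian := by
    rw [IsHermitian, conjTranspose_eq_transpose_of_trivial, hH, transpose_mul, transpose_mul, hS,
      transpose_transpose, Matrix.mul_assoc]
  set Q : Matrix (Fin n) (Fin n) ℝ := (hHh.eigenvectorUnitary : Matrix (Fin n) (Fin n) ℝ) with hQ
  have hQ1 : Qᵀ * Q = 1 := by
    have h1 := (Matrix.mem_unitaryGroup_iff').mp hHh.eigenvectorUnitary.2
    rwa [star_eq_conjTranspose, conjTranspose_eq_transpose_of_trivial] at h1
  have hQ2 : Qᵀ * H * Q = diagonal hHh.eigenvalues := by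
    have h1 := hHh.conjStarAlgAut_star_eigenvectorUnitary
    rw [Unitary.conjStarAlgAut_star_apply] at h1
    rw [star_eq_conjTranspose, conjTranspose_eq_transpose_of_trivial] at h1
    rw [h1]
    congr 1
  refine ⟨S0⁻¹ * Q, hHh.eigenvalues, ?_, ?_⟩
  · rw [transpose_mul, hS0]
    have e : Qᵀ * S0⁻¹ᵀ * (S0ᵀ * S0) * (S0⁻¹ * Q) = Qᵀ * (S0⁻¹ᵀ * S0ᵀ) * (S0 * S0⁻¹) * Q := by
      simp only [Matrix.mul_assoc]
    rw [e, ← transpose_mul, mul_nonsing_inv _ hSu, transpose_one, Matrix.mul_one, Matrix.mul_one,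
      hQ1]
  · rw [transpose_mul, ← hQ2, hH]
    simp only [Matrix.mul_assoc]

lemma gnorm_smul {n : ℕ} (G : Matrix (Fin n) (Fin n) ℝ) (t : ℝ) (v : E n) :
    gnorm G (t • v) = |t| * gnorm G v := by
  unfold gnorm
  rw [← Real.sqrt_sq_eq_abs, ← Real.sqrt_mul (sq_nonneg t)]
  congr 1
  rw [Finset.mul_sum]
  refine Finset.sum_congr rfl fun i _ => ?_
  rw [Finset.mul_sum]
  refine Finset.sum_congr rfl fun j _ => ?_
  simp only [PiLp.smul_apply, smul_eq_mul]
  ring

/-- the vector `R x` -/
noncomputable def mv {n : ℕ} (R : Matrix (Fin n) (Fin n) ℝ) (x : E n) : E n :=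
  WithLp.toLp 2 (R.mulVec fun k => x k)

lemma gnorm_mv {n : ℕ} (G R : Matrix (Fin n) (Fin n) ℝ) (h : Rᵀ * G * R = 1) (x : E n) :
    gnorm G (mv R x) = ‖x‖ := by
  unfold gnorm
  have h1 : (∑ i, ∑ j, (mv R x) i * G i j * (mv R x) j) =
      dotProduct (R.mulVec (fun k => x k)) (G.mulVec (R.mulVec (fun k => x k))) := by
    simp only [dotProduct, Matrix.mulVec, mv, Finset.mul_sum, mul_assoc]
  have h2 : dotProduct (R.mulVec (fun k => x k)) (G.mulVec (R.mulVec (fun k => x k))) =
      dotProduct (fun k => x k) ((Rᵀ * G * R).mulVec (fun k => x k)) := by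
    rw [Matrix.mul_assoc, ← Matrix.mulVec_mulVec, ← Matrix.mulVec_mulVec,
      Matrix.dotProduct_mulVec (fun k => x k) Rᵀ, Matrix.vecMul_transpose]
  rw [h1, h2, h, Matrix.one_mulVec]
  have h5 : ‖x‖ ^ 2 = ∑ i, x i ^ 2 := EuclideanSpace.real_norm_sq_eq _
  have h6 : dotProduct (fun k => x k) (fun k => x k) = ‖x‖ ^ 2 := by
    rw [h5, dotProduct]
    exact Finset.sum_congr rfl fun i _ => by ring
  rw [h6, Real.sqrt_sq (norm_nonneg _)]

/-- The length of the vector product in the metric `G`. -/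
lemma gnorm_xi (G R : Matrix (Fin (d + 1)) (Fin (d + 1)) ℝ) (h : Rᵀ * G * R = 1)
    (a : Fin d → E (d + 1)) :
    gnorm G (xi a) = √G.det * ‖xi fun i => mv Rᵀ (a i)‖ := by
  have hdet : R.det ^ 2 * G.det = 1 := by
    have := congrArg Matrix.det h
    rw [det_mul, det_mul, det_transpose, det_one] at this
    rw [← this]; ring
  have hR0 : R.det ≠ 0 := by
    intro h0
    rw [h0] at hdet
    simp at hdet
  set f : E (d + 1) →ₗ[ℝ] E (d + 1) := Matrix.toLin (EuclideanSpace.basisFun _ ℝ).toBasis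
    (EuclideanSpace.basisFun _ ℝ).toBasis Rᵀ with hf
  have hfx : ∀ x, f x = mv Rᵀ x := by
    intro x
    ext k
    rw [hf, Matrix.toLin_apply]
    simp [mv, Finset.sum_apply, Pi.single_apply]
    rfl
  have hfd : LinearMap.det f = R.det := by
    rw [hf, LinearMap.det_toLin, det_transpose]
  set y : E (d + 1) := xi fun i => mv Rᵀ (a i) with hy
  have h1 : ∀ b : E (d + 1), inner ℝ (mv Rᵀ b) y = R.det * inner ℝ b (xi a) := by
    intro b
    have := Dt_map f b a
    rw [hfd, Dt_inner, Dt_inner] at this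
    simp_rw [hfx] at this
    exact this
  have h2 : ∀ b : E (d + 1), inner ℝ (mv Rᵀ b) y = inner ℝ b (mv R y) := by
    intro b
    simp only [PiLp.inner_apply, mv]
    have e1 : ∀ u w : Fin (d + 1) → ℝ, ∑ i, inner ℝ (u i) (w i) = dotProduct u w := by
      intro u w
      simp [dotProduct, mul_comm]
    have e2 := e1 (Rᵀ.mulVec fun k => b k) (fun k => y k)
    have e3 := e1 (fun k => b k) (R.mulVec fun k => y k)
    rw [Matrix.dotProduct_mulVec, ← Matrix.mulVec_transpose] at e3
    exact e2.trans e3.symm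
  have h3 : mv R y = R.det • xi a := by
    apply ext_inner_left ℝ
    intro b
    rw [← h2, h1, real_inner_smul_right]
  have h4 := gnorm_mv G R h y
  rw [h3, gnorm_smul] at h4
  have h5 : √G.det * |R.det| = 1 := by
    have hG0 : 0 ≤ G.det := by
      have : 0 < R.det ^ 2 := by positivity
      nlinarith
    rw [← Real.sqrt_sq_eq_abs, ← Real.sqrt_mul hG0, mul_comm, hdet, Real.sqrt_one]
  calc gnorm G (xi a) = (√G.det * |R.det|) * gnorm G (xi a) := by rw [h5, one_mul]
    _ = √G.det * (|R.det| * gnorm G (xi a)) := by ring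
    _ = _ := by rw [h4]

section avg

variable {V : Type*} [NormedAddCommGroup V] [InnerProductSpace ℝ V] [FiniteDimensional ℝ V]
  [MeasurableSpace V] [BorelSpace V]

/-- the transpose of a linear map -/
noncomputable def Wt (W : E (d + 1) →L[ℝ] V) (v : V) : E (d + 1) :=
  Um (fun j => W (EuclideanSpace.single j 1)) v

/-- the density of the energy (times two): the trace of `G⁻¹ Wᵀ W` -/
noncomputable def etr (G : Matrix (Fin (d + 1)) (Fin (d + 1)) ℝ) (W : E (d + 1) →L[ℝ] V) : ℝ :=
  ∑ i, ∑ j, G⁻¹ i j * inner ℝ (W (EuclideanSpace.single i 1)) (W (EuclideanSpace.single j 1))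

lemma gam_le (ε : ℝ) : gam {z | |z| < ε} ≤ ENNReal.ofReal (2 * ε / √(2 * π)) := by
  have h0 : gam = volume.withDensity (gaussianPDF 0 1) :=
    gaussianReal_of_var_ne_zero 0 one_ne_zero
  have hs : {z : ℝ | |z| < ε} = Set.Ioo (-ε) ε := by
    ext z
    simp [abs_lt]
  rw [hs, h0, withDensity_apply _ measurableSet_Ioo]
  calc ∫⁻ z in Set.Ioo (-ε) ε, gaussianPDF 0 1 z
      ≤ ∫⁻ _z in Set.Ioo (-ε) ε, ENNReal.ofReal ((√(2 * π))⁻¹) := by
        apply lintegral_mono
        intro z
        unfold gaussianPDF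
        apply ENNReal.ofReal_le_ofReal
        rw [gaussianPDFReal]
        simp only [NNReal.coe_one, mul_one, sub_zero]
        apply mul_le_of_le_one_right (by positivity)
        rw [Real.exp_le_one_iff]
        have := sq_nonneg z
        linarith
    _ = _ := by
        rw [setLIntegral_const, Real.volume_Ioo, ← ENNReal.ofReal_mul (by positivity)]
        congr 1
        ring

/-- the average over independent Gaussian vectors, in an orthogonal frame -/
lemma avg_frame {w : V} (hw : ‖w‖ = 1) (u : Fin (d + 1) → V) (hwu : ∀ j, inner ℝ w (u j) = 0)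
    (hu : ∀ j k, j ≠ k → inner ℝ (u j) (u k) = 0) (ε : ℝ) :
    ∫⁻ v, Set.indicator {v : Fin d → V | ∀ i, |inner ℝ w (v i)| < ε}
      (fun v => ENNReal.ofReal ‖xi fun i => Um u (v i)‖) v ∂(Measure.pi fun _ => stdGaussian V) ≤
    ENNReal.ofReal (2 * ε / √(2 * π)) ^ d *
      (ENNReal.ofReal (√(((∑ j, ‖u j‖ ^ 2) / (d + 1)) ^ d)) * cd d) := by
  classical
  set l : Fin (d + 1) → ℝ := fun j => ‖u j‖ with hl
  set ν : Measure (E (d + 1)) := (stdGaussian (E (d + 1))).map (Dm l) with hν
  have hνp : IsProbabilityMeasure ν := Measure.isProbabilityMeasure_map (by fun_prop)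
  have hlaw := law_gen hw u hwu hu l (fun j => rfl)
  have hT : MeasurePreserving (fun v => (inner ℝ w v, Um u v)) (stdGaussian V) (gam.prod ν) :=
    ⟨by fun_prop, hlaw⟩
  have hpi : MeasurePreserving (fun (v : Fin d → V) i => ((inner ℝ w (v i) : ℝ), Um u (v i)))
      (Measure.pi fun _ => stdGaussian V) (Measure.pi fun _ => gam.prod ν) :=
    measurePreserving_pi _ _ fun _ => hT
  have harr := measurePreserving_arrowProdEquivProdArrow ℝ (E (d + 1)) (Fin d)
    (fun _ => gam) (fun _ => ν)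
  have hcomp := harr.comp hpi
  set B : Set (Fin d → ℝ) := Set.univ.pi fun _ => {z : ℝ | |z| < ε} with hB
  have hBm : MeasurableSet B := by
    apply MeasurableSet.univ_pi
    intro i
    exact measurableSet_lt (by fun_prop) measurable_const
  set F : (Fin d → ℝ) × (Fin d → E (d + 1)) → ENNReal := fun p =>
    Set.indicator B (fun _ => 1) p.1 * ENNReal.ofReal ‖xi p.2‖ with hF
  have hFm : Measurable F := by
    apply Measurable.mul
    · exact (measurable_const.indicator hBm).comp measurable_fst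
    · exact (measurable_xi.norm.ennreal_ofReal).comp measurable_snd
  have e1 : ∀ v : Fin d → V, Set.indicator {v : Fin d → V | ∀ i, |inner ℝ w (v i)| < ε}
      (fun v => ENNReal.ofReal ‖xi fun i => Um u (v i)‖) v =
      F ((MeasurableEquiv.arrowProdEquivProdArrow ℝ (E (d + 1)) (Fin d) ∘
        fun (v : Fin d → V) i => ((inner ℝ w (v i) : ℝ), Um u (v i))) v) := by
    intro v
    have h2 : (MeasurableEquiv.arrowProdEquivProdArrow ℝ (E (d + 1)) (Fin d) ∘
        fun (v : Fin d → V) i => ((inner ℝ w (v i) : ℝ), Um u (v i))) v =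
        (fun i => (inner ℝ w (v i) : ℝ), fun i => Um u (v i)) := rfl
    rw [h2]
    simp only [hF]
    by_cases hv : ∀ i, |inner ℝ w (v i)| < ε
    · rw [Set.indicator_of_mem (by exact hv), Set.indicator_of_mem (by
        rw [hB, Set.mem_univ_pi]; exact hv), one_mul]
    · rw [Set.indicator_of_notMem (by exact hv), Set.indicator_of_notMem (by
        rw [hB, Set.mem_univ_pi]; exact hv), zero_mul]
  simp_rw [e1]
  rw [hcomp.lintegral_comp hFm]
  simp only [hF]
  rw [lintegral_prod_mul (μ := Measure.pi fun _ : Fin d => gam)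
    (ν := Measure.pi fun _ : Fin d => ν) (f := Set.indicator B (fun _ => 1))
    (g := fun a => ENNReal.ofReal ‖xi a‖) (measurable_const.indicator hBm).aemeasurable
    (measurable_xi.norm.ennreal_ofReal).aemeasurable]
  apply mul_le_mul'
  · rw [lintegral_indicator_const hBm, one_mul, hB, Measure.pi_pi]
    rw [Finset.prod_const, Finset.card_univ, Fintype.card_fin]
    exact pow_le_pow_left₀ (by simp) (gam_le ε) d
  · have hD : MeasurePreserving (fun (a : Fin d → E (d + 1)) i => Dm l (a i)) (PM d (d + 1))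
        (Measure.pi fun _ => ν) :=
      measurePreserving_pi _ _ fun _ => ⟨by fun_prop, rfl⟩
    rw [← hD.lintegral_comp (measurable_xi.norm.ennreal_ofReal)]
    have e2 : ∀ a : Fin d → E (d + 1), ‖xi fun i => Dm l (a i)‖ =
        √(∑ j, (∏ k, l (j.succAbove k)) ^ 2 * xi a j ^ 2) := by
      intro a
      rw [EuclideanSpace.norm_eq]
      congr 1
      refine Finset.sum_congr rfl fun j _ => ?_
      simp_rw [Dm_eq]
      rw [xi_scale, Real.norm_eq_abs, sq_abs]
      ring
    simp_rw [e2]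
    refine (lintegral_weighted _).trans ?_
    apply mul_le_mul_left
    apply ENNReal.ofReal_le_ofReal
    apply Real.sqrt_le_sqrt
    rw [div_le_iff₀ (by positivity)]
    have h3 := maclaurin (fun j => l j ^ 2) (fun j => sq_nonneg _)
    have e3 : ∑ j : Fin (d + 1), (∏ k : Fin d, l (j.succAbove k)) ^ 2 =
        ∑ j : Fin (d + 1), ∏ k : Fin d, l (j.succAbove k) ^ 2 := by
      refine Finset.sum_congr rfl fun j _ => ?_
      rw [Finset.prod_pow]
    rw [e3, mul_comm]
    exact h3

/-- The pointwise average. -/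
lemma avg_point {w : V} (hw : ‖w‖ = 1) (G : Matrix (Fin (d + 1)) (Fin (d + 1)) ℝ) (hG : G.PosDef)
    (W : E (d + 1) →L[ℝ] V) (hW : ∀ x, inner ℝ w (W x) = 0) (ε : ℝ) :
    ∫⁻ v, Set.indicator {v : Fin d → V | ∀ i, |inner ℝ w (v i)| < ε}
      (fun v => ENNReal.ofReal (gnorm G (xi fun i => Wt W (v i)))) v
        ∂(Measure.pi fun _ => stdGaussian V) ≤
    ENNReal.ofReal (2 * ε / √(2 * π)) ^ d * cd d *
      ENNReal.ofReal (√((etr G W / (d + 1)) ^ d) * √G.det) := by
  set S : Matrix (Fin (d + 1)) (Fin (d + 1)) ℝ := Matrix.of fun i j =>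
    inner ℝ (W (EuclideanSpace.single i 1)) (W (EuclideanSpace.single j 1)) with hS
  have hSt : Sᵀ = S := by
    ext i j
    simp only [hS, Matrix.transpose_apply, Matrix.of_apply]
    exact real_inner_comm _ _
  obtain ⟨R, s, hR1, hR2⟩ := exists_frame G S hG hSt
  set u : Fin (d + 1) → V := fun j => ∑ l, R l j • W (EuclideanSpace.single l 1) with hu
  have huu : ∀ j k, inner ℝ (u j) (u k) = (Rᵀ * S * R) j k := by
    intro j k
    simp only [hu, sum_inner, inner_sum, real_inner_smul_left, real_inner_smul_right]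
    simp only [Matrix.mul_apply, Matrix.transpose_apply, hS, Matrix.of_apply, Finset.sum_mul]
    refine Finset.sum_congr rfl fun l _ => Finset.sum_congr rfl fun m _ => ?_
    ring
  have hwu : ∀ j, inner ℝ w (u j) = 0 := by
    intro j
    simp only [hu, inner_sum, real_inner_smul_right, hW, mul_zero, Finset.sum_const_zero]
  have horth : ∀ j k, j ≠ k → inner ℝ (u j) (u k) = 0 := by
    intro j k hjk
    rw [huu, hR2, Matrix.diagonal_apply_ne _ hjk]
  have hmv : ∀ v : V, mv Rᵀ (Wt W v) = Um u v := by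
    intro v
    ext j
    rw [Um_apply]
    simp only [mv, Matrix.mulVec, dotProduct, Matrix.transpose_apply, Wt, Um_apply, hu, sum_inner,
      real_inner_smul_left]
  have hdetR : IsUnit R.det := by
    rw [isUnit_iff_ne_zero]
    intro h0
    have := congrArg Matrix.det hR1
    rw [det_mul, det_mul, h0, mul_zero, det_one] at this
    exact zero_ne_one this
  have hGinv : G⁻¹ = R * Rᵀ := by
    have h1 : (Rᵀ * G) * R = 1 := hR1
    have h2 : R * (Rᵀ * G) = 1 := mul_eq_one_comm.mp h1
    have h3 : (R * Rᵀ) * G = 1 := by rw [Matrix.mul_assoc]; exact h2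
    exact Matrix.inv_eq_left_inv h3
  have htr : ∑ j, ‖u j‖ ^ 2 = etr G W := by
    have e1 : ∑ j, ‖u j‖ ^ 2 = (Rᵀ * S * R).trace := by
      rw [Matrix.trace]
      refine Finset.sum_congr rfl fun j _ => ?_
      rw [Matrix.diag_apply, ← huu, real_inner_self_eq_norm_sq]
    have e2 : etr G W = (G⁻¹ * S).trace := by
      rw [Matrix.trace]
      unfold etr
      refine Finset.sum_congr rfl fun i _ => ?_
      rw [Matrix.diag_apply, Matrix.mul_apply]
      refine Finset.sum_congr rfl fun j _ => ?_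
      simp only [hS, Matrix.of_apply]
      rw [real_inner_comm]
    rw [e1, e2, hGinv, Matrix.trace_mul_comm, ← Matrix.mul_assoc]
  have hpt : ∀ v : Fin d → V, Set.indicator {v : Fin d → V | ∀ i, |inner ℝ w (v i)| < ε}
      (fun v => ENNReal.ofReal (gnorm G (xi fun i => Wt W (v i)))) v =
      ENNReal.ofReal (√G.det) * Set.indicator {v : Fin d → V | ∀ i, |inner ℝ w (v i)| < ε}
      (fun v => ENNReal.ofReal ‖xi fun i => Um u (v i)‖) v := by
    intro v
    by_cases hv : v ∈ {v : Fin d → V | ∀ i, |inner ℝ w (v i)| < ε}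
    · rw [Set.indicator_of_mem hv, Set.indicator_of_mem hv, gnorm_xi G R hR1,
        ENNReal.ofReal_mul (Real.sqrt_nonneg _)]
      simp_rw [hmv]
    · rw [Set.indicator_of_notMem hv, Set.indicator_of_notMem hv, mul_zero]
  simp_rw [hpt]
  rw [lintegral_const_mul' _ _ ENNReal.ofReal_ne_top]
  have h4 := avg_frame hw u hwu horth ε
  rw [htr] at h4
  refine (mul_le_mul_right h4 _).trans (le_of_eq ?_)
  rw [ENNReal.ofReal_mul (Real.sqrt_nonneg _)]
  ring

end avg

end Pool.Agent.TH172.FV
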