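import Pool.Agent.TH172.FV.Lip

/-! # Maps outside the unit ball, and the frame criterion -/

set_option autoImplicit false
set_option linter.unusedSectionVars false

open MeasureTheory ProbabilityTheory Metric Set Filter Topology InnerProductGeometry
open Pool.Agent.H241R3.FV (E Sph gnorm RChart Fill norm_sph)

namespace Pool.Agent.TH172.FV

variable {d : ℕ} {M : Type} [MetricSpace M]
variable {V : Type*} [NormedAddCommGroup V] [InnerProductSpace ℝ V] [FiniteDimensional ℝ V]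
  [MeasurableSpace V] [BorelSpace V]

/-- The radial projection is `1`-Lipschitz outside the unit ball. -/
lemma rad_lip (a b : V) (ha : 1 ≤ ‖a‖) (hb : 1 ≤ ‖b‖) :
    ‖‖a‖⁻¹ • a - ‖b‖⁻¹ • b‖ ≤ ‖a - b‖ := by
  have ha0 : 0 < ‖a‖ := by linarith
  have hb0 : 0 < ‖b‖ := by linarith
  apply le_of_sq_le_sq _ (norm_nonneg _) |> fun h => h
  rw [norm_sub_sq_real, norm_sub_sq_real, real_inner_smul_left, real_inner_smul_right,
    norm_smul, norm_smul, norm_inv, norm_inv, norm_norm, norm_norm, inv_mul_cancel₀ ha0.ne',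
    inv_mul_cancel₀ hb0.ne']
  have hcs := abs_le.mp (abs_real_inner_le_norm a b)
  set c := inner ℝ a b with hc
  set s := ‖a‖ with hs
  set t := ‖b‖ with ht
  have e : (s ^ 2 - 2 * c + t ^ 2) - (1 ^ 2 - 2 * (s⁻¹ * (t⁻¹ * c)) + 1 ^ 2) =
      (s - t) ^ 2 + 2 * (s * t - 1) * (s * t - c) / (s * t) := by
    field_simp
    ring
  have h1 : 0 ≤ 2 * (s * t - 1) * (s * t - c) / (s * t) := by
    apply div_nonneg _ (by positivity)
    apply mul_nonneg
    · have : 1 ≤ s * t := by nlinarith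
      linarith
    · linarith [hcs.2]
  nlinarith [sq_nonneg (s - t)]

lemma dw_rad (C : RChart (d + 1) M) (F : M → V) (hF : ∀ q, 1 ≤ ‖F q‖) {p : E (d + 1)}
    (hd : DifferentiableAt ℝ (fun q => F (C.map q)) p) (x : E (d + 1)) :
    ‖dw C (fun q => ‖F q‖⁻¹ • F q) p x‖ ≤ ‖dw C F p x‖ := by
  by_cases hw : DifferentiableAt ℝ (fun q => ‖F (C.map q)‖⁻¹ • F (C.map q)) p
  · have h1 : HasDerivAt (fun t : ℝ => ‖F (C.map (p + t • x))‖⁻¹ • F (C.map (p + t • x)))
        (dw C (fun q => ‖F q‖⁻¹ • F q) p x) 0 := hw.hasFDerivAt.hasLineDerivAt x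
    have h2 : HasDerivAt (fun t : ℝ => F (C.map (p + t • x))) (dw C F p x) 0 :=
      hd.hasFDerivAt.hasLineDerivAt x
    rw [hasDerivAt_iff_tendsto_slope_zero] at h1 h2
    refine le_of_tendsto_of_tendsto h1.norm h2.norm (Eventually.of_forall fun t => ?_)
    simp only
    rw [norm_smul, norm_smul]
    exact mul_le_mul_of_nonneg_left (rad_lip _ _ (hF _) (hF _)) (norm_nonneg _)
  · have : dw C (fun q => ‖F q‖⁻¹ • F q) p = 0 := fderiv_zero_of_not_differentiableAt hw
    rw [this]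
    simp

lemma energy_mono (S : Fill d M) (w F : M → V) (s : ℝ) (hs : 0 ≤ s)
    (h : ∀ i, ∀ᵐ p ∂(volume : Measure (E (d + 1))), p ∈ (S.chart i).U →
      ∀ x, ‖dw (S.chart i) w p x‖ ≤ ‖dw (S.chart i) F p x‖) :
    energy S w s ≤ energy S F s := by
  unfold energy
  refine ENNReal.tsum_le_tsum fun i => ?_
  refine setLIntegral_mono_ae' (S.chart i).meas_D ?_
  filter_upwards [h i] with p hp hpD
  have hpU := (S.chart i).D_sub hpD
  have hp' := hp hpU
  apply ENNReal.ofReal_le_ofReal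
  apply mul_le_mul_of_nonneg_right _ (Real.sqrt_nonneg _)
  apply Real.rpow_le_rpow (div_nonneg (normSq_nonneg _ w hpD) (by positivity)) _ (by positivity)
  apply div_le_div_of_nonneg_right _ (by positivity)
  obtain ⟨R, t, hR1, -⟩ := exists_frame ((S.chart i).G p) (0 : Matrix _ _ ℝ)
    ((S.chart i).pos_G p hpU) (Matrix.transpose_zero)
  rw [normSq_eq, normSq_eq, etr_frame _ R hR1, etr_frame _ R hR1]
  refine Finset.sum_le_sum fun j _ => ?_
  exact pow_le_pow_left₀ (norm_nonneg _) (hp' _) 2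

/-- The energy inequality for maps outside the unit ball. -/
theorem energy_ge' (hd : 1 ≤ d) [CompactSpace M] (S : Fill d M) (hS : S.NonShort)
    (htop : S.Triangulated ∨ S.NoRetraction) (J : E (d + 1) →ₗᵢ[ℝ] V) (F : M → V)
    (hF : ∀ q, 1 ≤ ‖F q‖) (L : ℝ) (hL : 0 ≤ L) (hFL : ∀ q q', ‖F q - F q'‖ ≤ L * dist q q')
    (a : ℝ) (ha : 0 < a) (hFJ : ∀ x, F (S.bd x) = a • J x) :
    (volume : Measure (EuclideanSpace ℝ (Fin (d + 2)))).toSphere Set.univ / 2 ≤
      energy S F d := by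
  set w : M → V := fun q => ‖F q‖⁻¹ • F q with hw
  have hF0 : ∀ q, 0 < ‖F q‖ := fun q => lt_of_lt_of_le one_pos (hF q)
  have h1 := energy_ge hd S hS htop J w (by
      intro q
      simp only [hw]
      rw [norm_smul, norm_inv, norm_norm, inv_mul_cancel₀ (hF0 q).ne']) L hL (by
      intro q q'
      exact (rad_lip _ _ (hF q) (hF q')).trans (hFL q q')) (by
      intro x
      simp only [hw]
      rw [hFJ, norm_smul, J.norm_map, norm_sph, mul_one, Real.norm_of_nonneg ha.le, smul_smul,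
        inv_mul_cancel₀ ha.ne', one_smul])
  refine h1.trans (energy_mono S w F d (by positivity) fun i => ?_)
  filter_upwards [ae_diff (S.chart i) F L hL hFL] with p hp hpU x
  exact dw_rad (S.chart i) F hF (hp hpU) x

/-- The squared norm of the gradient of a `1`-Lipschitz function is at most one. -/
lemma grad_sq (C : RChart (d + 1) M) (g : M → ℝ) (hg : ∀ q q', |g q - g q'| ≤ dist q q')
    {p : E (d + 1)} (hp : p ∈ C.U) (hd : DifferentiableAt ℝ (fun q => g (C.map q)) p)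
    (R : Matrix (Fin (d + 1)) (Fin (d + 1)) ℝ) (hR : R.transpose * C.G p * R = 1) :
    ∑ j, (fderiv ℝ (fun q => g (C.map q)) p (mv R (EuclideanSpace.single j 1))) ^ 2 ≤ 1 := by
  set T := fderiv ℝ (fun q => g (C.map q)) p with hT
  set a : E (d + 1) := WithLp.toLp 2 fun j => T (mv R (EuclideanSpace.single j 1)) with ha
  have h1 := fderiv_le C g hg hp hd (mv R a)
  rw [gnorm_mv _ _ hR] at h1
  have e1 : mv R a = ∑ j, a j • mv R (EuclideanSpace.single j 1) := by
    ext k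
    simp [mv, Matrix.mulVec, dotProduct, Finset.sum_apply, Pi.single_apply, mul_comm]
  have e2 : T (mv R a) = ∑ j, a j ^ 2 := by
    rw [e1, map_sum]
    refine Finset.sum_congr rfl fun j _ => ?_
    rw [map_smul, smul_eq_mul]
    simp only [ha]
    ring
  have e3 : ∑ j, a j ^ 2 = ‖a‖ ^ 2 := (EuclideanSpace.real_norm_sq_eq _).symm
  have e4 : ∑ j, (T (mv R (EuclideanSpace.single j 1))) ^ 2 = ‖a‖ ^ 2 := by
    rw [← e3]
  have h2 : ‖a‖ ^ 2 ≤ ‖a‖ := by
    have : T (mv R a) = ‖a‖ ^ 2 := by rw [e2, e3]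
    rw [← hT, this, abs_of_nonneg (by positivity)] at h1
    exact h1
  rw [e4]
  have h3 : 0 ≤ ‖a‖ := norm_nonneg _
  nlinarith [sq_nonneg (‖a‖ - 1)]

/-- The map defined by a frame. -/
noncomputable def frameMap {K : ℕ} (a : ℝ) (c : Fin K → ℝ) (f : Fin K → M → ℝ) (b : M → ℝ)
    (q : M) : E (K + 1) :=
  WithLp.toLp 2 (Fin.cons (a * Real.sin (b q)) fun k => √(c k) * (a * Real.cos (f k q)))

lemma frameMap_normSq {K : ℕ} (a : ℝ) (c : Fin K → ℝ) (hc : ∀ k, 0 ≤ c k) (f : Fin K → M → ℝ)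
    (b : M → ℝ) (q : M) :
    ‖frameMap a c f b q‖ ^ 2 = a ^ 2 * (Real.sin (b q) ^ 2 + ∑ k, c k * Real.cos (f k q) ^ 2) := by
  rw [EuclideanSpace.real_norm_sq_eq, Fin.sum_univ_succ]
  simp only [frameMap, Fin.cons_zero, Fin.cons_succ]
  rw [mul_add, Finset.mul_sum]
  congr 1
  · ring
  refine Finset.sum_congr rfl fun k _ => ?_
  rw [mul_pow, Real.sq_sqrt (hc k)]
  ring

lemma frame_grad {K : ℕ} (C : RChart (d + 1) M) (a : ℝ) (c : Fin K → ℝ) (hc : ∀ k, 0 ≤ c k)
    (hsum : ∑ k, c k = d + 1) (f : Fin K → M → ℝ) (b : M → ℝ)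
    (hf : ∀ k q q', |f k q - f k q'| ≤ dist q q') (hb : ∀ q q', |b q - b q'| ≤ dist q q')
    (ρ : ℝ) (hR : ∀ q, ρ ≤ Real.sin (b q) ^ 2 + ∑ k, c k * Real.cos (f k q) ^ 2)
    {p : E (d + 1)} (hp : p ∈ C.U)
    (hdf : ∀ k, DifferentiableAt ℝ (fun q => f k (C.map q)) p)
    (hdb : DifferentiableAt ℝ (fun q => b (C.map q)) p) :
    normSq C (frameMap a c f b) p ≤ a ^ 2 * (d + 2 - ρ) := by
  obtain ⟨R, t, hR1, -⟩ := exists_frame (C.G p) (0 : Matrix _ _ ℝ) (C.pos_G p hp)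
    (Matrix.transpose_zero)
  set Tb := fderiv ℝ (fun q => b (C.map q)) p with hTb
  set Tf : Fin K → (E (d + 1) →L[ℝ] ℝ) := fun k => fderiv ℝ (fun q => f k (C.map q)) p with hTf
  set comps : Fin (K + 1) → (E (d + 1) →L[ℝ] ℝ) :=
    Fin.cons (a • (Real.cos (b (C.map p)) • Tb))
      fun k => √(c k) • (a • (-Real.sin (f k (C.map p)) • Tf k)) with hcomps
  set T : E (d + 1) →L[ℝ] E (K + 1) :=
    ((PiLp.continuousLinearEquiv 2 ℝ (fun _ : Fin (K + 1) => ℝ)).symm :
      (Fin (K + 1) → ℝ) →L[ℝ] E (K + 1)).comp (ContinuousLinearMap.pi comps) with hT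
  have hTa : ∀ x i, T x i = comps i x := by
    intro x i
    simp [hT]
  have hder : HasFDerivAt (fun q => frameMap a c f b (C.map q)) T p := by
    have h1 : HasFDerivAt (fun q => (Fin.cons (a * Real.sin (b (C.map q))) fun k =>
        √(c k) * (a * Real.cos (f k (C.map q))) : Fin (K + 1) → ℝ))
        (ContinuousLinearMap.pi comps) p := by
      rw [hasFDerivAt_pi]
      intro i
      refine Fin.cases ?_ (fun i' => ?_) i
      · simp only [Fin.cons_zero, hcomps]
        exact hdb.hasFDerivAt.sin.const_mul a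
      · simp only [Fin.cons_succ, hcomps]
        exact ((hdf i').hasFDerivAt.cos.const_mul a).const_mul (√(c i'))
    exact ((PiLp.continuousLinearEquiv 2 ℝ (fun _ : Fin (K + 1) => ℝ)).symm :
      (Fin (K + 1) → ℝ) →L[ℝ] E (K + 1)).hasFDerivAt.comp p h1
  have hdw : dw C (frameMap a c f b) p = T := hder.fderiv
  rw [normSq_eq, etr_frame _ R hR1, hdw]
  have e1 : ∀ x, ‖T x‖ ^ 2 = a ^ 2 * (Real.cos (b (C.map p)) ^ 2 * (Tb x) ^ 2 +
      ∑ k, c k * Real.sin (f k (C.map p)) ^ 2 * (Tf k x) ^ 2) := by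
    intro x
    rw [EuclideanSpace.real_norm_sq_eq, Fin.sum_univ_succ]
    simp only [hTa, hcomps, Fin.cons_zero, Fin.cons_succ, FunLike.coe_smul,
      Pi.smul_apply, smul_eq_mul]
    rw [mul_add, Finset.mul_sum]
    congr 1
    · ring
    · refine Finset.sum_congr rfl fun k _ => ?_
      rw [mul_pow, Real.sq_sqrt (hc k)]
      ring
  simp_rw [e1]
  rw [← Finset.mul_sum, Finset.sum_add_distrib, ← Finset.mul_sum, Finset.sum_comm]
  simp_rw [← Finset.mul_sum]
  apply mul_le_mul_of_nonneg_left _ (sq_nonneg a)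
  have h1 := grad_sq C b hb hp hdb R hR1
  have h2 : ∀ k, ∑ j, (Tf k (mv R (EuclideanSpace.single j 1))) ^ 2 ≤ 1 := fun k =>
    grad_sq C (f k) (hf k) hp (hdf k) R hR1
  have h3 : ∑ k, c k * Real.sin (f k (C.map p)) ^ 2 *
      ∑ j, (Tf k (mv R (EuclideanSpace.single j 1))) ^ 2 ≤
      ∑ k, c k * Real.sin (f k (C.map p)) ^ 2 := by
    refine Finset.sum_le_sum fun k _ => ?_
    exact mul_le_of_le_one_right (mul_nonneg (hc k) (sq_nonneg _)) (h2 k)
  have h4 : Real.cos (b (C.map p)) ^ 2 *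
      ∑ j, (Tb (mv R (EuclideanSpace.single j 1))) ^ 2 ≤ Real.cos (b (C.map p)) ^ 2 :=
    mul_le_of_le_one_right (sq_nonneg _) h1
  have h5 : ∑ k, c k * Real.sin (f k (C.map p)) ^ 2 =
      (d + 1) - ∑ k, c k * Real.cos (f k (C.map p)) ^ 2 := by
    rw [← hsum, ← Finset.sum_sub_distrib]
    refine Finset.sum_congr rfl fun k _ => ?_
    rw [Real.sin_sq]
    ring
  have h6 := hR (C.map p)
  have h7 := Real.sin_sq_add_cos_sq (b (C.map p))
  linarith

end Pool.Agent.TH172.FV
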